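import Pool.Agent.H810.Dual.Cone

/-!
# Averaging the directional inequality over the ball
-/

set_option autoImplicit false

namespace Pool.Agent.H810.Dual

open MeasureTheory Set Metric
open scoped ENNReal InnerProductSpace

theorem avg_meas {n : ℕ} {p : ℝ} (hp : 0 < p) :
    Measurable fun x : EuclideanSpace ℝ (Fin n) × EuclideanSpace ℝ (Fin n) =>
      ENNReal.ofReal (|⟪x.1, x.2⟫_ℝ| ^ p) := by
  have h : Measurable fun x : EuclideanSpace ℝ (Fin n) × EuclideanSpace ℝ (Fin n) =>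
    ⟪x.1, x.2⟫_ℝ := Measurable.inner measurable_fst measurable_snd
  exact ((continuous_abs_rpow hp).measurable.comp h).ennreal_ofReal

theorem avg_meas1 {n : ℕ} {p : ℝ} (hp : 0 < p) (x : EuclideanSpace ℝ (Fin n)) :
    Measurable fun θ : EuclideanSpace ℝ (Fin n) => ENNReal.ofReal (|⟪θ, x⟫_ℝ| ^ p) := by
  have h : Measurable fun θ : EuclideanSpace ℝ (Fin n) => ⟪θ, x⟫_ℝ :=
    Measurable.inner measurable_id measurable_const
  exact ((continuous_abs_rpow hp).measurable.comp h).ennreal_ofReal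

theorem avg_unit {n : ℕ} {p : ℝ} (hp : 0 < p) {e u : EuclideanSpace ℝ (Fin n)} (h : ‖e‖ = ‖u‖) :
    ∫⁻ θ in ball (0 : EuclideanSpace ℝ (Fin n)) 1, ENNReal.ofReal (|⟪θ, u⟫_ℝ| ^ p) =
      ∫⁻ θ in ball (0 : EuclideanSpace ℝ (Fin n)) 1, ENNReal.ofReal (|⟪θ, e⟫_ℝ| ^ p) := by
  set R := Submodule.reflection (Submodule.span ℝ {e - u})ᗮ with hR
  have hRe : R e = u := Submodule.reflection_sub h
  have hRu : R u = e := by rw [← hRe, hR, Submodule.reflection_reflection]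
  have hmp : MeasurePreserving R volume volume := R.measurePreserving
  have hpre : R ⁻¹' ball 0 1 = ball 0 1 := by
    ext x
    simp
  have h1 := hmp.setLIntegral_comp_preimage (s := ball 0 1) measurableSet_ball
    (avg_meas1 hp u)
  rw [hpre] at h1
  rw [← h1]
  refine lintegral_congr fun θ => ?_
  rw [← hRe, R.inner_map_map]

theorem avg {n : ℕ} (hn : 1 ≤ n) {p : ℝ} (hp : 0 < p) : ∃ c : ℝ≥0∞, c ≠ 0 ∧ c ≠ ∞ ∧
    ∀ x : EuclideanSpace ℝ (Fin n),
      ∫⁻ θ in ball (0 : EuclideanSpace ℝ (Fin n)) 1, ENNReal.ofReal (|⟪θ, x⟫_ℝ| ^ p) =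
        c * ENNReal.ofReal (‖x‖ ^ p) := by
  set e : EuclideanSpace ℝ (Fin n) := EuclideanSpace.single ⟨0, hn⟩ (1 : ℝ) with he
  have hen : ‖e‖ = 1 := by simp [he]
  have hee : ⟪e, e⟫_ℝ = 1 := by rw [real_inner_self_eq_norm_sq, hen]; norm_num
  refine ⟨∫⁻ θ in ball (0 : EuclideanSpace ℝ (Fin n)) 1, ENNReal.ofReal (|⟪θ, e⟫_ℝ| ^ p),
    ?_, ?_, ?_⟩
  · have hsub : ball ((1 / 2 : ℝ) • e) (1 / 4) ⊆ ball (0 : EuclideanSpace ℝ (Fin n)) 1 := by
      apply ball_subset_ball'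
      rw [dist_zero_right, norm_smul, hen]
      norm_num
    have h1 : ENNReal.ofReal ((1 / 4 : ℝ) ^ p) * volume (ball ((1 / 2 : ℝ) • e) (1 / 4)) ≤
        ∫⁻ θ in ball (0 : EuclideanSpace ℝ (Fin n)) 1, ENNReal.ofReal (|⟪θ, e⟫_ℝ| ^ p) := by
      calc _ = ∫⁻ _ in ball ((1 / 2 : ℝ) • e) (1 / 4), ENNReal.ofReal ((1 / 4 : ℝ) ^ p) := by
            rw [setLIntegral_const]
        _ ≤ ∫⁻ θ in ball ((1 / 2 : ℝ) • e) (1 / 4), ENNReal.ofReal (|⟪θ, e⟫_ℝ| ^ p) := by
            refine setLIntegral_mono' measurableSet_ball fun θ hθ => ?_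
            apply ENNReal.ofReal_le_ofReal
            apply Real.rpow_le_rpow (by norm_num) _ hp.le
            have h2 : |⟪θ - (1 / 2 : ℝ) • e, e⟫_ℝ| ≤ 1 / 4 := by
              refine (abs_real_inner_le_norm _ _).trans ?_
              rw [hen, mul_one]
              rw [mem_ball, dist_eq_norm] at hθ
              exact hθ.le
            have h3 : ⟪θ, e⟫_ℝ = ⟪θ - (1 / 2 : ℝ) • e, e⟫_ℝ + 1 / 2 := by
              rw [inner_sub_left, inner_smul_left, hee]
              simp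
            rw [h3]
            refine le_trans ?_ (le_abs_self _)
            linarith [(abs_le.1 h2).1]
        _ ≤ _ := lintegral_mono_set hsub
    refine (lt_of_lt_of_le ?_ h1).ne'
    exact ENNReal.mul_pos (ENNReal.ofReal_pos.2 (by positivity)).ne'
      (measure_ball_pos _ _ (by norm_num)).ne'
  · have h1 : ∫⁻ θ in ball (0 : EuclideanSpace ℝ (Fin n)) 1, ENNReal.ofReal (|⟪θ, e⟫_ℝ| ^ p) ≤
        ∫⁻ _ in ball (0 : EuclideanSpace ℝ (Fin n)) 1, 1 := by
      refine setLIntegral_mono' measurableSet_ball fun θ hθ => ?_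
      rw [← ENNReal.ofReal_one]
      apply ENNReal.ofReal_le_ofReal
      apply Real.rpow_le_one (abs_nonneg _) _ hp.le
      refine (abs_real_inner_le_norm _ _).trans ?_
      rw [hen, mul_one]
      exact (mem_ball_zero_iff.1 hθ).le
    refine (h1.trans_lt ?_).ne
    rw [setLIntegral_const, one_mul]
    exact measure_ball_lt_top
  · intro x
    by_cases hx : x = 0
    · subst hx
      simp [Real.zero_rpow hp.ne']
    · have hxn : 0 < ‖x‖ := norm_pos_iff.2 hx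
      have h1 := avg_unit hp (e := e) (u := (‖x‖)⁻¹ • x) (by
        rw [hen, norm_smul, norm_inv, norm_norm, inv_mul_cancel₀ hxn.ne'])
      rw [← h1, ← lintegral_mul_const' _ _ ENNReal.ofReal_ne_top]
      refine lintegral_congr fun θ => ?_
      rw [← ENNReal.ofReal_mul (by positivity), ← Real.mul_rpow (abs_nonneg _) (norm_nonneg _),
        inner_smul_right, abs_mul, abs_inv, abs_norm]
      congr 2
      field_simp

theorem coneE_subset {n : ℕ} {K : Set (EuclideanSpace ℝ (Fin n))} (hc : Convex ℝ K)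
    (hs : ∀ x ∈ K, -x ∈ K) (a : EuclideanSpace ℝ (Fin n)) : coneE K a ⊆ K := by
  rintro x ⟨h1, h2, h3⟩
  have h0 : (0 : EuclideanSpace ℝ (Fin n)) ∈ K := by
    have := hc h3 (hs _ h3) (a := 1 / 2) (b := 1 / 2) (by norm_num) (by norm_num) (by norm_num)
    simpa using this
  have := hc.smul_mem_of_zero_mem h0 h3 ⟨h1.le, h2⟩
  rwa [smul_smul, mul_inv_cancel₀ h1.ne', one_smul] at this

theorem measurableSet_coneE {n : ℕ} {K : Set (EuclideanSpace ℝ (Fin n))} (hK : MeasurableSet K)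
    (a : EuclideanSpace ℝ (Fin n)) : MeasurableSet (coneE K a) := by
  have hi : Measurable fun x : EuclideanSpace ℝ (Fin n) => ⟪a, x⟫_ℝ :=
    (innerSL ℝ a).continuous.measurable
  have h1 : MeasurableSet {x : EuclideanSpace ℝ (Fin n) | 0 < ⟪a, x⟫_ℝ} :=
    measurableSet_lt measurable_const hi
  have h2 : MeasurableSet {x : EuclideanSpace ℝ (Fin n) | ⟪a, x⟫_ℝ ≤ 1} :=
    measurableSet_le hi measurable_const
  have h3 : MeasurableSet {x : EuclideanSpace ℝ (Fin n) | (⟪a, x⟫_ℝ)⁻¹ • x ∈ K} :=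
    measurableSet_preimage (hi.inv.smul measurable_id) hK
  exact h1.inter (h2.inter h3)

theorem norm_meas {n : ℕ} {p : ℝ} :
    Measurable fun x : EuclideanSpace ℝ (Fin n) => ENNReal.ofReal (‖x‖ ^ p) :=
  (measurable_norm.pow_const p).ennreal_ofReal

theorem norm_int_lt_top {n : ℕ} {p : ℝ} (hp : 0 < p) {K : Set (EuclideanSpace ℝ (Fin n))}
    (hK : IsCompact K) : ∫⁻ x in K, ENNReal.ofReal (‖x‖ ^ p) < ∞ := by
  obtain ⟨M, hM⟩ := hK.isBounded.exists_norm_le
  calc ∫⁻ x in K, ENNReal.ofReal (‖x‖ ^ p) ≤ ∫⁻ _ in K, ENNReal.ofReal (M ^ p) :=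
        setLIntegral_mono' hK.measurableSet fun x hx => ENNReal.ofReal_le_ofReal
          (Real.rpow_le_rpow (norm_nonneg _) (hM x hx) hp.le)
    _ = ENNReal.ofReal (M ^ p) * volume K := setLIntegral_const _ _
    _ < ∞ := ENNReal.mul_lt_top ENNReal.ofReal_lt_top hK.measure_lt_top

/-- The inequality for the cone over one face, with the full norm. -/
theorem face_ineq {n : ℕ} (hn : 2 ≤ n) {p : ℝ} (hp : 0 < p)
    {K : Set (EuclideanSpace ℝ (Fin n))} (hc : Convex ℝ K) (hK : IsCompact K)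
    (hs : ∀ x ∈ K, -x ∈ K) {a : EuclideanSpace ℝ (Fin n)} (ha : a ≠ 0)
    (hpos : ∫⁻ x in coneE K a, ENNReal.ofReal (‖x‖ ^ p) ≠ 0) :
    ENNReal.ofReal ((n : ℝ) + p) * ∫⁻ x in coneE K a, ENNReal.ofReal (‖x‖ ^ p) <
      ENNReal.ofReal (p + 1) * ∫⁻ x in halfE K a, ENNReal.ofReal (‖x‖ ^ p) := by
  obtain ⟨c, hc0, hct, hcx⟩ := avg (n := n) (by omega) hp
  have hCm := measurableSet_coneE hK.measurableSet a
  have swap : ∀ C : Set (EuclideanSpace ℝ (Fin n)),
      ∫⁻ θ in ball (0 : EuclideanSpace ℝ (Fin n)) 1,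
        ∫⁻ x in C, ENNReal.ofReal (|⟪θ, x⟫_ℝ| ^ p) = c * ∫⁻ x in C, ENNReal.ofReal (‖x‖ ^ p) := by
    intro C
    rw [lintegral_lintegral_swap (avg_meas hp).aemeasurable, ← lintegral_const_mul' _ _ hct]
    exact lintegral_congr fun x => hcx x
  have hfin : ∫⁻ x in coneE K a, ENNReal.ofReal (‖x‖ ^ p) ≠ ∞ :=
    ((lintegral_mono_set (coneE_subset hc hs a)).trans_lt (norm_int_lt_top hp hK)).ne
  -- finiteness in each direction
  have hZfin : ∀ θ : EuclideanSpace ℝ (Fin n),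
      ∫⁻ x in coneE K a, ENNReal.ofReal (|⟪θ, x⟫_ℝ| ^ p) ≠ ∞ := by
    intro θ
    have h1 : ∫⁻ x in coneE K a, ENNReal.ofReal (|⟪θ, x⟫_ℝ| ^ p) ≤
        ∫⁻ x in coneE K a, ENNReal.ofReal (‖θ‖ ^ p) * ENNReal.ofReal (‖x‖ ^ p) := by
      refine lintegral_mono fun x => ?_
      rw [← ENNReal.ofReal_mul (by positivity), ← Real.mul_rpow (norm_nonneg _) (norm_nonneg _)]
      exact ENNReal.ofReal_le_ofReal (Real.rpow_le_rpow (abs_nonneg _)
        (abs_real_inner_le_norm _ _) hp.le)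
    rw [lintegral_const_mul' _ _ ENNReal.ofReal_ne_top] at h1
    exact (h1.trans_lt (ENNReal.mul_lt_top ENNReal.ofReal_lt_top hfin.lt_top)).ne
  have hnp : (0 : ℝ) < (n : ℝ) + p := by positivity
  have hspan : ∀ᵐ θ ∂(volume.restrict (ball (0 : EuclideanSpace ℝ (Fin n)) 1)),
      θ ∉ Submodule.span ℝ {a} := by
    apply ae_restrict_of_ae
    have h0 : volume ((Submodule.span ℝ {a} : Submodule ℝ (EuclideanSpace ℝ (Fin n))) :
        Set (EuclideanSpace ℝ (Fin n))) = 0 := by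
      apply Measure.addHaar_submodule
      intro htop
      have h1 := finrank_span_singleton (K := ℝ) ha
      rw [htop, finrank_top, finrank_euclideanSpace_fin] at h1
      omega
    exact measure_eq_zero_iff_ae_notMem.1 h0
  have hle : (fun θ => ENNReal.ofReal ((n : ℝ) + p) *
      ∫⁻ x in coneE K a, ENNReal.ofReal (|⟪θ, x⟫_ℝ| ^ p)) ≤ᵐ[volume.restrict
      (ball (0 : EuclideanSpace ℝ (Fin n)) 1)] fun θ => ENNReal.ofReal (p + 1) *
      ∫⁻ x in halfE K a, ENNReal.ofReal (|⟪θ, x⟫_ℝ| ^ p) := by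
    filter_upwards [hspan] with θ hθ
    by_cases h0 : ∫⁻ x in coneE K a, ENNReal.ofReal (|⟪θ, x⟫_ℝ| ^ p) = 0
    · rw [h0, mul_zero]; exact zero_le
    · exact (dir_ineq hp hc hK hs ha hθ h0 (hZfin θ)).le
  have hgm : AEMeasurable (fun θ => ENNReal.ofReal (p + 1) *
      ∫⁻ x in halfE K a, ENNReal.ofReal (|⟪θ, x⟫_ℝ| ^ p))
      (volume.restrict (ball (0 : EuclideanSpace ℝ (Fin n)) 1)) :=
    (measurable_const.mul (avg_meas hp).lintegral_prod_right').aemeasurable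
  have key := lintegral_strict_mono_of_ae_le_of_frequently_ae_lt hgm (by
    rw [lintegral_const_mul' _ _ ENNReal.ofReal_ne_top, swap]
    exact ENNReal.mul_ne_top ENNReal.ofReal_ne_top (ENNReal.mul_ne_top hct hfin)) hle (by
    intro hcon
    have h0 : ∫⁻ θ in ball (0 : EuclideanSpace ℝ (Fin n)) 1,
        ∫⁻ x in coneE K a, ENNReal.ofReal (|⟪θ, x⟫_ℝ| ^ p) = 0 := by
      rw [lintegral_congr_ae (g := fun _ => 0), lintegral_zero]
      filter_upwards [hcon, hspan] with θ h1 hθ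
      by_contra h0
      exact h1 (dir_ineq hp hc hK hs ha hθ h0 (hZfin θ)).ne
    rw [swap] at h0
    exact mul_ne_zero hc0 hpos h0)
  rw [lintegral_const_mul' _ _ ENNReal.ofReal_ne_top, lintegral_const_mul' _ _
    ENNReal.ofReal_ne_top, swap, swap] at key
  have key2 : c * (ENNReal.ofReal ((n : ℝ) + p) *
      ∫⁻ x in coneE K a, ENNReal.ofReal (‖x‖ ^ p)) <
      c * (ENNReal.ofReal (p + 1) * ∫⁻ x in halfE K a, ENNReal.ofReal (‖x‖ ^ p)) := by
    calc _ = _ := by ring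
      _ < _ := key
      _ = _ := by ring
  exact (ENNReal.mul_lt_mul_iff_right hc0 hct).1 key2

end Pool.Agent.H810.Dual
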