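import Pool.Agent.H810.Dual.Geo

/-!
# The hexagon inequality with the corner term
-/

set_option autoImplicit false

namespace Pool.Agent.H810.Dual

open MeasureTheory Set Metric
open scoped ENNReal InnerProductSpace

/-- The functional `x ↦ (x₀ - x₁)/w`. -/
noncomputable def dvec (w : ℝ) : E2 :=
  w⁻¹ • (EuclideanSpace.single 0 (1 : ℝ) - EuclideanSpace.single 1 (1 : ℝ))

theorem inner_dvec (w : ℝ) (x : E2) : ⟪dvec w, x⟫_ℝ = w⁻¹ * (x 0 - x 1) := by
  unfold dvec
  rw [inner_smul_left, inner_sub_left, EuclideanSpace.inner_single_left,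
    EuclideanSpace.inner_single_left]
  simp

theorem dvec_ne {w : ℝ} (hw : 0 < w) : dvec w ≠ 0 := by
  intro h
  have h1 := inner_dvec w (!₂[w, 0] : E2)
  rw [h, inner_zero_left] at h1
  simp [hw.ne'] at h1

theorem In_neg (p : ℝ) (S : Set E2) : In p {x | -x ∈ S} = In p S := by
  have hmp : MeasurePreserving (fun x : E2 => -x) volume volume := Measure.measurePreserving_neg _
  have hemb : MeasurableEmbedding (fun x : E2 => -x) := (MeasurableEquiv.neg E2).measurableEmbedding
  have h := hmp.setLIntegral_comp_preimage_emb hemb (fun x => ENNReal.ofReal (‖x‖ ^ p)) S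
  unfold In
  rw [← h]
  simp only [norm_neg]
  rfl

theorem In_union_le {p : ℝ} {S T : Set E2} (hT : MeasurableSet T) (hd : Disjoint S T) :
    In p S + In p T = In p (S ∪ T) := by
  unfold In
  rw [lintegral_union hT hd]

theorem measurable_inner_dvec (a : E2) : Measurable fun x : E2 => ⟪a, x⟫_ℝ :=
  (innerSL ℝ a).continuous.measurable

theorem half_sum_le {p : ℝ} {P : Set E2} (hP : MeasurableSet P) (a : E2) :
    In p (halfE P a) + In p (halfE P (-a)) ≤ In p P := by
  have hm : MeasurableSet (halfE P (-a)) :=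
    hP.inter (measurableSet_lt measurable_const (measurable_inner_dvec (-a)))
  have hd : Disjoint (halfE P a) (halfE P (-a)) := by
    rw [Set.disjoint_left]
    rintro x ⟨-, h1⟩ ⟨-, h2⟩
    rw [inner_neg_left] at h2
    linarith
  rw [In_union_le hm hd]
  exact lintegral_mono_set (union_subset (fun x hx => hx.1) (fun x hx => hx.1))

theorem measurableSet_corner (H1 H2 w : ℝ) : MeasurableSet (corner H1 H2 w) := by
  have c0 := (continuous_coord 0).measurable
  have c1 := (continuous_coord 1).measurable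
  exact (measurableSet_le measurable_const c0).inter ((measurableSet_le c0 measurable_const).inter
    ((measurableSet_le measurable_const c1).inter (measurableSet_le c1 measurable_const)))

theorem face_le {p : ℝ} (hp : 0 < p) {P : Set E2} (hc : Convex ℝ P) (hP : IsCompact P)
    (hs : ∀ x ∈ P, -x ∈ P) {a : E2} (ha : a ≠ 0) :
    ENNReal.ofReal (p + 2) * In p (coneE P a) ≤ ENNReal.ofReal (p + 1) * In p (halfE P a) := by
  by_cases h0 : In p (coneE P a) = 0
  · rw [h0, mul_zero]; exact zero_le
  · have h := face_ineq (n := 2) le_rfl hp hc hP hs ha h0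
    rw [show ((2 : ℕ) : ℝ) + p = p + 2 by push_cast; ring] at h
    exact h.le

theorem caseA {p : ℝ} (hp : 0 < p) {H1 H2 w : ℝ} (hw0 : 0 < w) (hA : 0 < w + H1 - H2)
    (hB : 0 < w + H2 - H1) (hw : w ≤ H1 + H2) :
    ENNReal.ofReal (p + 2) * (2 * In p (coneE (hex H1 H2 w) (dvec w))) +
      ENNReal.ofReal (p + 1) * (2 * In p (corner H1 H2 w)) ≤
      ENNReal.ofReal (p + 1) * In p (hex H1 H2 w) := by
  set P := cpart H1 H2 w with hP
  have hPm : MeasurableSet P := (isCompact_cpart H1 H2 w).measurableSet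
  have hcone : coneE (hex H1 H2 w) (dvec w) ⊆ coneE P (dvec w) := by
    rintro x ⟨h1, h2, h3⟩
    refine ⟨h1, h2, h3, ?_⟩
    set s := ⟪dvec w, x⟫_ℝ with hs
    have hsx : s⁻¹ * x 0 - s⁻¹ * x 1 = w := by
      rw [← mul_sub]
      have : x 0 - x 1 = w * s := by
        rw [hs, inner_dvec, ← mul_assoc, mul_inv_cancel₀ hw0.ne', one_mul]
      rw [this, mul_comm w s, ← mul_assoc, inv_mul_cancel₀ h1.ne', one_mul]
    have g1 := abs_le.1 h3.1
    have g2 := abs_le.1 h3.2.1
    simp only [PiLp.smul_apply, smul_eq_mul] at g1 g2 ⊢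
    set y0 := s⁻¹ * x 0
    set y1 := s⁻¹ * x 1
    have hy1 : y1 = y0 - w := by linarith
    rw [hy1] at g2 ⊢
    rw [abs_le]
    constructor
    · nlinarith
    · nlinarith
  have hc := convex_cpart H1 H2 w
  have hk := isCompact_cpart H1 H2 w
  have hs : ∀ x ∈ P, -x ∈ P := fun x hx => cpart_neg hx
  have f1 := face_le hp hc hk hs (dvec_ne hw0)
  have f2 := face_le hp hc hk hs (a := -dvec w) (neg_ne_zero.2 (dvec_ne hw0))
  have e2 : In p (coneE P (-dvec w)) = In p (coneE P (dvec w)) := coneE_neg_int hs _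
  rw [← hP] at f1 f2
  rw [e2] at f2
  have f3 := half_sum_le (p := p) hPm (dvec w)
  have f4 : In p (coneE (hex H1 H2 w) (dvec w)) ≤ In p (coneE P (dvec w)) :=
    lintegral_mono_set hcone
  -- the corners
  set C := corner H1 H2 w with hC
  have hCm : MeasurableSet C := measurableSet_corner H1 H2 w
  have hC'm : MeasurableSet {x : E2 | -x ∈ C} := hCm.preimage measurable_neg
  have key : ∀ x ∈ C, w * (H1 + H2 - w) < (w + H2 - H1) * x 0 + (w + H1 - H2) * x 1 := by
    rintro x ⟨h1, h2, h3, h4⟩
    have a1 := mul_le_mul_of_nonneg_left h1 hB.le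
    have a2 := mul_le_mul_of_nonneg_left h3 hA.le
    have a3 : 0 < (w + H1 - H2) * (w + H2 - H1) := mul_pos hA hB
    nlinarith
  have d1 : Disjoint P C := by
    rw [Set.disjoint_left]
    intro x hx hxC
    have := key x hxC
    have h2 := (abs_le.1 hx.2).2
    linarith
  have d2 : Disjoint (P ∪ C) {x : E2 | -x ∈ C} := by
    rw [Set.disjoint_left]
    rintro x (hx | hx) hxC
    · have := key _ hxC
      have h2 := (abs_le.1 hx.2).1
      simp only [PiLp.neg_apply] at this
      nlinarith
    · have k1 := key _ hxC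
      have k2 := key _ hx
      simp only [PiLp.neg_apply] at k1
      have hk0 : 0 ≤ w * (H1 + H2 - w) := mul_nonneg hw0.le (by linarith)
      nlinarith
  have f5 : In p P + In p C + In p C ≤ In p (hex H1 H2 w) := by
    rw [In_union_le hCm d1]
    conv_lhs => rw [← In_neg p C]
    rw [In_union_le hC'm d2]
    refine lintegral_mono_set (union_subset (union_subset (fun x hx => hx.1) ?_) ?_)
    · exact corner_sub hA hB hw
    · intro x hx
      have := hex_neg (corner_sub hA hB hw hx)
      rwa [neg_neg] at this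
  calc ENNReal.ofReal (p + 2) * (2 * In p (coneE (hex H1 H2 w) (dvec w))) +
      ENNReal.ofReal (p + 1) * (2 * In p C)
      ≤ ENNReal.ofReal (p + 2) * (2 * In p (coneE P (dvec w))) +
        ENNReal.ofReal (p + 1) * (2 * In p C) := by gcongr
    _ = (ENNReal.ofReal (p + 2) * In p (coneE P (dvec w)) +
        ENNReal.ofReal (p + 2) * In p (coneE P (dvec w))) +
        ENNReal.ofReal (p + 1) * (2 * In p C) := by ring
    _ ≤ (ENNReal.ofReal (p + 1) * In p (halfE P (dvec w)) +
        ENNReal.ofReal (p + 1) * In p (halfE P (-dvec w))) +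
        ENNReal.ofReal (p + 1) * (2 * In p C) := by gcongr
    _ = ENNReal.ofReal (p + 1) * ((In p (halfE P (dvec w)) + In p (halfE P (-dvec w))) +
        In p C + In p C) := by ring
    _ ≤ ENNReal.ofReal (p + 1) * (In p P + In p C + In p C) := by gcongr
    _ ≤ _ := by gcongr

end Pool.Agent.H810.Dual
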