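import Pool.Agent.H810.Dual.CaseA

/-!
# The swap estimate for elongated hexagons
-/

set_option autoImplicit false

namespace Pool.Agent.H810.Dual

open MeasureTheory Set Metric
open scoped ENNReal InnerProductSpace

section swap

variable (H1 H2 w : ℝ)

/-- First coordinate. -/
noncomputable def tc (x : E2) : ℝ := w⁻¹ * (x 0 - x 1)

/-- Second coordinate. -/
noncomputable def uc (x : E2) : ℝ := (x 0 + x 1 - tc w x * (H1 - H2)) / (H1 + H2 - w)

/-- The centre of the third facet. -/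
noncomputable def fc : E2 := !₂[(w + H1 - H2) / 2, -((w + H2 - H1) / 2)]

/-- The half edge vector of the third facet. -/
noncomputable def fd : E2 := !₂[(H1 + H2 - w) / 2, (H1 + H2 - w) / 2]

/-- The swap of the two coordinates. -/
noncomputable def sw : E2 →ₗ[ℝ] E2 :=
  lin2 !₂[(w + H2 - H1) / (w * (H1 + H2 - w)) * ((w + H1 - H2) / 2) + (H1 + H2 - w) / (2 * w),
      -((w + H2 - H1) / (w * (H1 + H2 - w)) * ((w + H2 - H1) / 2)) + (H1 + H2 - w) / (2 * w)]
    !₂[(w + H1 - H2) / (w * (H1 + H2 - w)) * ((w + H1 - H2) / 2) - (H1 + H2 - w) / (2 * w),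
      -((w + H1 - H2) / (w * (H1 + H2 - w)) * ((w + H2 - H1) / 2)) - (H1 + H2 - w) / (2 * w)]

variable {H1 H2 w}

theorem coord_eq (hw : 0 < w) (hl : 0 < H1 + H2 - w) (x : E2) :
    x = tc w x • fc H1 H2 w + uc H1 H2 w x • fd H1 H2 w := by
  have h1 := hw.ne'
  have h2 := hl.ne'
  ext i
  fin_cases i
  · simp [tc, uc, fc, fd]
    field_simp
    ring
  · simp [tc, uc, fc, fd]
    field_simp
    ring

theorem sw_eq (hw : 0 < w) (hl : 0 < H1 + H2 - w) (x : E2) :
    sw H1 H2 w x = uc H1 H2 w x • fc H1 H2 w + tc w x • fd H1 H2 w := by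
  have h1 := hw.ne'
  have h2 := hl.ne'
  unfold sw
  rw [lin2_apply]
  ext i
  fin_cases i
  · simp [tc, uc, fc, fd]
    field_simp
    ring
  · simp [tc, uc, fc, fd]
    field_simp
    ring

theorem sw_det (hw : 0 < w) (hl : 0 < H1 + H2 - w) : LinearMap.det (sw H1 H2 w) = -1 := by
  have h1 := hw.ne'
  have h2 := hl.ne'
  unfold sw
  rw [lin2_det]
  simp only [Matrix.cons_val_zero, Matrix.cons_val_one]
  field_simp
  ring

theorem tc_fc (hw : 0 < w) : tc w (fc H1 H2 w) = 1 := by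
  have h1 := hw.ne'
  simp [tc, fc]
  field_simp
  ring

theorem tc_fd : tc w (fd H1 H2 w) = 0 := by
  simp [tc, fd]

theorem tc_sw (hw : 0 < w) (hl : 0 < H1 + H2 - w) (x : E2) :
    tc w (sw H1 H2 w x) = uc H1 H2 w x := by
  rw [sw_eq hw hl]
  have h1 := hw.ne'
  simp [tc, fc, fd]
  field_simp
  ring

theorem uc_sw (hw : 0 < w) (hl : 0 < H1 + H2 - w) (x : E2) :
    uc H1 H2 w (sw H1 H2 w x) = tc w x := by
  unfold uc
  rw [tc_sw hw hl, sw_eq hw hl]
  have h1 := hw.ne'
  have h2 := hl.ne'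
  simp [fc, fd]
  field_simp
  ring

theorem sw_sw (hw : 0 < w) (hl : 0 < H1 + H2 - w) (x : E2) :
    sw H1 H2 w (sw H1 H2 w x) = x := by
  rw [sw_eq hw hl (sw H1 H2 w x), tc_sw hw hl, uc_sw hw hl]
  exact (coord_eq hw hl x).symm

theorem sw_cont : Continuous (sw H1 H2 w) := LinearMap.continuous_of_finiteDimensional _

theorem sw_mp (hw : 0 < w) (hl : 0 < H1 + H2 - w) :
    MeasurePreserving (sw H1 H2 w) volume volume := by
  refine ⟨sw_cont.measurable, ?_⟩
  rw [Measure.map_linearMap_addHaar_eq_smul_addHaar volume (by rw [sw_det hw hl]; norm_num),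
    sw_det hw hl]
  norm_num

end swap

theorem continuous_tc (w : ℝ) : Continuous (tc w) := by
  have c0 := continuous_coord 0
  have c1 := continuous_coord 1
  exact continuous_const.mul (c0.sub c1)

theorem continuous_uc (H1 H2 w : ℝ) : Continuous (uc H1 H2 w) := by
  have c0 := continuous_coord 0
  have c1 := continuous_coord 1
  exact ((c0.add c1).sub ((continuous_tc w).mul continuous_const)).div_const _

theorem tc_smul (w c : ℝ) (x : E2) : tc w (c • x) = c * tc w x := by
  simp [tc]; ring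

theorem uc_smul (H1 H2 w c : ℝ) (x : E2) : uc H1 H2 w (c • x) = c * uc H1 H2 w x := by
  simp [uc, tc]; ring

theorem inner_null {g : E2} (hg : g ≠ 0) : volume {x : E2 | ⟪g, x⟫_ℝ = 0} = 0 := by
  have h := Measure.addHaar_submodule (volume : Measure E2)
    (LinearMap.ker ((innerSL ℝ g : E2 →L[ℝ] ℝ) : E2 →ₗ[ℝ] ℝ)) (by
      intro htop
      have h1 : g ∈ LinearMap.ker ((innerSL ℝ g : E2 →L[ℝ] ℝ) : E2 →ₗ[ℝ] ℝ) := by
        rw [htop]; trivial
      have h2 : ⟪g, g⟫_ℝ = 0 := h1
      exact hg (inner_self_eq_zero.1 h2))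
  exact h

theorem diag_null {H1 H2 w : ℝ} (hw : 0 < w) (hl : 0 < H1 + H2 - w) (σ : ℝ) :
    volume {x : E2 | uc H1 H2 w x = σ * tc w x} = 0 := by
  have h1 := hw.ne'
  have h2 := hl.ne'
  set g : E2 := !₂[1 / (H1 + H2 - w) - w⁻¹ * (H1 - H2) / (H1 + H2 - w) - σ * w⁻¹,
    1 / (H1 + H2 - w) + w⁻¹ * (H1 - H2) / (H1 + H2 - w) + σ * w⁻¹] with hg
  have hin : ∀ x : E2, ⟪g, x⟫_ℝ = uc H1 H2 w x - σ * tc w x := by
    intro x
    rw [PiLp.inner_apply, Fin.sum_univ_two]
    simp [hg, uc, tc]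
    ring
  have hg0 : g ≠ 0 := by
    intro h
    have h3 := hin (fd H1 H2 w)
    rw [h, inner_zero_left, tc_fd, mul_zero, sub_zero] at h3
    have h6 : uc H1 H2 w (fd H1 H2 w) = 1 := by
      unfold uc
      rw [tc_fd, zero_mul, sub_zero, div_eq_one_iff_eq h2]
      change (H1 + H2 - w) / 2 + (H1 + H2 - w) / 2 = _
      ring
    rw [h6] at h3
    exact one_ne_zero h3.symm
  have h4 := inner_null hg0
  have h5 : {x : E2 | uc H1 H2 w x = σ * tc w x} = {x : E2 | ⟪g, x⟫_ℝ = 0} := by
    ext x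
    simp only [mem_ofPred_eq, hin, sub_eq_zero]
  rw [h5, h4]

theorem box_sub_hex {H1 H2 w : ℝ} (hw : 0 < w) (hl : 0 < H1 + H2 - w) (hA : 0 < w + H1 - H2)
    (hB : 0 < w + H2 - H1) {x : E2} (ht : |tc w x| ≤ 1) (hu : |uc H1 H2 w x| ≤ 1) :
    x ∈ hex H1 H2 w := by
  have h := coord_eq hw hl x
  have t1 := abs_le.1 ht
  have u1 := abs_le.1 hu
  set t := tc w x
  set u := uc H1 H2 w x
  have e0 : x 0 = t * ((w + H1 - H2) / 2) + u * ((H1 + H2 - w) / 2) := by
    rw [h]; simp [fc, fd]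
  have e1 : x 1 = t * -((w + H2 - H1) / 2) + u * ((H1 + H2 - w) / 2) := by
    rw [h]; simp [fc, fd]
  refine ⟨?_, ?_, ?_⟩
  · rw [e0, abs_le]
    constructor <;> nlinarith
  · rw [e1, abs_le]
    constructor <;> nlinarith
  · rw [e0, e1, abs_le]
    constructor <;> nlinarith

theorem caseB {p : ℝ} (hp : 0 < p) {H1 H2 w c0 : ℝ} (hw : 0 < w) (hl : 0 < H1 + H2 - w)
    (hA : 0 < w + H1 - H2) (hB : 0 < w + H2 - H1) (hc0 : 0 ≤ c0)
    (hc : c0 * (w + ‖fd H1 H2 w‖) ≤ ‖fd H1 H2 w‖ - w) :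
    2 * ((1 + ENNReal.ofReal (c0 ^ p)) * In p (coneE (hex H1 H2 w) (dvec w))) ≤
      In p (hex H1 H2 w) := by
  set K := hex H1 H2 w with hK
  set D := coneE K (dvec w) with hD
  have hKm : MeasurableSet K := (isClosed_hex H1 H2 w).measurableSet
  have hDm : MeasurableSet D := measurableSet_coneE hKm _
  have hDt : ∀ x ∈ D, 0 < tc w x ∧ tc w x ≤ 1 ∧ |uc H1 H2 w x| ≤ tc w x := by
    rintro x ⟨h1, h2, h3⟩
    rw [inner_dvec] at h1 h2 h3
    change 0 < tc w x at h1
    change tc w x ≤ 1 at h2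
    change (tc w x)⁻¹ • x ∈ K at h3
    refine ⟨h1, h2, ?_⟩
    set y := (tc w x)⁻¹ • x with hy
    have hty : tc w y = 1 := by rw [hy, tc_smul, inv_mul_cancel₀ h1.ne']
    have huy : |uc H1 H2 w y| ≤ 1 := by
      have g1 := abs_le.1 h3.1
      have g2 := abs_le.1 h3.2.1
      have g3 : y 0 - y 1 = w := by
        have : tc w y = w⁻¹ * (y 0 - y 1) := rfl
        rw [this, inv_mul_eq_one₀ hw.ne'] at hty
        exact hty.symm
      unfold uc
      rw [hty, abs_div, abs_of_pos hl, div_le_one hl, abs_le]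
      constructor <;> linarith
    have hux : uc H1 H2 w x = tc w x * uc H1 H2 w y := by
      rw [hy, uc_smul, ← mul_assoc, mul_inv_cancel₀ h1.ne', one_mul]
    rw [hux, abs_mul, abs_of_pos h1]
    nlinarith
  set S : Set E2 := {x | x ∈ D ∧ |uc H1 H2 w x| < tc w x} with hS
  have hSm : MeasurableSet S := hDm.inter
    (measurableSet_lt (continuous_uc H1 H2 w).abs.measurable (continuous_tc w).measurable)
  have hDS : In p D = In p S := by
    unfold In
    apply setLIntegral_congr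
    have hnull : volume (({x : E2 | uc H1 H2 w x = 1 * tc w x}) ∪
        {x : E2 | uc H1 H2 w x = (-1) * tc w x}) = 0 := by
      rw [← nonpos_iff_eq_zero]
      refine (measure_union_le _ _).trans ?_
      rw [diag_null hw hl, diag_null hw hl, add_zero]
    have hae := measure_eq_zero_iff_ae_notMem.1 hnull
    filter_upwards [hae] with x hx
    apply propext
    change x ∈ D ↔ x ∈ S
    constructor
    · intro hxD
      refine ⟨hxD, lt_of_le_of_ne (hDt x hxD).2.2 fun he => hx ?_⟩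
      rcases abs_cases (uc H1 H2 w x) with ⟨h1, -⟩ | ⟨h1, -⟩
      · left
        simp only [mem_ofPred_eq]
        linarith
      · right
        simp only [mem_ofPred_eq]
        linarith
    · exact fun h => h.1
  set T : Set E2 := {x | sw H1 H2 w x ∈ S} with hT
  have hTm : MeasurableSet T := hSm.preimage sw_cont.measurable
  have hTt : ∀ x ∈ T, 0 < uc H1 H2 w x ∧ uc H1 H2 w x ≤ 1 ∧ |tc w x| < uc H1 H2 w x := by
    rintro x ⟨hx1, hx2⟩
    have := hDt _ hx1
    rw [tc_sw hw hl, uc_sw hw hl] at this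
    rw [tc_sw hw hl, uc_sw hw hl] at hx2
    exact ⟨this.1, this.2.1, hx2⟩
  have hTK : T ⊆ K := by
    intro x hx
    obtain ⟨h1, h2, h3⟩ := hTt x hx
    exact box_sub_hex hw hl hA hB (h3.le.trans h2) (by rw [abs_of_pos h1]; exact h2)
  have hSK : S ⊆ K := fun x hx =>
    coneE_subset (convex_hex H1 H2 w) (fun y hy => hex_neg hy) _ hx.1
  -- the integral over `T`
  have hTint : ENNReal.ofReal (c0 ^ p) * In p S ≤ In p T := by
    have h1 := (sw_mp hw hl).setLIntegral_comp_preimage (s := S) hSm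
      (f := fun x : E2 => ENNReal.ofReal (‖sw H1 H2 w x‖ ^ p))
      ((sw_cont.norm.measurable.pow_const p).ennreal_ofReal)
    have h2 : In p T = ∫⁻ x in S, ENNReal.ofReal (‖sw H1 H2 w x‖ ^ p) := by
      rw [← h1]
      unfold In
      refine lintegral_congr fun x => ?_
      rw [sw_sw hw hl]
    rw [h2]
    unfold In
    rw [← lintegral_const_mul' _ _ ENNReal.ofReal_ne_top]
    refine setLIntegral_mono' hSm fun x hx => ?_
    rw [← ENNReal.ofReal_mul (by positivity), ← Real.mul_rpow hc0 (norm_nonneg _)]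
    apply ENNReal.ofReal_le_ofReal
    apply Real.rpow_le_rpow (by positivity) _ hp.le
    obtain ⟨ht0, ht1, hu⟩ := hDt x hx.1
    set t := tc w x with ht
    set u := uc H1 H2 w x with hu'
    have hfc : ‖fc H1 H2 w‖ ≤ w := by
      refine (norm_le_sum _).trans ?_
      simp only [fc, Matrix.cons_val_zero, Matrix.cons_val_one, abs_neg]
      rw [abs_of_pos (by linarith), abs_of_pos (by linarith)]
      linarith
    have hx1 : ‖x‖ ≤ t * w + t * ‖fd H1 H2 w‖ := by
      calc ‖x‖ = ‖t • fc H1 H2 w + u • fd H1 H2 w‖ := by rw [← coord_eq hw hl x]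
        _ ≤ ‖t • fc H1 H2 w‖ + ‖u • fd H1 H2 w‖ := norm_add_le _ _
        _ = t * ‖fc H1 H2 w‖ + |u| * ‖fd H1 H2 w‖ := by
            rw [norm_smul, norm_smul, Real.norm_eq_abs, Real.norm_eq_abs, abs_of_pos ht0]
        _ ≤ t * w + t * ‖fd H1 H2 w‖ := by gcongr
    have hx2 : t * ‖fd H1 H2 w‖ - t * w ≤ ‖sw H1 H2 w x‖ := by
      rw [sw_eq hw hl]
      have h3 : ‖t • fd H1 H2 w‖ - ‖u • fc H1 H2 w‖ ≤ ‖u • fc H1 H2 w + t • fd H1 H2 w‖ := by
        rw [add_comm]
        have := norm_sub_norm_le (t • fd H1 H2 w) (-(u • fc H1 H2 w))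
        rwa [norm_neg, sub_neg_eq_add] at this
      refine le_trans ?_ h3
      rw [norm_smul, norm_smul, Real.norm_eq_abs, Real.norm_eq_abs, abs_of_pos ht0]
      have : |u| * ‖fc H1 H2 w‖ ≤ t * w := by gcongr
      linarith
    calc c0 * ‖x‖ ≤ c0 * (t * w + t * ‖fd H1 H2 w‖) := by gcongr
      _ = t * (c0 * (w + ‖fd H1 H2 w‖)) := by ring
      _ ≤ t * (‖fd H1 H2 w‖ - w) := by gcongr
      _ = t * ‖fd H1 H2 w‖ - t * w := by ring
      _ ≤ _ := hx2
  -- disjointness
  have hneg_t : ∀ x : E2, tc w (-x) = -tc w x := fun x => by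
    have := tc_smul w (-1) x
    simpa using this
  have hneg_u : ∀ x : E2, uc H1 H2 w (-x) = -uc H1 H2 w x := fun x => by
    have := uc_smul H1 H2 w (-1) x
    simpa using this
  have hSt : ∀ x ∈ S, |uc H1 H2 w x| < tc w x := fun x hx => hx.2
  have hS'm : MeasurableSet {x : E2 | -x ∈ S} := hSm.preimage measurable_neg
  have hT'm : MeasurableSet {x : E2 | -x ∈ T} := hTm.preimage measurable_neg
  have d1 : Disjoint S T := by
    rw [Set.disjoint_left]
    intro x hx hx'
    have h1 := hSt x hx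
    have h2 := (hTt x hx').2.2
    have h3 := le_abs_self (tc w x)
    have h4 := le_abs_self (uc H1 H2 w x)
    linarith
  have d2 : Disjoint (S ∪ T) {x : E2 | -x ∈ S} := by
    rw [Set.disjoint_left]
    rintro x (hx | hx) hx'
    · have h1 := hSt x hx
      have h2 := hSt _ hx'
      rw [hneg_t] at h2
      have h3 := abs_nonneg (uc H1 H2 w x)
      have h4 := abs_nonneg (uc H1 H2 w (-x))
      linarith
    · have h1 := (hTt x hx).2.2
      have h2 := hSt _ hx'
      rw [hneg_t, hneg_u, abs_neg] at h2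
      have h3 := neg_le_abs (tc w x)
      have h4 := le_abs_self (uc H1 H2 w x)
      linarith
  have d3 : Disjoint ((S ∪ T) ∪ {x : E2 | -x ∈ S}) {x : E2 | -x ∈ T} := by
    rw [Set.disjoint_left]
    rintro x ((hx | hx) | hx) hx'
    · have h1 := hSt x hx
      have h2 := (hTt _ hx').2.2
      rw [hneg_t, hneg_u, abs_neg] at h2
      have h3 := le_abs_self (tc w x)
      have h4 := neg_le_abs (uc H1 H2 w x)
      linarith
    · have h1 := (hTt x hx).1
      have h2 := (hTt _ hx').1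
      rw [hneg_u] at h2
      linarith
    · have h1 := hSt _ hx
      have h2 := (hTt _ hx').2.2
      have h3 := le_abs_self (tc w (-x))
      have h4 := le_abs_self (uc H1 H2 w (-x))
      linarith
  have hsum : In p S + In p T + In p S + In p T ≤ In p K := by
    have e1 := In_neg p S
    have e2 := In_neg p T
    calc In p S + In p T + In p S + In p T
        = In p S + In p T + In p {x : E2 | -x ∈ S} + In p {x : E2 | -x ∈ T} := by rw [e1, e2]
      _ = In p (((S ∪ T) ∪ {x : E2 | -x ∈ S}) ∪ {x : E2 | -x ∈ T}) := by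
          rw [In_union_le hTm d1, In_union_le hS'm d2, In_union_le hT'm d3]
      _ ≤ In p K := by
          refine lintegral_mono_set (union_subset (union_subset (union_subset hSK hTK) ?_) ?_)
          · intro x hx
            have := hex_neg (hSK hx)
            rwa [neg_neg] at this
          · intro x hx
            have := hex_neg (hTK hx)
            rwa [neg_neg] at this
  rw [hDS]
  calc 2 * ((1 + ENNReal.ofReal (c0 ^ p)) * In p S)
      = In p S + ENNReal.ofReal (c0 ^ p) * In p S + In p S + ENNReal.ofReal (c0 ^ p) * In p S := by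
        ring
    _ ≤ In p S + In p T + In p S + In p T := by gcongr
    _ ≤ _ := hsum

end Pool.Agent.H810.Dual
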