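import Pool.Agent.H810.Dual.Slice

/-!
# The cone inequality in the model space and in Euclidean space
-/

set_option autoImplicit false

namespace Pool.Agent.H810.Dual

open MeasureTheory Set
open scoped ENNReal InnerProductSpace

section model

variable {W : Type*} [NormedAddCommGroup W] [InnerProductSpace ℝ W] [FiniteDimensional ℝ W]
  [MeasurableSpace W] [BorelSpace W]

/-- Weight on the slices. -/
noncomputable def wt (p : ℝ) (x : ℝ × W) : ℝ≥0∞ := ENNReal.ofReal (|x.1| ^ p)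

theorem measurable_wt {p : ℝ} (hp : 0 < p) : Measurable (wt (W := W) p) :=
  ((continuous_abs_rpow hp).measurable.comp measurable_fst).ennreal_ofReal

theorem lintegral_comp_inv_smul {F : Type*} [NormedAddCommGroup F] [NormedSpace ℝ F]
    [FiniteDimensional ℝ F] [MeasurableSpace F] [BorelSpace F] (μ : Measure F)
    [μ.IsAddHaarMeasure] {g : F → ℝ≥0∞} (hg : Measurable g) {t : ℝ} (ht : 0 < t) :
    ∫⁻ x, g (t⁻¹ • x) ∂μ = ENNReal.ofReal (t ^ Module.finrank ℝ F) * ∫⁻ x, g x ∂μ := by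
  have h := Measure.map_addHaar_smul μ (inv_ne_zero ht.ne')
  have h2 : ∫⁻ x, g x ∂(Measure.map (t⁻¹ • ·) μ) = ∫⁻ x, g (t⁻¹ • x) ∂μ :=
    lintegral_map hg (measurable_const_smul _)
  rw [← h2, h, lintegral_smul_measure, smul_eq_mul]
  congr 2
  rw [inv_pow, inv_inv, abs_of_pos (by positivity)]

theorem cone_slice {p : ℝ} (hp : 0 < p) {F : Set (ℝ × W)} (hF : MeasurableSet F) {t : ℝ}
    (ht : 0 < t) : ∫⁻ x in {x : ℝ × W | t⁻¹ • x ∈ F}, wt p x =
      ENNReal.ofReal (t ^ ((Module.finrank ℝ (ℝ × W) : ℝ) + p)) * ∫⁻ x in F, wt p x := by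
  have hS : MeasurableSet {x : ℝ × W | t⁻¹ • x ∈ F} :=
    measurableSet_preimage (measurable_const_smul _) hF
  rw [← lintegral_indicator hS, ← lintegral_indicator hF]
  have e : ∀ x : ℝ × W, {x : ℝ × W | t⁻¹ • x ∈ F}.indicator (wt p) x =
      (fun y => ENNReal.ofReal (t ^ p) * F.indicator (wt p) y) (t⁻¹ • x) := by
    intro x
    by_cases h : t⁻¹ • x ∈ F
    · rw [indicator_of_mem (show x ∈ {x : ℝ × W | t⁻¹ • x ∈ F} from h)]
      simp only
      rw [indicator_of_mem h]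
      unfold wt
      rw [← ENNReal.ofReal_mul (by positivity), ← Real.mul_rpow ht.le (abs_nonneg _)]
      congr 2
      simp only [Prod.smul_fst, smul_eq_mul, abs_mul, abs_inv, abs_of_pos ht]
      field_simp
    · rw [indicator_of_notMem (show x ∉ {x : ℝ × W | t⁻¹ • x ∈ F} from h)]
      simp only
      rw [indicator_of_notMem h, mul_zero]
  simp only [e]
  have : (volume : Measure (ℝ × W)).IsAddHaarMeasure :=
    inferInstanceAs ((volume : Measure ℝ).prod (volume : Measure W)).IsAddHaarMeasure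
  have hg : Measurable fun y : ℝ × W => ENNReal.ofReal (t ^ p) * F.indicator (wt p) y :=
    measurable_const.mul ((measurable_wt hp).indicator hF)
  rw [lintegral_comp_inv_smul (volume : Measure (ℝ × W)) hg ht,
    lintegral_const_mul' _ _ ENNReal.ofReal_ne_top, ← mul_assoc,
    ← ENNReal.ofReal_mul (by positivity)]
  congr 3
  rw [Real.rpow_add ht, Real.rpow_natCast]

/-- The cone over the face `{t = 1}`. -/
def coneM (K : Set (ℝ × (ℝ × W))) : Set (ℝ × (ℝ × W)) :=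
  {y | 0 < y.1 ∧ y.1 ≤ 1 ∧ y.1⁻¹ • y ∈ K}

theorem measurableSet_coneM {K : Set (ℝ × (ℝ × W))} (hK : MeasurableSet K) :
    MeasurableSet (coneM K) := by
  have h1 : MeasurableSet {y : ℝ × (ℝ × W) | 0 < y.1} :=
    measurableSet_lt measurable_const measurable_fst
  have h2 : MeasurableSet {y : ℝ × (ℝ × W) | y.1 ≤ 1} :=
    measurableSet_le measurable_fst measurable_const
  have h3 : MeasurableSet {y : ℝ × (ℝ × W) | y.1⁻¹ • y ∈ K} :=
    measurableSet_preimage (by fun_prop) hK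
  exact h1.inter (h2.inter h3)

theorem cone_int {p : ℝ} (hp : 0 < p) {K : Set (ℝ × (ℝ × W))} (hK : MeasurableSet K) :
    ENNReal.ofReal ((Module.finrank ℝ (ℝ × W) : ℝ) + p + 1) * ∫⁻ y in coneM K, wt p y.2 =
      ∫⁻ x in {x : ℝ × W | ((1 : ℝ), x) ∈ K}, wt p x := by
  have hF : MeasurableSet {x : ℝ × W | ((1 : ℝ), x) ∈ K} :=
    measurableSet_preimage (by fun_prop) hK
  have hD := measurableSet_coneM hK
  have hm2 : Measurable ((coneM K).indicator fun y : ℝ × (ℝ × W) => wt p y.2) :=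
    ((measurable_wt hp).comp measurable_snd).indicator hD
  set m : ℝ := (Module.finrank ℝ (ℝ × W) : ℝ) with hm
  have hm0 : 0 ≤ m := by positivity
  have e : ∀ t : ℝ, ∫⁻ x, (coneM K).indicator (fun y : ℝ × (ℝ × W) => wt p y.2) (t, x) =
      (Ioc (0 : ℝ) 1).indicator (fun t => ENNReal.ofReal (t ^ (m + p)) *
        ∫⁻ x in {x : ℝ × W | ((1 : ℝ), x) ∈ K}, wt p x) t := by
    intro t
    by_cases h : t ∈ Ioc (0 : ℝ) 1
    · have hSt : MeasurableSet {x : ℝ × W | t⁻¹ • x ∈ {x : ℝ × W | ((1 : ℝ), x) ∈ K}} :=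
        measurableSet_preimage (measurable_const_smul _) hF
      rw [indicator_of_mem h, ← cone_slice hp hF h.1, ← lintegral_indicator hSt]
      refine lintegral_congr fun x => ?_
      have hiff : (t, x) ∈ coneM K ↔ t⁻¹ • x ∈ {x : ℝ × W | ((1 : ℝ), x) ∈ K} := by
        simp only [coneM, mem_ofPred_eq, Prod.smul_mk, smul_eq_mul, inv_mul_cancel₀ h.1.ne']
        exact ⟨fun g => g.2.2, fun g => ⟨h.1, h.2, g⟩⟩
      by_cases hx : (t, x) ∈ coneM K
      · rw [indicator_of_mem hx,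
          indicator_of_mem (show x ∈ {x : ℝ × W | t⁻¹ • x ∈ {x : ℝ × W | ((1 : ℝ), x) ∈ K}} from
            hiff.1 hx)]
      · rw [indicator_of_notMem hx,
          indicator_of_notMem (show x ∉ {x : ℝ × W | t⁻¹ • x ∈ {x : ℝ × W | ((1 : ℝ), x) ∈ K}}
            from fun g => hx (hiff.2 g))]
    · rw [indicator_of_notMem h]
      rw [← lintegral_zero (μ := (volume : Measure (ℝ × W)))]
      refine lintegral_congr fun x => ?_
      rw [indicator_of_notMem]
      exact fun g => h ⟨g.1, g.2.1⟩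
  rw [← lintegral_indicator hD, Measure.volume_eq_prod, lintegral_prod _ hm2.aemeasurable]
  simp only [e]
  have hpow : Measurable fun t : ℝ => ENNReal.ofReal (t ^ (m + p)) :=
    (measurable_id.pow_const (m + p)).ennreal_ofReal
  rw [lintegral_indicator measurableSet_Ioc, lintegral_mul_const _ hpow, ← mul_assoc]
  · have h1 : ∫⁻ t in Ioc (0 : ℝ) 1, ENNReal.ofReal (t ^ (m + p)) =
        ENNReal.ofReal (1 / (m + p + 1)) := by
      have hi : IntervalIntegrable (fun t : ℝ => t ^ (m + p)) volume 0 1 :=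
        intervalIntegral.intervalIntegrable_rpow' (by linarith)
      rw [← ofReal_integral_eq_lintegral_ofReal, ← intervalIntegral.integral_of_le zero_le_one,
        integral_rpow (Or.inl (by linarith)), Real.one_rpow, Real.zero_rpow (by linarith), sub_zero]
      · exact (intervalIntegrable_iff_integrableOn_Ioc_of_le zero_le_one).1 hi
      · filter_upwards [ae_restrict_mem measurableSet_Ioc] with t ht
        exact Real.rpow_nonneg ht.1.le _
    rw [h1, ← ENNReal.ofReal_mul (by linarith), mul_one_div_cancel (by linarith),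
      ENNReal.ofReal_one, one_mul]

theorem model_ineq {p : ℝ} (hp : 0 < p) {K : Set (ℝ × (ℝ × W))} (hc : Convex ℝ K)
    (hK : IsCompact K) (hs : ∀ x ∈ K, -x ∈ K) (hpos : ∫⁻ y in coneM K, wt p y.2 ≠ 0)
    (hfin : ∫⁻ y in coneM K, wt p y.2 ≠ ∞) :
    ENNReal.ofReal ((Module.finrank ℝ (ℝ × W) : ℝ) + p + 1) * ∫⁻ y in coneM K, wt p y.2 <
      ENNReal.ofReal (p + 1) * ∫⁻ y in {y | y ∈ K ∧ 0 < y.1}, wt p y.2 := by
  have hci := cone_int hp hK.measurableSet
  have hm0 : 0 < (Module.finrank ℝ (ℝ × W) : ℝ) + p + 1 := by positivity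
  have hpos' : ∫⁻ x in {x : ℝ × W | ((1 : ℝ), x) ∈ K}, ENNReal.ofReal (|x.1| ^ p) ≠ 0 := by
    change ∫⁻ x in {x : ℝ × W | ((1 : ℝ), x) ∈ K}, wt p x ≠ 0
    rw [← hci]
    exact mul_ne_zero (ENNReal.ofReal_pos.2 hm0).ne' hpos
  have hfin' : ∫⁻ x in {x : ℝ × W | ((1 : ℝ), x) ∈ K}, ENNReal.ofReal (|x.1| ^ p) ≠ ∞ := by
    change ∫⁻ x in {x : ℝ × W | ((1 : ℝ), x) ∈ K}, wt p x ≠ ∞
    rw [← hci]
    exact ENNReal.mul_ne_top ENNReal.ofReal_ne_top hfin
  rw [hci]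
  refine (slice_ineq hp hc hK hs hpos' hfin').trans_le (mul_le_mul' le_rfl ?_)
  have hS : MeasurableSet {y : ℝ × (ℝ × W) | y ∈ K ∧ 0 < y.1} :=
    hK.measurableSet.inter (measurableSet_lt measurable_const measurable_fst)
  have hm2 : Measurable ({y : ℝ × (ℝ × W) | y ∈ K ∧ 0 < y.1}.indicator
      fun y : ℝ × (ℝ × W) => wt p y.2) :=
    ((measurable_wt hp).comp measurable_snd).indicator hS
  rw [← lintegral_indicator hS, Measure.volume_eq_prod ℝ (ℝ × W), lintegral_prod _ hm2.aemeasurable,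
    ← lintegral_indicator measurableSet_Ioo]
  refine lintegral_mono fun t => ?_
  by_cases h : t ∈ Ioo (0 : ℝ) 1
  · have hSt : MeasurableSet {x : ℝ × W | (t, x) ∈ K} :=
      measurableSet_preimage (by fun_prop) hK.measurableSet
    rw [indicator_of_mem h, ← lintegral_indicator hSt]
    refine lintegral_mono fun x => ?_
    by_cases hx : (t, x) ∈ K
    · rw [indicator_of_mem (show x ∈ {x : ℝ × W | (t, x) ∈ K} from hx),
        indicator_of_mem (show (t, x) ∈ {y : ℝ × (ℝ × W) | y ∈ K ∧ 0 < y.1} from ⟨hx, h.1⟩)]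
      rfl
    · rw [indicator_of_notMem (show x ∉ {x : ℝ × W | (t, x) ∈ K} from hx)]
      exact zero_le
  · rw [indicator_of_notMem h]
    exact zero_le

end model

/-- The cone over the face `{⟨a, x⟩ = 1}` of `K`. -/
def coneE {n : ℕ} (K : Set (EuclideanSpace ℝ (Fin n))) (a : EuclideanSpace ℝ (Fin n)) :
    Set (EuclideanSpace ℝ (Fin n)) :=
  {x | 0 < ⟪a, x⟫_ℝ ∧ ⟪a, x⟫_ℝ ≤ 1 ∧ (⟪a, x⟫_ℝ)⁻¹ • x ∈ K}

/-- The half of `K` in the direction `a`. -/
def halfE {n : ℕ} (K : Set (EuclideanSpace ℝ (Fin n))) (a : EuclideanSpace ℝ (Fin n)) :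
    Set (EuclideanSpace ℝ (Fin n)) :=
  {x | x ∈ K ∧ 0 < ⟪a, x⟫_ℝ}

/-- The pair of functionals `a, θ`. -/
noncomputable def pairMap {n : ℕ} (a θ : EuclideanSpace ℝ (Fin n)) :
    EuclideanSpace ℝ (Fin n) →ₗ[ℝ] ℝ × ℝ :=
  ((innerSL ℝ a : EuclideanSpace ℝ (Fin n) →L[ℝ] ℝ) : EuclideanSpace ℝ (Fin n) →ₗ[ℝ] ℝ).prod
    ((innerSL ℝ θ : EuclideanSpace ℝ (Fin n) →L[ℝ] ℝ) : EuclideanSpace ℝ (Fin n) →ₗ[ℝ] ℝ)

theorem pairMap_apply {n : ℕ} (a θ x : EuclideanSpace ℝ (Fin n)) :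
    pairMap a θ x = (⟪a, x⟫_ℝ, ⟪θ, x⟫_ℝ) := rfl

theorem pairMap_range {n : ℕ} {a θ : EuclideanSpace ℝ (Fin n)} (ha : a ≠ 0)
    (hθ : θ ∉ Submodule.span ℝ {a}) : LinearMap.range (pairMap a θ) = ⊤ := by
  rw [LinearMap.range_eq_top]
  set z := θ - (⟪a, θ⟫_ℝ / ⟪a, a⟫_ℝ) • a with hz
  have haa : ⟪a, a⟫_ℝ ≠ 0 := by simpa using ha
  have hz0 : z ≠ 0 := by
    intro h
    apply hθ
    rw [sub_eq_zero.1 (hz.symm.trans h)]
    exact Submodule.smul_mem _ _ (Submodule.mem_span_singleton_self a)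
  have haz : ⟪a, z⟫_ℝ = 0 := by
    rw [hz, inner_sub_right, inner_smul_right, div_mul_cancel₀ _ haa, sub_self]
  have hθz : ⟪θ, z⟫_ℝ = ⟪z, z⟫_ℝ := by
    have : θ = z + (⟪a, θ⟫_ℝ / ⟪a, a⟫_ℝ) • a := by rw [hz]; abel
    conv_lhs => rw [this]
    rw [inner_add_left, inner_smul_left, haz, mul_zero, add_zero]
  have hzz : ⟪z, z⟫_ℝ ≠ 0 := by simpa using hz0
  rintro ⟨u, v⟩
  refine ⟨(u / ⟪a, a⟫_ℝ) • a + ((v - ⟪θ, (u / ⟪a, a⟫_ℝ) • a⟫_ℝ) / ⟪z, z⟫_ℝ) • z, ?_⟩
  rw [pairMap_apply]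
  ext
  · simp only
    rw [inner_add_right, inner_smul_right, inner_smul_right, haz, mul_zero, add_zero,
      div_mul_cancel₀ _ haa]
  · simp only
    rw [inner_add_right, inner_smul_right _ z, hθz, div_mul_cancel₀ _ hzz]
    ring

theorem dir_ineq {n : ℕ} {p : ℝ} (hp : 0 < p) {K : Set (EuclideanSpace ℝ (Fin n))}
    (hc : Convex ℝ K) (hK : IsCompact K) (hs : ∀ x ∈ K, -x ∈ K)
    {a θ : EuclideanSpace ℝ (Fin n)} (ha : a ≠ 0) (hθ : θ ∉ Submodule.span ℝ {a})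
    (hpos : ∫⁻ x in coneE K a, ENNReal.ofReal (|⟪θ, x⟫_ℝ| ^ p) ≠ 0)
    (hfin : ∫⁻ x in coneE K a, ENNReal.ofReal (|⟪θ, x⟫_ℝ| ^ p) ≠ ∞) :
    ENNReal.ofReal ((n : ℝ) + p) * ∫⁻ x in coneE K a, ENNReal.ofReal (|⟪θ, x⟫_ℝ| ^ p) <
      ENNReal.ofReal (p + 1) * ∫⁻ x in halfE K a, ENNReal.ofReal (|⟪θ, x⟫_ℝ| ^ p) := by
  set N := LinearMap.ker (pairMap a θ) with hN
  obtain ⟨q, hq⟩ := N.exists_isCompl
  have hker : LinearMap.ker (N.projectionOnto q hq) = q := Submodule.ker_projectionOnto hq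
  have hran : LinearMap.range (N.projectionOnto q hq) = ⊤ := Submodule.range_projectionOnto hq
  set L0 := LinearMap.equivProdOfSurjectiveOfIsCompl (pairMap a θ) (N.projectionOnto q hq)
    (pairMap_range ha hθ) hran (by rw [hker]; exact hq) with hL0
  set L1 : EuclideanSpace ℝ (Fin n) ≃ₗ[ℝ] ℝ × (ℝ × N) :=
    L0.trans (LinearEquiv.prodAssoc ℝ ℝ ℝ N) with hL1
  set L := L1.toContinuousLinearEquiv with hL
  have hLa : ∀ x, (L x).1 = ⟪a, x⟫_ℝ := fun x => rfl
  have hLθ : ∀ x, (L x).2.1 = ⟪θ, x⟫_ℝ := fun x => rfl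
  have hLm : Measurable L := L.continuous.measurable
  set K' : Set (ℝ × (ℝ × N)) := L '' K with hK'
  have hc' : Convex ℝ K' := hc.is_linear_image (f := L) ⟨L.map_add, L.map_smul⟩
  have hKc' : IsCompact K' := hK.image L.continuous
  have hs' : ∀ x ∈ K', -x ∈ K' := by
    rintro _ ⟨x, hx, rfl⟩
    exact ⟨-x, hs x hx, map_neg L x⟩
  have : (volume : Measure (ℝ × (ℝ × N))).IsAddHaarMeasure := by
    have h1 : (volume : Measure (ℝ × N)).IsAddHaarMeasure :=
      inferInstanceAs ((volume : Measure ℝ).prod (volume : Measure N)).IsAddHaarMeasure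
    exact inferInstanceAs ((volume : Measure ℝ).prod (volume : Measure (ℝ × N))).IsAddHaarMeasure
  have : (Measure.map L (volume : Measure (EuclideanSpace ℝ (Fin n)))).IsAddHaarMeasure :=
    L.isAddHaarMeasure_map _
  have hμ := Measure.isAddLeftInvariant_eq_smul
    (Measure.map L (volume : Measure (EuclideanSpace ℝ (Fin n))))
    (volume : Measure (ℝ × (ℝ × N)))
  set c := Measure.addHaarScalarFactor
    (Measure.map L (volume : Measure (EuclideanSpace ℝ (Fin n))))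
    (volume : Measure (ℝ × (ℝ × N))) with hcdef
  have hdim : (Module.finrank ℝ (ℝ × N) : ℝ) + 1 = n := by
    have h1 : Module.finrank ℝ (EuclideanSpace ℝ (Fin n)) = Module.finrank ℝ (ℝ × (ℝ × N)) :=
      L1.finrank_eq
    rw [finrank_euclideanSpace_fin, Module.finrank_prod (M := ℝ) (M' := ℝ × N),
      Module.finrank_self] at h1
    have h2 : (n : ℝ) = 1 + (Module.finrank ℝ (ℝ × N) : ℝ) := by exact_mod_cast h1
    linarith
  have tr : ∀ S : Set (ℝ × (ℝ × N)), MeasurableSet S →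
      ∫⁻ x in L ⁻¹' S, ENNReal.ofReal (|⟪θ, x⟫_ℝ| ^ p) = (c : ℝ≥0∞) * ∫⁻ y in S, wt p y.2 := by
    intro S hS
    have h1 : ∫⁻ y in S, wt p y.2 ∂(Measure.map L volume) =
        ∫⁻ x in L ⁻¹' S, wt p (L x).2 :=
      setLIntegral_map hS ((measurable_wt hp).comp measurable_snd) hLm
    have h2 : ∫⁻ y in S, wt p y.2 ∂(Measure.map L volume) =
        (c : ℝ≥0∞) * ∫⁻ y in S, wt p y.2 := by
      rw [hμ, Measure.restrict_smul, lintegral_smul_measure]
      rfl
    rw [← h2, h1]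
    rfl
  have e1 : coneE K a = L ⁻¹' (coneM K') := by
    ext x
    simp only [coneE, coneM, mem_ofPred_eq, mem_preimage, hLa]
    rw [← map_smul L, hK', (L.injective).mem_set_image]
  have e2 : halfE K a = L ⁻¹' {y | y ∈ K' ∧ 0 < y.1} := by
    ext x
    simp only [halfE, mem_ofPred_eq, mem_preimage, hLa]
    rw [hK', (L.injective).mem_set_image]
  have hS2 : MeasurableSet {y : ℝ × (ℝ × N) | y ∈ K' ∧ 0 < y.1} :=
    hKc'.measurableSet.inter (measurableSet_lt measurable_const measurable_fst)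
  rw [e1, tr _ (measurableSet_coneM hKc'.measurableSet)] at hpos hfin
  have hc0 : (c : ℝ≥0∞) ≠ 0 := left_ne_zero_of_mul hpos
  have hm0 := right_ne_zero_of_mul hpos
  have hmf : ∫⁻ y in coneM K', wt p y.2 ≠ ∞ := fun h => hfin (by rw [h, ENNReal.mul_top hc0])
  have hm := model_ineq hp hc' hKc' hs' hm0 hmf
  rw [e1, e2, tr _ (measurableSet_coneM hKc'.measurableSet), tr _ hS2]
  rw [← hdim, show (Module.finrank ℝ (ℝ × N) : ℝ) + 1 + p =
    (Module.finrank ℝ (ℝ × N) : ℝ) + p + 1 by ring]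
  calc _ = (c : ℝ≥0∞) * (ENNReal.ofReal ((Module.finrank ℝ (ℝ × N) : ℝ) + p + 1) *
        ∫⁻ y in coneM K', wt p y.2) := by ring
    _ < (c : ℝ≥0∞) * (ENNReal.ofReal (p + 1) * ∫⁻ y in {y | y ∈ K' ∧ 0 < y.1}, wt p y.2) :=
        (ENNReal.mul_lt_mul_iff_right hc0 ENNReal.coe_ne_top).2 hm
    _ = _ := by ring

end Pool.Agent.H810.Dual
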