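import Mathlib

/-!
# Dual curvature measures of symmetric convex bodies: definitions
-/

set_option autoImplicit false

namespace Pool.Agent.H810.Dual

open MeasureTheory Set Metric
open scoped ENNReal InnerProductSpace

/-- `ℝ^n` with the Euclidean norm. -/
abbrev E (n : ℕ) : Type := EuclideanSpace ℝ (Fin n)

/-- The unit sphere `S^{n-1}` of `ℝ^n`. -/
abbrev Sph (n : ℕ) : Type := sphere (0 : E n) 1

/-- The surface area measure on `S^{n-1}` (`n` times the volume of the cone over a set). -/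
noncomputable abbrev surf (n : ℕ) : Measure (Sph n) := (volume : Measure (E n)).toSphere

/-- An origin-symmetric convex body: compact, convex, nonempty interior, `K = -K`. -/
structure IsSymBody {n : ℕ} (K : Set (E n)) : Prop where
  convex : Convex ℝ K
  compact : IsCompact K
  interior : (interior K).Nonempty
  symm : ∀ x ∈ K, -x ∈ K

/-- The radial function `ϱ_K(u) = max {t ≥ 0 : t u ∈ K}`. -/
noncomputable def radial {n : ℕ} (K : Set (E n)) (u : Sph n) : ℝ :=
  sSup {t : ℝ | 0 ≤ t ∧ t • (u : E n) ∈ K}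

/-- `v` is an exterior unit normal of `K` at `x`. -/
def IsNormal {n : ℕ} (K : Set (E n)) (x : E n) (v : Sph n) : Prop :=
  ∀ y ∈ K, ⟪(v : E n), y⟫_ℝ ≤ ⟪(v : E n), x⟫_ℝ

/-- The inverse radial Gauss image `α*_K(ω)`: the directions `u` such that some `v ∈ ω` is an
exterior unit normal of `K` at `ϱ_K(u) u`. -/
def revGauss {n : ℕ} (K : Set (E n)) (ω : Set (Sph n)) : Set (Sph n) :=
  {u | ∃ v ∈ ω, IsNormal K (radial K u • (u : E n)) v}

/-- `C̃_{K,q}(ω) = (1/n) ∫_{α*_K(ω)} ϱ_K(u)^q dℋ(u)`. -/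
noncomputable def dualCurv {n : ℕ} (q : ℝ) (K : Set (E n)) (ω : Set (Sph n)) : ℝ≥0∞ :=
  (n : ℝ≥0∞)⁻¹ * ∫⁻ u in revGauss K ω, ENNReal.ofReal (radial K u ^ q) ∂(surf n)

/-- The Borel measure `μ` is the `q`-th dual curvature measure of `K`. -/
def IsDualCurv {n : ℕ} (q : ℝ) (K : Set (E n)) (μ : Measure (Sph n)) : Prop :=
  ∀ ω : Set (Sph n), MeasurableSet ω → μ ω = dualCurv q K ω

end Pool.Agent.H810.Dual
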