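import Pool.Agent.H810.Dual.Defs

/-!
# Even measures and the subspace concentration inequalities
-/

set_option autoImplicit false

namespace Pool.Agent.H810.Dual

open MeasureTheory
open scoped ENNReal

/-- `μ` is even: `μ(-ω) = μ(ω)` for all Borel sets `ω` of `S^{n-1}`. -/
def IsEven {n : ℕ} (μ : Measure (Sph n)) : Prop :=
  ∀ ω : Set (Sph n), MeasurableSet ω → μ ((fun u : Sph n => -u) ⁻¹' ω) = μ ω

/-- `L ∩ S^{n-1}`. -/
def cut {n : ℕ} (L : Submodule ℝ (E n)) : Set (Sph n) := {u | (u : E n) ∈ L}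

/-- The inequalities `μ(L ∩ S^{n-1}) < ((q - n + dim L)/q) μ(S^{n-1})` for all proper linear
subspaces `L` of `ℝ^n`. -/
def Concentrated {n : ℕ} (q : ℝ) (μ : Measure (Sph n)) : Prop :=
  ∀ L : Submodule ℝ (E n), L ≠ ⊤ →
    μ (cut L) < ENNReal.ofReal ((q - n + Module.finrank ℝ L) / q) * μ Set.univ

/-- `μ` is the `q`-th dual curvature measure of some origin-symmetric convex body. -/
def IsSymDualCurv {n : ℕ} (q : ℝ) (μ : Measure (Sph n)) : Prop :=
  ∃ K : Set (E n), IsSymBody K ∧ IsDualCurv q K μ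

end Pool.Agent.H810.Dual
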