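import Pool.Agent.H810.Dual.CaseB

/-!
# A measure with all subspace concentration inequalities that is not a dual curvature measure
-/

set_option autoImplicit false

namespace Pool.Agent.H810.Dual

open MeasureTheory Set Metric
open scoped ENNReal InnerProductSpace

/-- The real inequality in the case of bounded elongation. -/
theorem real_corner {p s H X w c0 ic Y : ℝ} (hp : 0 < p) (hH : 0 < H) (hX : 0 ≤ X)
    (hw : 0 < w) (hc0 : c0 < 1) (hYw : w ≤ Y)
    (h1 : 2 * s ≤ (p + 2) * ((2 * H) ^ p * (H * X)))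
    (h2 : (H / 2) ^ p * (Y * X / 64) ≤ ic) (h3 : H * (1 - c0) < 2 * w) :
    (1 - c0) / (128 * 4 ^ p * (p + 2)) * (2 * s) ≤ ic := by
  have e : (2 * H) ^ p = 4 ^ p * (H / 2) ^ p := by
    rw [← Real.mul_rpow (by norm_num) (by positivity)]
    congr 1
    ring
  set y := (H / 2) ^ p with hy
  have hy0 : 0 < y := by positivity
  have h4 : 0 < (4 : ℝ) ^ p := by positivity
  rw [e] at h1
  have hc : 0 < 1 - c0 := by linarith
  calc (1 - c0) / (128 * 4 ^ p * (p + 2)) * (2 * s)
      ≤ (1 - c0) / (128 * 4 ^ p * (p + 2)) * ((p + 2) * (4 ^ p * y * (H * X))) := by gcongr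
    _ = y * X / 128 * (H * (1 - c0)) := by
        field_simp
    _ ≤ y * X / 128 * (2 * w) := by gcongr
    _ = y * (w * X / 64) := by ring
    _ ≤ y * (Y * X / 64) := by gcongr
    _ ≤ ic := h2

theorem real_contra {p M s H1 H2 w d ik ic v0 c0 nf : ℝ} (hp : 0 < p) (hw : 0 < w)
    (hA : 0 < w + H1 - H2) (hB : 0 < w + H2 - H1) (hw12 : w ≤ H1 + H2) (hv0 : 0 ≤ v0)
    (hc0 : 0 ≤ c0) (hc1 : c0 < 1) (hcp : c0 ^ p = 2 / (p + 2)) (hd : 0 ≤ d)
    (hsM : 4 * s + M = 1) (hM : M < (p + 1) / (p + 2)) (hM1 : (p + 2) / (p + 4) < M)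
    (hM2 : (p + 1) / (p + 2) * (1 - (1 - c0) / (256 * 4 ^ p * (p + 2))) < M)
    (ha : (p + 2) * ik ≤ 2) (hb : M ≤ (p + 2) * d)
    (h1 : 2 * s ≤ (p + 2) * ((2 * max H1 H2) ^ p * (H1 * (w + H2 - H1) * v0)))
    (h2 : 2 * s ≤ (p + 2) * ((2 * max H1 H2) ^ p * (H2 * (w + H1 - H2) * v0)))
    (hcor : (max H1 H2 / 2) ^ p * ((w + H1 - H2) * (w + H2 - H1) / 64 * v0) ≤ ic)
    (hcA : (p + 2) * (2 * d) + (p + 1) * (2 * ic) ≤ (p + 1) * ik)
    (hnf : (H1 + H2 - w) / 2 ≤ nf)
    (hcB : c0 * (w + nf) ≤ nf - w → 2 * ((1 + c0 ^ p) * d) ≤ ik) : False := by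
  have hp2 : 0 < p + 2 := by linarith
  have hp4 : 0 < p + 4 := by linarith
  by_cases hcase : c0 * (w + nf) ≤ nf - w
  · have h3 := hcB hcase
    rw [hcp] at h3
    have h4 : (p + 2) * d * (2 * ((p + 4) / (p + 2))) ≤ 2 := by
      have : (p + 2) * d * (2 * ((p + 4) / (p + 2))) = (p + 2) * (2 * ((1 + 2 / (p + 2)) * d)) := by
        field_simp
        ring
      rw [this]
      refine le_trans ?_ ha
      gcongr
    have h5 : M * (2 * ((p + 4) / (p + 2))) ≤ 2 := by
      refine le_trans ?_ h4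
      gcongr
    rw [div_lt_iff₀ hp4] at hM1
    have h6 : M * (2 * ((p + 4) / (p + 2))) = 2 * (M * (p + 4)) / (p + 2) := by
      field_simp
    rw [h6, div_le_iff₀ hp2] at h5
    linarith
  · push Not at hcase
    have hkey : (1 - c0) / (128 * 4 ^ p * (p + 2)) * (2 * s) ≤ ic := by
      rcases le_total H2 H1 with h | h
      · rw [max_eq_left h] at h1 hcor
        have hH1 : 0 < H1 := by linarith
        refine real_corner (Y := w + H1 - H2) (X := (w + H2 - H1) * v0) hp hH1
          (mul_nonneg hB.le hv0) hw hc1 (by linarith) (by rwa [← mul_assoc H1]) (by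
            refine le_trans (le_of_eq ?_) hcor
            ring) ?_
        have g1 : H1 - w < nf := by linarith
        nlinarith
      · rw [max_eq_right h] at h2 hcor
        have hH2 : 0 < H2 := by linarith
        refine real_corner (Y := w + H2 - H1) (X := (w + H1 - H2) * v0) hp hH2
          (mul_nonneg hA.le hv0) hw hc1 (by linarith) (by rwa [← mul_assoc H2]) (by
            refine le_trans (le_of_eq ?_) hcor
            ring) ?_
        have g1 : H2 - w < nf := by linarith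
        nlinarith
    -- the mass `2s` is at least `1/(2(p+2))`
    have hs : 1 / (2 * (p + 2)) ≤ 2 * s := by
      have h3 : 2 * s = (1 - M) / 2 := by linarith
      rw [h3, div_le_div_iff₀ (by positivity) (by norm_num)]
      rw [lt_div_iff₀ hp2] at hM
      nlinarith
    have h4 : 0 < (4 : ℝ) ^ p := by positivity
    have hk0 : 0 ≤ (1 - c0) / (128 * 4 ^ p * (p + 2)) := by
      have : 0 < 1 - c0 := by linarith
      positivity
    have hic : (1 - c0) / (256 * 4 ^ p * (p + 2)) / (p + 2) ≤ ic := by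
      calc (1 - c0) / (256 * 4 ^ p * (p + 2)) / (p + 2)
          = (1 - c0) / (128 * 4 ^ p * (p + 2)) * (1 / (2 * (p + 2))) := by
            field_simp
            ring
        _ ≤ (1 - c0) / (128 * 4 ^ p * (p + 2)) * (2 * s) := by gcongr
        _ ≤ ic := hkey
    have h5 : (p + 1) / (p + 2) * (1 - (1 - c0) / (256 * 4 ^ p * (p + 2))) < (p + 2) * d :=
      hM2.trans_le hb
    have h6 : (p + 2) * d + (p + 1) * ic ≤ (p + 1) / (p + 2) := by
      rw [le_div_iff₀ hp2]
      nlinarith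
    have h7 : (p + 1) / (p + 2) * (1 - (1 - c0) / (256 * 4 ^ p * (p + 2))) =
        (p + 1) / (p + 2) - (p + 1) * ((1 - c0) / (256 * 4 ^ p * (p + 2)) / (p + 2)) := by
      field_simp
    rw [h7] at h5
    have h8 : (p + 1) * ((1 - c0) / (256 * 4 ^ p * (p + 2)) / (p + 2)) ≤ (p + 1) * ic := by
      gcongr
    linarith

end Pool.Agent.H810.Dual
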