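import Pool.Agent.H810.Dual.Hex

/-!
# Planar geometry: parallelograms, cones and the corner triangle
-/

set_option autoImplicit false

namespace Pool.Agent.H810.Dual
open MeasureTheory Set Metric
open scoped ENNReal InnerProductSpace

abbrev E2 : Type := EuclideanSpace ℝ (Fin 2)

/-- The linear map `y ↦ y₀ p + y₁ q`. -/
noncomputable def lin2 (p q : E2) : E2 →ₗ[ℝ] E2 where
  toFun y := y 0 • p + y 1 • q
  map_add' x y := by
    simp only [PiLp.add_apply, add_smul]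
    abel
  map_smul' c x := by
    simp only [PiLp.smul_apply, smul_eq_mul, mul_smul, RingHom.id_apply, smul_add]

theorem lin2_apply (p q y : E2) : lin2 p q y = y 0 • p + y 1 • q := rfl

theorem lin2_det (p q : E2) : LinearMap.det (lin2 p q) = p 0 * q 1 - p 1 * q 0 := by
  rw [← LinearMap.det_toMatrix (EuclideanSpace.basisFun (Fin 2) ℝ).toBasis, Matrix.det_fin_two]
  simp only [LinearMap.toMatrix_apply, OrthonormalBasis.coe_toBasis,
    OrthonormalBasis.coe_toBasis_repr_apply, EuclideanSpace.basisFun_apply,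
    EuclideanSpace.basisFun_repr, lin2_apply]
  simp
  ring

/-- The unit box. -/
def box : Set E2 := {y | 0 ≤ y 0 ∧ y 0 ≤ 1 ∧ 0 ≤ y 1 ∧ y 1 ≤ 1}

theorem box_pos : 0 < volume box := by
  have h : IsOpen {y : E2 | 0 < y 0 ∧ y 0 < 1 ∧ 0 < y 1 ∧ y 1 < 1} := by
    have h1 : IsOpen {y : E2 | 0 < y 0} := isOpen_lt continuous_const (by fun_prop)
    have h2 : IsOpen {y : E2 | y 0 < 1} := isOpen_lt (by fun_prop) continuous_const
    have h3 : IsOpen {y : E2 | 0 < y 1} := isOpen_lt continuous_const (by fun_prop)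
    have h4 : IsOpen {y : E2 | y 1 < 1} := isOpen_lt (by fun_prop) continuous_const
    exact h1.inter (h2.inter (h3.inter h4))
  have hne : {y : E2 | 0 < y 0 ∧ y 0 < 1 ∧ 0 < y 1 ∧ y 1 < 1}.Nonempty :=
    ⟨!₂[1 / 2, 1 / 2], by norm_num⟩
  refine (h.measure_pos volume hne).trans_le (measure_mono ?_)
  rintro y ⟨h1, h2, h3, h4⟩
  exact ⟨h1.le, h2.le, h3.le, h4.le⟩

theorem norm_le_sum (y : E2) : ‖y‖ ≤ |y 0| + |y 1| := by
  rw [EuclideanSpace.norm_eq, Fin.sum_univ_two]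
  apply Real.sqrt_le_iff.2
  refine ⟨by positivity, ?_⟩
  simp only [Real.norm_eq_abs]
  nlinarith [abs_nonneg (y 0), abs_nonneg (y 1)]

theorem box_lt_top : volume box < ∞ := by
  refine (measure_mono (t := closedBall (0 : E2) 2) ?_).trans_lt measure_closedBall_lt_top
  rintro y ⟨h1, h2, h3, h4⟩
  rw [mem_closedBall_zero_iff]
  refine (norm_le_sum y).trans ?_
  rw [abs_of_nonneg h1, abs_of_nonneg h3]
  linarith

theorem par_vol (p q : E2) : volume (lin2 p q '' box) =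
    ENNReal.ofReal |p 0 * q 1 - p 1 * q 0| * volume box := by
  rw [Measure.addHaar_image_linearMap, lin2_det]

/-- The integral of `‖x‖^p` over a set. -/
noncomputable def In (p : ℝ) (S : Set E2) : ℝ≥0∞ := ∫⁻ x in S, ENNReal.ofReal (‖x‖ ^ p)

theorem int_le_vol {p : ℝ} (hp : 0 < p) {S : Set E2} {R : ℝ} (hR : ∀ x ∈ S, ‖x‖ ≤ R) :
    In p S ≤ ENNReal.ofReal (R ^ p) * volume S := by
  unfold In
  rw [← setLIntegral_const]
  exact setLIntegral_mono measurable_const fun x hx =>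
    ENNReal.ofReal_le_ofReal (Real.rpow_le_rpow (norm_nonneg _) (hR x hx) hp.le)

theorem vol_le_int {p : ℝ} (hp : 0 < p) {S : Set E2} {r : ℝ} (hr0 : 0 ≤ r)
    (hr : ∀ x ∈ S, r ≤ ‖x‖) : ENNReal.ofReal (r ^ p) * volume S ≤ In p S := by
  unfold In
  rw [← setLIntegral_const]
  exact setLIntegral_mono norm_meas fun x hx =>
    ENNReal.ofReal_le_ofReal (Real.rpow_le_rpow hr0 (hr x hx) hp.le)

theorem abs_le_norm (x : E2) (i : Fin 2) : |x i| ≤ ‖x‖ := by
  have := PiLp.norm_apply_le x i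
  simpa using this

/-- The hexagon. -/
def hex (H1 H2 w : ℝ) : Set E2 := {x | |x 0| ≤ H1 ∧ |x 1| ≤ H2 ∧ |x 0 - x 1| ≤ w}

theorem hex_norm {H1 H2 w : ℝ} {x : E2} (hx : x ∈ hex H1 H2 w) : ‖x‖ ≤ 2 * max H1 H2 := by
  refine (norm_le_sum x).trans ?_
  have h1 := hx.1.trans (le_max_left H1 H2)
  have h2 := hx.2.1.trans (le_max_right H1 H2)
  linarith

theorem hex_neg {H1 H2 w : ℝ} {x : E2} (hx : x ∈ hex H1 H2 w) : -x ∈ hex H1 H2 w := by
  obtain ⟨h1, h2, h3⟩ := hx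
  refine ⟨?_, ?_, ?_⟩
  · simpa using h1
  · simpa using h2
  · rw [PiLp.neg_apply, PiLp.neg_apply, neg_sub_neg, abs_sub_comm]
    exact h3

/-- Volume bound for the cone over the facet `x₀ = H₁`. -/
theorem cone1_le {p : ℝ} (hp : 0 < p) {H1 H2 w : ℝ} (h1 : 0 < H1) (C : Set E2)
    (hC : ∀ x ∈ C, x ∈ hex H1 H2 w ∧ 0 < x 0 ∧ x 0 ≤ H1 ∧ (H1 / x 0) • x ∈ hex H1 H2 w) :
    In p C ≤ ENNReal.ofReal ((2 * max H1 H2) ^ p) *
      (ENNReal.ofReal (H1 * max (w + H2 - H1) 0) * volume box) := by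
  refine (int_le_vol hp fun x hx => hex_norm (hC x hx).1).trans (mul_le_mul' le_rfl ?_)
  set B := max (w + H2 - H1) 0 with hB
  have hB0 : 0 ≤ B := le_max_right _ _
  have hv := par_vol !₂[H1, H1 - w] !₂[0, B]
  have e : |(!₂[H1, H1 - w] : E2) 0 * (!₂[0, B] : E2) 1 -
      (!₂[H1, H1 - w] : E2) 1 * (!₂[0, B] : E2) 0| = H1 * B := by
    simp only [Matrix.cons_val_zero, Matrix.cons_val_one, mul_zero, sub_zero]
    exact abs_of_nonneg (by positivity)
  rw [e] at hv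
  rw [← hv]
  apply measure_mono
  intro x hx
  obtain ⟨-, hx0, hx1, hy⟩ := hC x hx
  have hy1 := abs_le.1 hy.2.1
  have hy2 := abs_le.1 hy.2.2
  simp only [PiLp.smul_apply, smul_eq_mul, div_mul_cancel₀ _ hx0.ne'] at hy1 hy2
  set s := x 0 / H1 with hs
  have hs0 : 0 < s := by positivity
  have hs1 : s ≤ 1 := (div_le_one h1).2 hx1
  have hxs : x 0 = s * H1 := by rw [hs, div_mul_cancel₀ _ h1.ne']
  have hinv : H1 / x 0 = s⁻¹ := by rw [hs, inv_div]
  rw [hinv] at hy1 hy2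
  set y1 := s⁻¹ * x 1 with hy1def
  have hx1' : x 1 = s * y1 := by rw [hy1def, ← mul_assoc, mul_inv_cancel₀ hs0.ne', one_mul]
  have hBy : y1 - (H1 - w) ≤ B := le_trans (by linarith [hy1.2]) (le_max_left _ _)
  have hBy0 : 0 ≤ y1 - (H1 - w) := by linarith [hy2.2]
  by_cases hB1 : B = 0
  · have hy10 : y1 = H1 - w := by linarith
    refine ⟨!₂[s, 0], ⟨?_, ?_, ?_, ?_⟩, ?_⟩
    · simpa using hs0.le
    · simpa using hs1
    · simp
    · simp
    · rw [lin2_apply]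
      ext i
      fin_cases i
      · simp [hxs]
      · simp [hx1', hy10]
  · have hBp : 0 < B := lt_of_le_of_ne hB0 (Ne.symm hB1)
    refine ⟨!₂[s, s * ((y1 - (H1 - w)) / B)], ⟨?_, ?_, ?_, ?_⟩, ?_⟩
    · simpa using hs0.le
    · simpa using hs1
    · change 0 ≤ s * ((y1 - (H1 - w)) / B)
      exact mul_nonneg hs0.le (div_nonneg hBy0 hBp.le)
    · change s * ((y1 - (H1 - w)) / B) ≤ 1
      have : (y1 - (H1 - w)) / B ≤ 1 := (div_le_one hBp).2 hBy
      have h0 : 0 ≤ (y1 - (H1 - w)) / B := div_nonneg hBy0 hBp.le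
      nlinarith
    · rw [lin2_apply]
      ext i
      fin_cases i
      · simp [hxs]
      · have hfin : s * (H1 - w) + s * ((y1 - (H1 - w)) / B) * B = x 1 := by
          rw [hx1']
          field_simp
          ring
        simpa using hfin

/-- Volume bound for the cone over the facet `x₁ = H₂`. -/
theorem cone2_le {p : ℝ} (hp : 0 < p) {H1 H2 w : ℝ} (h2 : 0 < H2) (C : Set E2)
    (hC : ∀ x ∈ C, x ∈ hex H1 H2 w ∧ 0 < x 1 ∧ x 1 ≤ H2 ∧ (H2 / x 1) • x ∈ hex H1 H2 w) :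
    In p C ≤ ENNReal.ofReal ((2 * max H1 H2) ^ p) *
      (ENNReal.ofReal (H2 * max (w + H1 - H2) 0) * volume box) := by
  refine (int_le_vol hp fun x hx => hex_norm (hC x hx).1).trans (mul_le_mul' le_rfl ?_)
  set A := max (w + H1 - H2) 0 with hA
  have hA0 : 0 ≤ A := le_max_right _ _
  have hv := par_vol !₂[H2 - w, H2] !₂[A, 0]
  have e : |(!₂[H2 - w, H2] : E2) 0 * (!₂[A, 0] : E2) 1 -
      (!₂[H2 - w, H2] : E2) 1 * (!₂[A, 0] : E2) 0| = H2 * A := by
    simp only [Matrix.cons_val_zero, Matrix.cons_val_one, mul_zero, zero_sub, abs_neg]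
    exact abs_of_nonneg (by positivity)
  rw [e] at hv
  rw [← hv]
  apply measure_mono
  intro x hx
  obtain ⟨-, hx0, hx1, hy⟩ := hC x hx
  have hy1 := abs_le.1 hy.1
  have hy2 := abs_le.1 hy.2.2
  simp only [PiLp.smul_apply, smul_eq_mul, div_mul_cancel₀ _ hx0.ne'] at hy1 hy2
  set s := x 1 / H2 with hs
  have hs0 : 0 < s := by positivity
  have hs1 : s ≤ 1 := (div_le_one h2).2 hx1
  have hxs : x 1 = s * H2 := by rw [hs, div_mul_cancel₀ _ h2.ne']
  have hinv : H2 / x 1 = s⁻¹ := by rw [hs, inv_div]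
  rw [hinv] at hy1 hy2
  set y0 := s⁻¹ * x 0 with hy0def
  have hx0' : x 0 = s * y0 := by rw [hy0def, ← mul_assoc, mul_inv_cancel₀ hs0.ne', one_mul]
  have hAy : y0 - (H2 - w) ≤ A := le_trans (by linarith [hy1.2]) (le_max_left _ _)
  have hAy0 : 0 ≤ y0 - (H2 - w) := by linarith [hy2.1]
  by_cases hA1 : A = 0
  · have hy00 : y0 = H2 - w := by linarith
    refine ⟨!₂[s, 0], ⟨?_, ?_, ?_, ?_⟩, ?_⟩
    · simpa using hs0.le
    · simpa using hs1
    · simp
    · simp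
    · rw [lin2_apply]
      ext i
      fin_cases i
      · simp [hx0', hy00]
      · simp [hxs]
  · have hAp : 0 < A := lt_of_le_of_ne hA0 (Ne.symm hA1)
    refine ⟨!₂[s, s * ((y0 - (H2 - w)) / A)], ⟨?_, ?_, ?_, ?_⟩, ?_⟩
    · simpa using hs0.le
    · simpa using hs1
    · change 0 ≤ s * ((y0 - (H2 - w)) / A)
      exact mul_nonneg hs0.le (div_nonneg hAy0 hAp.le)
    · change s * ((y0 - (H2 - w)) / A) ≤ 1
      have : (y0 - (H2 - w)) / A ≤ 1 := (div_le_one hAp).2 hAy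
      have h0 : 0 ≤ (y0 - (H2 - w)) / A := div_nonneg hAy0 hAp.le
      nlinarith
    · rw [lin2_apply]
      ext i
      fin_cases i
      · have hfin : s * (H2 - w) + s * ((y0 - (H2 - w)) / A) * A = x 0 := by
          rw [hx0']
          field_simp
          ring
        simpa using hfin
      · simp [hxs]

/-- The corner piece `{(H₁ - s, H₂ - t) : 0 ≤ s ≤ A/8, 0 ≤ t ≤ B/8}`. -/
def corner (H1 H2 w : ℝ) : Set E2 :=
  {x | H1 - (w + H1 - H2) / 8 ≤ x 0 ∧ x 0 ≤ H1 ∧ H2 - (w + H2 - H1) / 8 ≤ x 1 ∧ x 1 ≤ H2}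

theorem corner_vol {H1 H2 w : ℝ} (hA : 0 < w + H1 - H2) (hB : 0 < w + H2 - H1) :
    ENNReal.ofReal ((w + H1 - H2) * (w + H2 - H1) / 64) * volume box ≤
      volume (corner H1 H2 w) := by
  have hv := par_vol !₂[-((w + H1 - H2) / 8), 0] !₂[0, -((w + H2 - H1) / 8)]
  have e : |(!₂[-((w + H1 - H2) / 8), 0] : E2) 0 * (!₂[0, -((w + H2 - H1) / 8)] : E2) 1 -
      (!₂[-((w + H1 - H2) / 8), 0] : E2) 1 * (!₂[0, -((w + H2 - H1) / 8)] : E2) 0| =
      (w + H1 - H2) * (w + H2 - H1) / 64 := by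
    simp only [Matrix.cons_val_zero, Matrix.cons_val_one, mul_zero, sub_zero, neg_mul_neg]
    rw [abs_of_nonneg (by positivity)]
    ring
  rw [e] at hv
  rw [← hv, ← measure_preimage_add volume (!₂[H1, H2] : E2) (corner H1 H2 w)]
  apply measure_mono
  rintro _ ⟨y, ⟨hy0, hy1, hy2, hy3⟩, rfl⟩
  have e0 : ((!₂[H1, H2] : E2) + lin2 !₂[-((w + H1 - H2) / 8), 0] !₂[0, -((w + H2 - H1) / 8)] y) 0
      = H1 - y 0 * ((w + H1 - H2) / 8) := by
    rw [lin2_apply]
    simp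
    ring
  have e1 : ((!₂[H1, H2] : E2) + lin2 !₂[-((w + H1 - H2) / 8), 0] !₂[0, -((w + H2 - H1) / 8)] y) 1
      = H2 - y 1 * ((w + H2 - H1) / 8) := by
    rw [lin2_apply]
    simp
    ring
  refine ⟨?_, ?_, ?_, ?_⟩
  · rw [e0]; nlinarith
  · rw [e0]; nlinarith
  · rw [e1]; nlinarith
  · rw [e1]; nlinarith

theorem corner_int {p : ℝ} (hp : 0 < p) {H1 H2 w : ℝ} (hA : 0 < w + H1 - H2)
    (hB : 0 < w + H2 - H1) (hw : w ≤ H1 + H2) :
    ENNReal.ofReal ((max H1 H2 / 2) ^ p) *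
      (ENNReal.ofReal ((w + H1 - H2) * (w + H2 - H1) / 64) * volume box) ≤
      In p (corner H1 H2 w) := by
  have hm : 0 ≤ max H1 H2 / 2 := by
    have h1 := le_max_left H1 H2
    have h2 := le_max_right H1 H2
    have : 0 < H1 + H2 := by linarith
    linarith
  refine (mul_le_mul' le_rfl (corner_vol hA hB)).trans (vol_le_int hp hm ?_)
  rintro x ⟨h1, h2, h3, h4⟩
  rcases le_total H1 H2 with h | h
  · rw [max_eq_right h]
    refine le_trans ?_ ((le_abs_self _).trans (abs_le_norm x 1))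
    linarith
  · rw [max_eq_left h]
    refine le_trans ?_ ((le_abs_self _).trans (abs_le_norm x 0))
    linarith

theorem corner_sub {H1 H2 w : ℝ} (hA : 0 < w + H1 - H2)
    (hB : 0 < w + H2 - H1) (hw : w ≤ H1 + H2) : corner H1 H2 w ⊆ hex H1 H2 w := by
  rintro x ⟨h1, h2, h3, h4⟩
  refine ⟨abs_le.2 ⟨by linarith, h2⟩, abs_le.2 ⟨by linarith, h4⟩, abs_le.2 ⟨by linarith, ?_⟩⟩
  linarith

/-- The central part of the hexagon (the parallelogram spanned by the third facets). -/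
def cpart (H1 H2 w : ℝ) : Set E2 :=
  {x | x ∈ hex H1 H2 w ∧ |(w + H2 - H1) * x 0 + (w + H1 - H2) * x 1| ≤ w * (H1 + H2 - w)}

theorem continuous_coord (i : Fin 2) : Continuous fun x : E2 => x i := by fun_prop

theorem isClosed_hex (H1 H2 w : ℝ) : IsClosed (hex H1 H2 w) := by
  have c0 := continuous_coord 0
  have c1 := continuous_coord 1
  exact (isClosed_le c0.abs continuous_const).inter ((isClosed_le c1.abs continuous_const).inter
    (isClosed_le (c0.sub c1).abs continuous_const))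

theorem isCompact_hex (H1 H2 w : ℝ) : IsCompact (hex H1 H2 w) := by
  refine (isCompact_closedBall (0 : E2) (2 * max H1 H2)).of_isClosed_subset (isClosed_hex _ _ _) ?_
  intro x hx
  rw [mem_closedBall_zero_iff]
  exact hex_norm hx

theorem abs_combo {a b s t c : ℝ} (ha : 0 ≤ a) (hb : 0 ≤ b) (hab : a + b = 1) (hs : |s| ≤ c)
    (ht : |t| ≤ c) : |a * s + b * t| ≤ c := by
  have h1 := abs_le.1 hs
  have h2 := abs_le.1 ht
  rw [abs_le]
  constructor
  · nlinarith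
  · nlinarith

theorem convex_hex (H1 H2 w : ℝ) : Convex ℝ (hex H1 H2 w) := by
  intro x hx y hy a b ha hb hab
  refine ⟨?_, ?_, ?_⟩
  · simpa using abs_combo ha hb hab hx.1 hy.1
  · simpa using abs_combo ha hb hab hx.2.1 hy.2.1
  · have := abs_combo ha hb hab hx.2.2 hy.2.2
    simp only [PiLp.add_apply, PiLp.smul_apply, smul_eq_mul]
    rwa [show a * x 0 + b * y 0 - (a * x 1 + b * y 1) = a * (x 0 - x 1) + b * (y 0 - y 1) by ring]

theorem convex_cpart (H1 H2 w : ℝ) : Convex ℝ (cpart H1 H2 w) := by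
  intro x hx y hy a b ha hb hab
  refine ⟨convex_hex _ _ _ hx.1 hy.1 ha hb hab, ?_⟩
  have := abs_combo ha hb hab hx.2 hy.2
  simp only [PiLp.add_apply, PiLp.smul_apply, smul_eq_mul]
  rwa [show (w + H2 - H1) * (a * x 0 + b * y 0) + (w + H1 - H2) * (a * x 1 + b * y 1) =
    a * ((w + H2 - H1) * x 0 + (w + H1 - H2) * x 1) +
    b * ((w + H2 - H1) * y 0 + (w + H1 - H2) * y 1) by ring]

theorem isCompact_cpart (H1 H2 w : ℝ) : IsCompact (cpart H1 H2 w) := by
  refine (isCompact_hex H1 H2 w).inter_right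
    (t := {x : E2 | |(w + H2 - H1) * x 0 + (w + H1 - H2) * x 1| ≤ w * (H1 + H2 - w)}) ?_
  have c0 := continuous_coord 0
  have c1 := continuous_coord 1
  exact isClosed_le ((continuous_const.mul c0).add (continuous_const.mul c1)).abs continuous_const

theorem cpart_neg {H1 H2 w : ℝ} {x : E2} (hx : x ∈ cpart H1 H2 w) : -x ∈ cpart H1 H2 w := by
  refine ⟨hex_neg hx.1, ?_⟩
  simp only [PiLp.neg_apply]
  rw [show (w + H2 - H1) * -x 0 + (w + H1 - H2) * -x 1 =
    -((w + H2 - H1) * x 0 + (w + H1 - H2) * x 1) by ring, abs_neg]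
  exact hx.2

end Pool.Agent.H810.Dual
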