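import Pool.Agent.H810.Dual.Main

/-!
# Planar bodies whose dual curvature measure lives on three pairs of directions
-/

set_option autoImplicit false

namespace Pool.Agent.H810.Dual

open MeasureTheory Set Metric
open scoped ENNReal InnerProductSpace

theorem coneE_neg_int {n : ℕ} {p : ℝ} {K : Set (E n)} (hs : ∀ x ∈ K, -x ∈ K) (a : E n) :
    ∫⁻ x in coneE K (-a), ENNReal.ofReal (‖x‖ ^ p) =
      ∫⁻ x in coneE K a, ENNReal.ofReal (‖x‖ ^ p) := by
  have hmp : MeasurePreserving (fun x : E n => -x) volume volume :=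
    Measure.measurePreserving_neg _
  have hemb : MeasurableEmbedding (fun x : E n => -x) := (MeasurableEquiv.neg (E n)).measurableEmbedding
  have h := hmp.setLIntegral_comp_preimage_emb hemb
    (fun x => ENNReal.ofReal (‖x‖ ^ p)) (coneE K (-a))
  have hpre : (fun x : E n => -x) ⁻¹' coneE K (-a) = coneE K a := by
    ext x
    simp only [coneE, mem_preimage, mem_ofPred_eq, inner_neg_left, inner_neg_right, neg_neg,
      smul_neg]
    constructor
    · rintro ⟨h1, h2, h3⟩
      exact ⟨h1, h2, by simpa using hs _ h3⟩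
    · rintro ⟨h1, h2, h3⟩
      exact ⟨h1, h2, hs _ h3⟩
  rw [hpre] at h
  rw [← h]
  simp only [norm_neg]

theorem face_cone1 {m : ℕ} {K : Set (E (m + 1))} {p : ℝ} (hp : 0 < p)
    (hK : IsSymBody K) (v : Sph (m + 1)) {h : ℝ} (hh : 0 < h)
    (hle : ∀ y ∈ K, ⟪(v : E (m + 1)), y⟫_ℝ ≤ h)
    (hex : ∃ y ∈ K, ⟪(v : E (m + 1)), y⟫_ℝ = h) :
    ∫⁻ u in {u : Sph (m + 1) | IsNormal K (radial K u • (u : E (m + 1))) v},
      ENNReal.ofReal (radial K u ^ ((m : ℝ) + 1 + p)) ∂(surf (m + 1)) ≤
      ENNReal.ofReal ((m : ℝ) + 1 + p) * ∫⁻ x in coneE K (h⁻¹ • (v : E (m + 1))),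
        ENNReal.ofReal (‖x‖ ^ p) := by
  obtain ⟨y0, hy0, hy0h⟩ := hex
  set T : Set (Sph (m + 1)) := {u | h ≤ radial K u * ⟪(v : E (m + 1)), (u : E (m + 1))⟫_ℝ}
    with hT
  have hin : Measurable fun u : Sph (m + 1) => ⟪(v : E (m + 1)), (u : E (m + 1))⟫_ℝ :=
    ((innerSL ℝ (v : E (m + 1))).continuous.comp continuous_subtype_val).measurable
  have hTm : MeasurableSet T :=
    measurableSet_le measurable_const ((measurable_radial hK).mul hin)
  have hsub : {u : Sph (m + 1) | IsNormal K (radial K u • (u : E (m + 1))) v} ⊆ T := by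
    intro u hu
    have h1 := hu y0 hy0
    rw [hy0h, inner_smul_right] at h1
    exact h1
  set a : E (m + 1) := h⁻¹ • (v : E (m + 1)) with ha
  have hax : ∀ x, ⟪a, x⟫_ℝ = h⁻¹ * ⟪(v : E (m + 1)), x⟫_ℝ := fun x => by
    rw [ha, inner_smul_left]; rfl
  have hcone : ∀ u ∈ T, ∀ t : ℝ, 0 < t → t ≤ radial K u → t • (u : E (m + 1)) ∈ coneE K a := by
    intro u hu t ht htr
    have h1 : radial K u * ⟪(v : E (m + 1)), (u : E (m + 1))⟫_ℝ = h := by
      apply le_antisymm _ hu
      have := hle _ (radial_mem hK u)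
      rwa [inner_smul_right] at this
    have hr := radial_pos hK u
    have h2 : ⟪a, t • (u : E (m + 1))⟫_ℝ = t / radial K u := by
      rw [hax, inner_smul_right]
      have : ⟪(v : E (m + 1)), (u : E (m + 1))⟫_ℝ = h / radial K u := by
        rw [eq_div_iff hr.ne', mul_comm]; exact h1
      rw [this]
      field_simp
    refine ⟨?_, ?_, ?_⟩
    · rw [h2]; positivity
    · rw [h2, div_le_one hr]; exact htr
    · rw [h2, smul_smul, inv_div, div_mul_cancel₀ _ ht.ne']
      exact radial_mem hK u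
  exact (lintegral_mono_set hsub).trans (polar_le hp hTm (fun w => radial_nonneg (K := K) w)
    (measurableSet_coneE hK.compact.measurableSet a) hcone)

theorem face_cone {m : ℕ} {K : Set (E (m + 1))} {p : ℝ} (hp : 0 < p)
    (hK : IsSymBody K) (v : Sph (m + 1)) {h : ℝ} (hh : 0 < h)
    (hle : ∀ y ∈ K, ⟪(v : E (m + 1)), y⟫_ℝ ≤ h)
    (hex : ∃ y ∈ K, ⟪(v : E (m + 1)), y⟫_ℝ = h) :
    ∫⁻ u in revGauss K {v, -v}, ENNReal.ofReal (radial K u ^ ((m : ℝ) + 1 + p)) ∂(surf (m + 1)) ≤
      2 * (ENNReal.ofReal ((m : ℝ) + 1 + p) * ∫⁻ x in coneE K (h⁻¹ • (v : E (m + 1))),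
        ENNReal.ofReal (‖x‖ ^ p)) := by
  have h1 := face_cone1 hp hK v hh hle hex
  have h2 := face_cone1 hp hK (-v) hh (fun y hy => by
    have := hle (-y) (hK.symm y hy)
    rw [inner_neg_right] at this
    rw [show ((-v : Sph (m + 1)) : E (m + 1)) = -(v : E (m + 1)) from rfl, inner_neg_left]
    exact this) (by
    obtain ⟨y, hy, hyh⟩ := hex
    refine ⟨-y, hK.symm y hy, ?_⟩
    rw [show ((-v : Sph (m + 1)) : E (m + 1)) = -(v : E (m + 1)) from rfl, inner_neg_left,
      inner_neg_right, neg_neg]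
    exact hyh)
  rw [show h⁻¹ • ((-v : Sph (m + 1)) : E (m + 1)) = -(h⁻¹ • (v : E (m + 1))) from by
    rw [← smul_neg]; rfl, coneE_neg_int hK.symm] at h2
  have hsub : revGauss K {v, -v} ⊆
      {u : Sph (m + 1) | IsNormal K (radial K u • (u : E (m + 1))) v} ∪
      {u : Sph (m + 1) | IsNormal K (radial K u • (u : E (m + 1))) (-v)} := by
    rintro u ⟨w, hw, hn⟩
    rcases hw with rfl | hw
    · exact Or.inl hn
    · rw [mem_singleton_iff] at hw
      subst hw
      exact Or.inr hn
  refine (lintegral_mono_set hsub).trans ((lintegral_union_le _ _ _).trans ?_)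
  rw [two_mul]
  exact add_le_add h1 h2

theorem isClosed_normal {n : ℕ} {K : Set (E n)} (hK : IsSymBody K) (v : Sph n) :
    IsClosed {u : Sph n | IsNormal K (radial K u • (u : E n)) v} := by
  obtain ⟨h, hh, hle, -⟩ := exists_support hK v
  obtain ⟨h, hh, hle, y0, hy0, hy0h⟩ := exists_support hK v
  set F : Set (E n) := {x | x ∈ K ∧ ⟪(v : E n), x⟫_ℝ = h} with hF
  have hFc : IsCompact F := by
    refine hK.compact.inter_right (t := {x | ⟪(v : E n), x⟫_ℝ = h}) ?_
    exact isClosed_eq (innerSL ℝ (v : E n)).continuous continuous_const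
  have hF0 : ∀ x ∈ F, x ≠ 0 := by
    rintro x ⟨-, hx⟩ rfl
    rw [inner_zero_right] at hx
    exact hh.ne hx
  have hcont : ContinuousOn (fun x : E n => ‖x‖⁻¹ • x) F :=
    (continuous_norm.continuousOn.inv₀ fun x hx => norm_ne_zero_iff.2 (hF0 x hx)).smul
      continuousOn_id
  have him := (hFc.image_of_continuousOn hcont).isClosed
  have heq : {u : Sph n | IsNormal K (radial K u • (u : E n)) v} =
      Subtype.val ⁻¹' ((fun x : E n => ‖x‖⁻¹ • x) '' F) := by
    ext u
    simp only [mem_ofPred_eq, mem_preimage]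
    constructor
    · intro hu
      have hr := radial_pos hK u
      refine ⟨radial K u • (u : E n), ⟨radial_mem hK u, ?_⟩, ?_⟩
      · apply le_antisymm (hle _ (radial_mem hK u))
        rw [← hy0h]
        exact hu y0 hy0
      · simp only
        rw [norm_smul, norm_eq_of_mem_sphere, mul_one, Real.norm_eq_abs, abs_of_pos hr, smul_smul,
          inv_mul_cancel₀ hr.ne', one_smul]
    · rintro ⟨x, ⟨hxK, hxh⟩, hxu⟩
      simp only at hxu
      have hx0 := hF0 x ⟨hxK, hxh⟩
      have hxn : 0 < ‖x‖ := norm_pos_iff.2 hx0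
      have hx : x = ‖x‖ • (u : E n) := by
        rw [← hxu, smul_smul, mul_inv_cancel₀ hxn.ne', one_smul]
      have h1 : ‖x‖ ≤ radial K u := le_radial hK.compact hxn.le (by rw [← hx]; exact hxK)
      have h2 : ‖x‖ * ⟪(v : E n), (u : E n)⟫_ℝ = h := by
        rw [← inner_smul_right, ← hx]; exact hxh
      have h3 : 0 < ⟪(v : E n), (u : E n)⟫_ℝ := by
        by_contra hcon
        push Not at hcon
        have := mul_nonpos_of_nonneg_of_nonpos hxn.le hcon
        linarith
      intro y hy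
      refine (hle y hy).trans ?_
      rw [inner_smul_right, ← h2]
      exact mul_le_mul_of_nonneg_right h1 h3.le
  rw [heq]
  exact him.preimage continuous_subtype_val

/-- If the dual curvature measure vanishes off a finite set `ω`, then every direction has a normal
in `ω`. -/
theorem radial_all {n : ℕ} {K : Set (E (n + 1))} {q : ℝ} (hK : IsSymBody K)
    (ω : Finset (Sph (n + 1))) (h0 : ∫⁻ u in revGauss K ((ω : Set (Sph (n + 1)))ᶜ),
      ENNReal.ofReal (radial K u ^ q) ∂(surf (n + 1)) = 0) (u : Sph (n + 1)) :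
    ∃ v ∈ ω, IsNormal K (radial K u • (u : E (n + 1))) v := by
  by_contra hcon
  push Not at hcon
  set B : Set (Sph (n + 1)) := (⋃ v ∈ ω, {u : Sph (n + 1) | IsNormal K (radial K u •
    (u : E (n + 1))) v})ᶜ with hB
  have hBo : IsOpen B := by
    rw [hB, isOpen_compl_iff]
    exact Set.Finite.isClosed_biUnion ω.finite_toSet fun v _ => isClosed_normal hK v
  have huB : u ∈ B := by
    simp only [hB, mem_compl_iff, mem_iUnion, mem_ofPred_eq, not_exists]
    exact fun v hv => hcon v hv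
  have hBs : B ⊆ revGauss K ((ω : Set (Sph (n + 1)))ᶜ) := by
    intro w hw
    obtain ⟨v, hv⟩ := exists_normal hK w
    refine ⟨v, ?_, hv⟩
    intro hvω
    apply hw
    simp only [mem_iUnion, mem_ofPred_eq]
    exact ⟨v, hvω, hv⟩
  have hpos : 0 < surf (n + 1) B := hBo.measure_pos _ ⟨u, huB⟩
  have h1 : ∫⁻ u in B, ENNReal.ofReal (radial K u ^ q) ∂(surf (n + 1)) = 0 := by
    rw [← nonpos_iff_eq_zero, ← h0]
    exact lintegral_mono_set hBs
  have hm : Measurable fun u : Sph (n + 1) => ENNReal.ofReal (radial K u ^ q) :=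
    ((measurable_radial hK).pow_const q).ennreal_ofReal
  have h2 : 0 < ∫⁻ u in B, ENNReal.ofReal (radial K u ^ q) ∂(surf (n + 1)) := by
    rw [setLIntegral_pos_iff hm]
    refine hpos.trans_le (measure_mono fun w hw => ⟨?_, hw⟩)
    exact (ENNReal.ofReal_pos.2 (Real.rpow_pos_of_pos (radial_pos hK w) _)).ne'
  exact h2.ne' h1

end Pool.Agent.H810.Dual
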