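import Mathlib

/-!
# Polar coordinates with a power weight
-/

set_option autoImplicit false

namespace Pool.Agent.H810.Dual

open MeasureTheory Set Metric
open scoped ENNReal InnerProductSpace

/-- Polar coordinates for nonnegative functions. -/
theorem polar_lintegral {n : ℕ} {G : EuclideanSpace ℝ (Fin (n + 1)) → ℝ≥0∞} (hG : Measurable G) :
    ∫⁻ x, G x = ∫⁻ w : sphere (0 : EuclideanSpace ℝ (Fin (n + 1))) 1,
      (∫⁻ t in Ioi (0 : ℝ), ENNReal.ofReal (t ^ n) * G (t • (w : EuclideanSpace ℝ (Fin (n + 1)))))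
        ∂(volume : Measure (EuclideanSpace ℝ (Fin (n + 1)))).toSphere := by
  have hdim : Module.finrank ℝ (EuclideanSpace ℝ (Fin (n + 1))) = n + 1 := by simp
  have mp := (volume : Measure (EuclideanSpace ℝ (Fin (n + 1)))).measurePreserving_homeomorphUnitSphereProd
  set G' : sphere (0 : EuclideanSpace ℝ (Fin (n + 1))) 1 × Ioi (0 : ℝ) → ℝ≥0∞ :=
    fun y => G ((y.2 : ℝ) • (y.1 : EuclideanSpace ℝ (Fin (n + 1)))) with hG'
  have hG'm : Measurable G' := hG.comp (by fun_prop)
  have h1 : ∫⁻ x, G x = ∫⁻ x in ({0}ᶜ : Set (EuclideanSpace ℝ (Fin (n + 1)))), G x := by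
    rw [← setLIntegral_univ]
    refine setLIntegral_congr ?_
    exact (ae_eq_univ.2 (by rw [compl_compl]; exact measure_singleton 0)).symm
  rw [h1, ← lintegral_subtype_comap (measurableSet_singleton _).compl]
  have h2 : ∀ x : ({0}ᶜ : Set (EuclideanSpace ℝ (Fin (n + 1)))), G x =
      G' (homeomorphUnitSphereProd (EuclideanSpace ℝ (Fin (n + 1))) x) := by
    intro x
    have hx0 : (x : EuclideanSpace ℝ (Fin (n + 1))) ≠ 0 := x.2
    simp only [hG', homeomorphUnitSphereProd_apply_snd_coe, homeomorphUnitSphereProd_apply_fst_coe]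
    rw [smul_smul, mul_inv_cancel₀ (norm_ne_zero_iff.2 hx0), one_smul]
  simp only [h2]
  rw [mp.lintegral_comp hG'm, lintegral_prod _ hG'm.aemeasurable, hdim, Nat.add_sub_cancel]
  refine lintegral_congr fun w => ?_
  have hm1 : Measurable fun t : Ioi (0 : ℝ) => ENNReal.ofReal ((t : ℝ) ^ n) :=
    (measurable_subtype_coe.pow_const n).ennreal_ofReal
  have hm2 : Measurable fun t : Ioi (0 : ℝ) => G' (w, t) :=
    hG'm.comp (measurable_const.prodMk measurable_id)
  unfold Measure.volumeIoiPow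
  rw [lintegral_withDensity_eq_lintegral_mul _ hm1 hm2]
  exact lintegral_subtype_comap measurableSet_Ioi
    (fun t : ℝ => ENNReal.ofReal (t ^ n) * G (t • (w : EuclideanSpace ℝ (Fin (n + 1)))))

theorem pow_int {n : ℕ} {p : ℝ} (hp : 0 < p) {r : ℝ} (hr : 0 ≤ r) :
    ENNReal.ofReal ((n : ℝ) + 1 + p) * ∫⁻ t in Ioc (0 : ℝ) r, ENNReal.ofReal (t ^ n) *
      ENNReal.ofReal (t ^ p) = ENNReal.ofReal (r ^ ((n : ℝ) + 1 + p)) := by
  have e : ∫⁻ t in Ioc (0 : ℝ) r, ENNReal.ofReal (t ^ n) * ENNReal.ofReal (t ^ p) =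
      ∫⁻ t in Ioc (0 : ℝ) r, ENNReal.ofReal (t ^ ((n : ℝ) + p)) := by
    refine setLIntegral_congr_fun measurableSet_Ioc fun t ht => ?_
    have ht0 : 0 < t := ht.1
    rw [← ENNReal.ofReal_mul (by positivity), Real.rpow_add ht0, Real.rpow_natCast]
  have hi : IntervalIntegrable (fun t : ℝ => t ^ ((n : ℝ) + p)) volume 0 r :=
    intervalIntegral.intervalIntegrable_rpow' (by have : (0 : ℝ) ≤ n := by positivity
                                                  linarith)
  have hn0 : (0 : ℝ) ≤ n := by positivity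
  rw [e, ← ofReal_integral_eq_lintegral_ofReal
    ((intervalIntegrable_iff_integrableOn_Ioc_of_le hr).1 hi)
    (by
      filter_upwards [ae_restrict_mem measurableSet_Ioc] with t ht
      exact Real.rpow_nonneg ht.1.le _),
    ← intervalIntegral.integral_of_le hr,
    integral_rpow (Or.inl (by linarith)), Real.zero_rpow (by linarith), sub_zero,
    ← ENNReal.ofReal_mul (by linarith)]
  congr 1
  rw [show (n : ℝ) + 1 + p = (n : ℝ) + p + 1 by ring, mul_div_cancel₀]
  linarith

/-- Upper bound for the integral over a set of directions. -/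
theorem polar_le {n : ℕ} {p : ℝ} (hp : 0 < p)
    {A : Set (sphere (0 : EuclideanSpace ℝ (Fin (n + 1))) 1)} (hA : MeasurableSet A)
    {ρ : sphere (0 : EuclideanSpace ℝ (Fin (n + 1))) 1 → ℝ} (hρ : ∀ w, 0 ≤ ρ w)
    {C : Set (EuclideanSpace ℝ (Fin (n + 1)))} (hC : MeasurableSet C)
    (h : ∀ w ∈ A, ∀ t : ℝ, 0 < t → t ≤ ρ w → t • (w : EuclideanSpace ℝ (Fin (n + 1))) ∈ C) :
    ∫⁻ w in A, ENNReal.ofReal (ρ w ^ ((n : ℝ) + 1 + p))
      ∂(volume : Measure (EuclideanSpace ℝ (Fin (n + 1)))).toSphere ≤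
      ENNReal.ofReal ((n : ℝ) + 1 + p) * ∫⁻ x in C, ENNReal.ofReal (‖x‖ ^ p) := by
  have hm : Measurable fun x : EuclideanSpace ℝ (Fin (n + 1)) => ENNReal.ofReal (‖x‖ ^ p) :=
    (measurable_norm.pow_const p).ennreal_ofReal
  rw [← lintegral_indicator hC, polar_lintegral (hm.indicator hC),
    ← lintegral_const_mul' _ _ ENNReal.ofReal_ne_top, ← lintegral_indicator hA]
  refine lintegral_mono fun w => ?_
  by_cases hw : w ∈ A
  · rw [indicator_of_mem hw, ← pow_int hp (hρ w)]
    refine mul_le_mul' le_rfl ?_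
    rw [← lintegral_indicator measurableSet_Ioc, ← lintegral_indicator measurableSet_Ioi]
    refine lintegral_mono fun t => ?_
    by_cases ht : t ∈ Ioc (0 : ℝ) (ρ w)
    · rw [indicator_of_mem ht, indicator_of_mem (show t ∈ Ioi (0 : ℝ) from ht.1),
        indicator_of_mem (h w hw t ht.1 ht.2)]
      have : ‖t • (w : EuclideanSpace ℝ (Fin (n + 1)))‖ = t := by
        rw [norm_smul, norm_eq_of_mem_sphere, mul_one, Real.norm_eq_abs, abs_of_pos ht.1]
      rw [this]
    · rw [indicator_of_notMem ht]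
      exact zero_le
  · rw [indicator_of_notMem hw]
    exact zero_le

/-- Lower bound for the integral over the sphere. -/
theorem polar_ge {n : ℕ} {p : ℝ} (hp : 0 < p)
    {ρ : sphere (0 : EuclideanSpace ℝ (Fin (n + 1))) 1 → ℝ} (hρ : ∀ w, 0 ≤ ρ w)
    {C : Set (EuclideanSpace ℝ (Fin (n + 1)))} (hC : MeasurableSet C)
    (h : ∀ w : sphere (0 : EuclideanSpace ℝ (Fin (n + 1))) 1, ∀ t : ℝ, 0 < t →
      t • (w : EuclideanSpace ℝ (Fin (n + 1))) ∈ C → t ≤ ρ w) :
    ENNReal.ofReal ((n : ℝ) + 1 + p) * ∫⁻ x in C, ENNReal.ofReal (‖x‖ ^ p) ≤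
      ∫⁻ w, ENNReal.ofReal (ρ w ^ ((n : ℝ) + 1 + p))
      ∂(volume : Measure (EuclideanSpace ℝ (Fin (n + 1)))).toSphere := by
  have hm : Measurable fun x : EuclideanSpace ℝ (Fin (n + 1)) => ENNReal.ofReal (‖x‖ ^ p) :=
    (measurable_norm.pow_const p).ennreal_ofReal
  rw [← lintegral_indicator hC, polar_lintegral (hm.indicator hC),
    ← lintegral_const_mul' _ _ ENNReal.ofReal_ne_top]
  refine lintegral_mono fun w => ?_
  simp only
  rw [← pow_int hp (hρ w)]
  refine mul_le_mul' le_rfl ?_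
  rw [← lintegral_indicator measurableSet_Ioc, ← lintegral_indicator measurableSet_Ioi]
  refine lintegral_mono fun t => ?_
  by_cases ht : t ∈ Ioi (0 : ℝ)
  · rw [indicator_of_mem ht]
    by_cases htC : t • (w : EuclideanSpace ℝ (Fin (n + 1))) ∈ C
    · rw [indicator_of_mem htC, indicator_of_mem (show t ∈ Ioc (0 : ℝ) (ρ w) from
        ⟨ht, h w t ht htC⟩)]
      have : ‖t • (w : EuclideanSpace ℝ (Fin (n + 1)))‖ = t := by
        rw [norm_smul, norm_eq_of_mem_sphere, mul_one, Real.norm_eq_abs,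
          abs_of_pos (show (0 : ℝ) < t from ht)]
      rw [this]
    · rw [indicator_of_notMem htC, mul_zero]
      exact zero_le
  · rw [indicator_of_notMem ht]
    exact zero_le

end Pool.Agent.H810.Dual
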