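import Pool.Agent.H810.Dual.Defs
import Pool.Agent.H810.Dual.Avg
import Pool.Agent.H810.Dual.Polar

/-!
# The bound for lines
-/

set_option autoImplicit false

namespace Pool.Agent.H810.Dual

open MeasureTheory Set Metric
open scoped ENNReal InnerProductSpace

variable {n : ℕ} {K : Set (E n)}

theorem IsSymBody.zero_mem (hK : IsSymBody K) : (0 : E n) ∈ K := by
  obtain ⟨x, hx⟩ := hK.interior
  have hx' := interior_subset hx
  have := hK.convex hx' (hK.symm _ hx') (a := 1 / 2) (b := 1 / 2) (by norm_num) (by norm_num)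
    (by norm_num)
  simpa using this

theorem IsSymBody.zero_interior (hK : IsSymBody K) : (0 : E n) ∈ _root_.interior K := by
  obtain ⟨x, hx⟩ := hK.interior
  have h := hK.convex.combo_interior_closure_mem_interior hx
    (subset_closure (hK.symm _ (interior_subset hx))) (a := 1 / 2) (b := 1 / 2) (by norm_num)
    (by norm_num) (by norm_num)
  simpa using h

theorem sph_ne (u : Sph n) : (u : E n) ≠ 0 := by
  intro h
  have := norm_eq_of_mem_sphere u
  rw [h, norm_zero] at this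
  exact zero_ne_one this

theorem ray_bdd (hK : IsCompact K) (u : Sph n) :
    BddAbove {t : ℝ | 0 ≤ t ∧ t • (u : E n) ∈ K} := by
  obtain ⟨M, hM⟩ := hK.isBounded.exists_norm_le
  refine ⟨M, fun t ht => ?_⟩
  have h1 := hM _ ht.2
  rwa [norm_smul, norm_eq_of_mem_sphere, mul_one, Real.norm_eq_abs, abs_of_nonneg ht.1] at h1

theorem radial_nonneg (u : Sph n) : 0 ≤ radial K u := Real.sSup_nonneg fun _ ht => ht.1

theorem radial_mem (hK : IsSymBody K) (u : Sph n) : radial K u • (u : E n) ∈ K := by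
  have hc : IsClosed {t : ℝ | 0 ≤ t ∧ t • (u : E n) ∈ K} := by
    apply (isClosed_le continuous_const continuous_id).inter
    exact hK.compact.isClosed.preimage (by fun_prop)
  exact (hc.csSup_mem ⟨0, le_refl 0, by simpa using hK.zero_mem⟩ (ray_bdd hK.compact u)).2

theorem le_radial (hK : IsCompact K) {u : Sph n} {t : ℝ} (ht : 0 ≤ t) (h : t • (u : E n) ∈ K) :
    t ≤ radial K u := le_csSup (ray_bdd hK u) ⟨ht, h⟩

theorem radial_pos (hK : IsSymBody K) (u : Sph n) : 0 < radial K u := by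
  obtain ⟨ε, hε, hb⟩ := Metric.mem_nhds_iff.1 (mem_interior_iff_mem_nhds.1 hK.zero_interior)
  have : (ε / 2) • (u : E n) ∈ K := hb (by
    rw [mem_ball_zero_iff, norm_smul, norm_eq_of_mem_sphere, mul_one, Real.norm_eq_abs,
      abs_of_pos (by linarith)]
    linarith)
  exact lt_of_lt_of_le (by linarith) (le_radial hK.compact (by linarith) this)

theorem mem_of_le_radial (hK : IsSymBody K) {u : Sph n} {t : ℝ} (ht : 0 ≤ t)
    (h : t ≤ radial K u) : t • (u : E n) ∈ K := by
  have h1 := radial_pos hK u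
  have h2 := hK.convex.smul_mem_of_zero_mem hK.zero_mem (radial_mem hK u)
    (t := t / radial K u) ⟨by positivity, by rw [div_le_one h1]; exact h⟩
  rwa [smul_smul, div_mul_cancel₀ _ h1.ne'] at h2

theorem measurable_radial (hK : IsSymBody K) : Measurable (radial K) := by
  refine measurable_of_Ici fun s => ?_
  by_cases hs : s ≤ 0
  · have : radial K ⁻¹' Ici s = univ := by
      ext u
      simp only [mem_preimage, mem_Ici, mem_univ, iff_true]
      exact hs.trans (radial_nonneg u)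
    rw [this]
    exact MeasurableSet.univ
  · push Not at hs
    have : radial K ⁻¹' Ici s = {u : Sph n | s • (u : E n) ∈ K} := by
      ext u
      simp only [mem_preimage, mem_Ici, mem_ofPred_eq]
      exact ⟨fun h => mem_of_le_radial hK hs.le h, fun h => le_radial hK.compact hs.le h⟩
    rw [this]
    exact (hK.compact.isClosed.preimage (by fun_prop)).measurableSet

/-- The support function in the direction `v`. -/
theorem exists_support (hK : IsSymBody K) (v : Sph n) : ∃ h : ℝ, 0 < h ∧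
    (∀ y ∈ K, ⟪(v : E n), y⟫_ℝ ≤ h) ∧ ∃ y ∈ K, ⟪(v : E n), y⟫_ℝ = h := by
  obtain ⟨y, hy, hmax⟩ := hK.compact.exists_isMaxOn ⟨0, hK.zero_mem⟩
    (f := fun y : E n => ⟪(v : E n), y⟫_ℝ) (by fun_prop)
  refine ⟨⟪(v : E n), y⟫_ℝ, ?_, fun z hz => hmax hz, y, hy, rfl⟩
  have h1 : ⟪(v : E n), radial K v • (v : E n)⟫_ℝ ≤ ⟪(v : E n), y⟫_ℝ := hmax (radial_mem hK v)
  rw [inner_smul_right] at h1
  have h2 : ⟪(v : E n), (v : E n)⟫_ℝ = 1 := by
    rw [real_inner_self_eq_norm_sq, norm_eq_of_mem_sphere]; norm_num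
  rw [h2, mul_one] at h1
  exact (radial_pos hK v).trans_le h1

/-- Supporting hyperplanes. -/
theorem exists_normal (hK : IsSymBody K) (u : Sph n) :
    ∃ v : Sph n, IsNormal K (radial K u • (u : E n)) v := by
  set x := radial K u • (u : E n) with hx
  have hxi : x ∉ _root_.interior K := by
    intro hxi
    obtain ⟨ε, hε, hb⟩ := Metric.mem_nhds_iff.1 (mem_interior_iff_mem_nhds.1 hxi)
    have h1 : (radial K u + ε / 2) • (u : E n) ∈ K := hb (by
      rw [mem_ball, dist_eq_norm, hx, ← sub_smul, norm_smul, norm_eq_of_mem_sphere, mul_one,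
        Real.norm_eq_abs, add_sub_cancel_left, abs_of_pos (by linarith)]
      linarith)
    have h2 := le_radial hK.compact (by have := radial_nonneg (K := K) u; linarith) h1
    linarith
  obtain ⟨f, hf⟩ := geometric_hahn_banach_open_point hK.convex.interior isOpen_interior hxi
  set w := (InnerProductSpace.toDual ℝ (E n)).symm f with hw
  have hfw : ∀ y, f y = ⟪w, y⟫_ℝ := fun y => by
    rw [hw, InnerProductSpace.toDual_symm_apply]
  have hw0 : w ≠ 0 := by
    intro h0
    obtain ⟨y, hy⟩ := hK.interior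
    have := hf y hy
    rw [hfw, hfw, h0, inner_zero_left, inner_zero_left] at this
    exact lt_irrefl _ this
  have hle : ∀ y ∈ K, f y ≤ f x := by
    intro y hy
    have h1 : y ∈ closure (_root_.interior K) := by
      rw [hK.convex.closure_interior_eq_closure_of_nonempty_interior hK.interior]
      exact subset_closure hy
    have h2 : closure (_root_.interior K) ⊆ {y | f y ≤ f x} :=
      closure_minimal (fun z hz => (hf z hz).le) (isClosed_le f.continuous continuous_const)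
    exact h2 h1
  have hwn : 0 < ‖w‖ := norm_pos_iff.2 hw0
  refine ⟨⟨‖w‖⁻¹ • w, by
    rw [mem_sphere_zero_iff_norm, norm_smul, norm_inv, norm_norm, inv_mul_cancel₀ hwn.ne']⟩, ?_⟩
  intro y hy
  simp only [inner_smul_left, RCLike.conj_to_real]
  rw [← hfw, ← hfw]
  exact mul_le_mul_of_nonneg_left (hle y hy) (by positivity)

theorem revGauss_univ (hK : IsSymBody K) : revGauss K univ = univ := by
  ext u
  simp only [revGauss, mem_ofPred_eq, mem_univ, true_and, iff_true]
  exact exists_normal hK u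

/-- The directions of the face with normal `v`. -/
theorem face_dirs {m : ℕ} {K : Set (E (m + 1))} (hm : 1 ≤ m) {p : ℝ} (hp : 0 < p)
    (hK : IsSymBody K) (v : Sph (m + 1)) :
    ∃ T : Set (Sph (m + 1)), MeasurableSet T ∧
      {u : Sph (m + 1) | IsNormal K (radial K u • (u : E (m + 1))) v} ⊆ T ∧
      (∫⁻ u in T, ENNReal.ofReal (radial K u ^ ((m : ℝ) + 1 + p)) ∂(surf (m + 1)) = 0 ∨
      ∫⁻ u in T, ENNReal.ofReal (radial K u ^ ((m : ℝ) + 1 + p)) ∂(surf (m + 1)) <
        ENNReal.ofReal (p + 1) * ∫⁻ x in {x | x ∈ K ∧ 0 < ⟪(v : E (m + 1)), x⟫_ℝ},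
          ENNReal.ofReal (‖x‖ ^ p)) := by
  obtain ⟨h, hh, hle, y0, hy0, hy0h⟩ := exists_support hK v
  set T : Set (Sph (m + 1)) := {u | h ≤ radial K u * ⟪(v : E (m + 1)), (u : E (m + 1))⟫_ℝ}
    with hT
  have hin : Measurable fun u : Sph (m + 1) => ⟪(v : E (m + 1)), (u : E (m + 1))⟫_ℝ :=
    ((innerSL ℝ (v : E (m + 1))).continuous.comp continuous_subtype_val).measurable
  have hTm : MeasurableSet T :=
    measurableSet_le measurable_const ((measurable_radial hK).mul hin)
  have hsub : {u : Sph (m + 1) | IsNormal K (radial K u • (u : E (m + 1))) v} ⊆ T := by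
    intro u hu
    have h1 := hu y0 hy0
    rw [hy0h, inner_smul_right] at h1
    exact h1
  set a : E (m + 1) := h⁻¹ • (v : E (m + 1)) with ha
  have ha0 : a ≠ 0 := smul_ne_zero (inv_ne_zero hh.ne') (sph_ne v)
  have hax : ∀ x, ⟪a, x⟫_ℝ = h⁻¹ * ⟪(v : E (m + 1)), x⟫_ℝ := fun x => by
    rw [ha, inner_smul_left]; rfl
  have hcone : ∀ u ∈ T, ∀ t : ℝ, 0 < t → t ≤ radial K u → t • (u : E (m + 1)) ∈ coneE K a := by
    intro u hu t ht htr
    have h1 : radial K u * ⟪(v : E (m + 1)), (u : E (m + 1))⟫_ℝ = h := by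
      apply le_antisymm _ hu
      have := hle _ (radial_mem hK u)
      rwa [inner_smul_right] at this
    have hr := radial_pos hK u
    have h2 : ⟪a, t • (u : E (m + 1))⟫_ℝ = t / radial K u := by
      rw [hax, inner_smul_right]
      have : ⟪(v : E (m + 1)), (u : E (m + 1))⟫_ℝ = h / radial K u := by
        rw [eq_div_iff hr.ne', mul_comm]; exact h1
      rw [this]
      field_simp
    refine ⟨?_, ?_, ?_⟩
    · rw [h2]; positivity
    · rw [h2, div_le_one hr]; exact htr
    · rw [h2, smul_smul, inv_div, div_mul_cancel₀ _ ht.ne']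
      exact radial_mem hK u
  have hpl := polar_le hp hTm (fun w => radial_nonneg (K := K) w)
    (measurableSet_coneE hK.compact.measurableSet a) hcone
  have hhalf : halfE K a = {x | x ∈ K ∧ 0 < ⟪(v : E (m + 1)), x⟫_ℝ} := by
    ext x
    simp only [halfE, mem_ofPred_eq, hax]
    have : 0 < h⁻¹ * ⟪(v : E (m + 1)), x⟫_ℝ ↔ 0 < ⟪(v : E (m + 1)), x⟫_ℝ :=
      mul_pos_iff_of_pos_left (inv_pos.2 hh)
    rw [this]
  refine ⟨T, hTm, hsub, ?_⟩
  by_cases h0 : ∫⁻ x in coneE K a, ENNReal.ofReal (‖x‖ ^ p) = 0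
  · left
    rw [h0, mul_zero] at hpl
    exact nonpos_iff_eq_zero.1 hpl
  · right
    have hf := face_ineq (n := m + 1) (by omega) hp hK.convex hK.compact hK.symm ha0 h0
    rw [hhalf] at hf
    refine hpl.trans_lt ?_
    rwa [show ((m + 1 : ℕ) : ℝ) + p = (m : ℝ) + 1 + p by push_cast; ring] at hf

/-- The two faces together. -/
theorem pair_lt {m : ℕ} {K : Set (E (m + 1))} (hm : 1 ≤ m) {p : ℝ} (hp : 0 < p)
    (hK : IsSymBody K) (v : Sph (m + 1)) :
    ∫⁻ u in revGauss K {v, -v}, ENNReal.ofReal (radial K u ^ ((m : ℝ) + 1 + p)) ∂(surf (m + 1)) <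
      ENNReal.ofReal (p + 1) * ∫⁻ x in K, ENNReal.ofReal (‖x‖ ^ p) := by
  obtain ⟨T1, hT1m, hT1, h1⟩ := face_dirs hm hp hK v
  obtain ⟨T2, hT2m, hT2, h2⟩ := face_dirs hm hp hK (-v)
  set g : Sph (m + 1) → ℝ≥0∞ := fun u => ENNReal.ofReal (radial K u ^ ((m : ℝ) + 1 + p)) with hg
  set H1 : Set (E (m + 1)) := {x | x ∈ K ∧ 0 < ⟪(v : E (m + 1)), x⟫_ℝ} with hH1
  set H2 : Set (E (m + 1)) := {x | x ∈ K ∧ 0 < ⟪((-v : Sph (m + 1)) : E (m + 1)), x⟫_ℝ} with hH2
  have hKm := hK.compact.measurableSet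
  have hin : ∀ w : E (m + 1), Measurable fun x : E (m + 1) => ⟪w, x⟫_ℝ := fun w =>
    (innerSL ℝ w).continuous.measurable
  have hH2m : MeasurableSet H2 := hKm.inter (measurableSet_lt measurable_const (hin _))
  have hdisj : Disjoint H1 H2 := by
    rw [Set.disjoint_left]
    rintro x ⟨-, hx1⟩ ⟨-, hx2⟩
    rw [show ((-v : Sph (m + 1)) : E (m + 1)) = -(v : E (m + 1)) from rfl, inner_neg_left] at hx2
    linarith
  have hHle : (∫⁻ x in H1, ENNReal.ofReal (‖x‖ ^ p)) + (∫⁻ x in H2, ENNReal.ofReal (‖x‖ ^ p)) ≤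
      ∫⁻ x in K, ENNReal.ofReal (‖x‖ ^ p) := by
    rw [← lintegral_union hH2m hdisj]
    exact lintegral_mono_set (union_subset (fun x hx => hx.1) (fun x hx => hx.1))
  have hsub : revGauss K {v, -v} ⊆ T1 ∪ T2 := by
    rintro u ⟨w, hw, hn⟩
    rcases hw with rfl | hw
    · exact Or.inl (hT1 hn)
    · rw [mem_singleton_iff] at hw
      subst hw
      exact Or.inr (hT2 hn)
  have hle : ∫⁻ u in revGauss K {v, -v}, g u ∂(surf (m + 1)) ≤
      (∫⁻ u in T1, g u ∂(surf (m + 1))) + (∫⁻ u in T2, g u ∂(surf (m + 1))) :=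
    (lintegral_mono_set hsub).trans (lintegral_union_le _ _ _)
  have hfin : ∀ H : Set (E (m + 1)), H ⊆ K → ∫⁻ x in H, ENNReal.ofReal (‖x‖ ^ p) ≠ ∞ :=
    fun H hH => ((lintegral_mono_set hH).trans_lt (norm_int_lt_top hp hK.compact)).ne
  have hp1 : ENNReal.ofReal (p + 1) ≠ 0 := (ENNReal.ofReal_pos.2 (by linarith)).ne'
  have hKpos : 0 < ∫⁻ x in K, ENNReal.ofReal (‖x‖ ^ p) := by
    rw [setLIntegral_pos_iff norm_meas]
    have hopen : IsOpen (_root_.interior K ∩ ({0}ᶜ : Set (E (m + 1)))) :=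
      isOpen_interior.inter isOpen_compl_singleton
    have hne : (_root_.interior K ∩ ({0}ᶜ : Set (E (m + 1)))).Nonempty := by
      obtain ⟨ε, hε, hb⟩ := Metric.mem_nhds_iff.1
        (mem_interior_iff_mem_nhds.1 (mem_interior_iff_mem_nhds.2
          (isOpen_interior.mem_nhds hK.zero_interior)))
      refine ⟨(ε / 2) • (v : E (m + 1)), hb ?_, ?_⟩
      · rw [mem_ball_zero_iff, norm_smul, norm_eq_of_mem_sphere, mul_one, Real.norm_eq_abs,
          abs_of_pos (by linarith)]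
        linarith
      · simp only [mem_compl_iff, mem_singleton_iff]
        exact smul_ne_zero (by positivity) (sph_ne v)
    refine (hopen.measure_pos volume hne).trans_le (measure_mono ?_)
    rintro x ⟨hx1, hx2⟩
    refine ⟨?_, interior_subset hx1⟩
    have hx0 : x ≠ 0 := hx2
    exact (ENNReal.ofReal_pos.2 (by positivity)).ne'
  refine hle.trans_lt ?_
  change (∫⁻ u in T1, g u ∂(surf (m + 1))) = 0 ∨ (∫⁻ u in T1, g u ∂(surf (m + 1))) < _ at h1
  change (∫⁻ u in T2, g u ∂(surf (m + 1))) = 0 ∨ (∫⁻ u in T2, g u ∂(surf (m + 1))) < _ at h2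
  have hH := mul_le_mul' (le_refl (ENNReal.ofReal (p + 1))) hHle
  rw [mul_add] at hH
  rcases h1 with h1 | h1 <;> rcases h2 with h2 | h2
  · rw [h1, h2, add_zero]
    exact ENNReal.mul_pos hp1 hKpos.ne'
  · rw [h1, zero_add]
    exact (h2.trans_le le_add_self).trans_le hH
  · rw [h2, add_zero]
    exact (h1.trans_le le_self_add).trans_le hH
  · exact (ENNReal.add_lt_add h1 h2).trans_le hH

/-- The measure of the whole sphere. -/
theorem total_ge {m : ℕ} {K : Set (E (m + 1))} {p : ℝ} (hp : 0 < p) (hK : IsSymBody K) :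
    ENNReal.ofReal ((m : ℝ) + 1 + p) * ∫⁻ x in K, ENNReal.ofReal (‖x‖ ^ p) ≤
      ∫⁻ u, ENNReal.ofReal (radial K u ^ ((m : ℝ) + 1 + p)) ∂(surf (m + 1)) :=
  polar_ge hp (fun w => radial_nonneg (K := K) w) hK.compact.measurableSet
    fun _ _ ht h => le_radial hK.compact ht.le h

/-- The bound for a pair of antipodal directions. -/
theorem dualCurv_pair_lt {n : ℕ} (hn : 2 ≤ n) {q : ℝ} (hq : (n : ℝ) < q) {K : Set (E n)}
    (hK : IsSymBody K) (v : Sph n) :
    dualCurv q K {v, -v} < ENNReal.ofReal ((q - n + 1) / q) * dualCurv q K univ := by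
  obtain ⟨m, rfl⟩ : ∃ m, n = m + 1 := ⟨n - 1, by omega⟩
  obtain ⟨p, rfl⟩ : ∃ p : ℝ, q = (m : ℝ) + 1 + p := ⟨q - (m + 1), by ring⟩
  have hp : 0 < p := by push_cast at hq; linarith
  have h1 := pair_lt (m := m) (by omega) hp hK v
  have h2 := total_ge hp hK
  have hm0 : (0 : ℝ) ≤ m := by positivity
  have hq0 : 0 < (m : ℝ) + 1 + p := by linarith
  unfold dualCurv
  rw [revGauss_univ hK, Measure.restrict_univ]
  have hn0 : (((m + 1 : ℕ) : ℝ≥0∞))⁻¹ ≠ 0 := ENNReal.inv_ne_zero.2 (ENNReal.natCast_ne_top _)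
  have hnt : (((m + 1 : ℕ) : ℝ≥0∞))⁻¹ ≠ ∞ := ENNReal.inv_ne_top.2 (by positivity)
  rw [mul_left_comm]
  refine (ENNReal.mul_lt_mul_iff_right hn0 hnt).2 ?_
  refine h1.trans_le ?_
  have e : ENNReal.ofReal (((m : ℝ) + 1 + p - ((m + 1 : ℕ) : ℝ) + 1) / ((m : ℝ) + 1 + p)) *
      ENNReal.ofReal ((m : ℝ) + 1 + p) = ENNReal.ofReal (p + 1) := by
    rw [← ENNReal.ofReal_mul' hq0.le, div_mul_cancel₀ _ hq0.ne']
    congr 1
    push_cast
    ring
  rw [← e, mul_assoc]
  exact mul_le_mul' le_rfl h2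

/-- The directions in a line. -/
theorem line_dirs {n : ℕ} (L : Submodule ℝ (E n)) (hL : Module.finrank ℝ L = 1) :
    ∃ v : Sph n, {u : Sph n | (u : E n) ∈ L} = {v, -v} := by
  obtain ⟨w, hw0, hw⟩ := finrank_eq_one_iff'.1 hL
  have hw0' : (w : E n) ≠ 0 := fun h => hw0 (Subtype.ext h)
  have hwn : 0 < ‖(w : E n)‖ := norm_pos_iff.2 hw0'
  refine ⟨⟨‖(w : E n)‖⁻¹ • (w : E n), by
    rw [mem_sphere_zero_iff_norm, norm_smul, norm_inv, norm_norm, inv_mul_cancel₀ hwn.ne']⟩, ?_⟩
  ext u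
  simp only [mem_ofPred_eq, mem_insert_iff, mem_singleton_iff]
  constructor
  · intro hu
    obtain ⟨c, hc⟩ := hw ⟨u, hu⟩
    have hc' : c • (w : E n) = (u : E n) := congrArg Subtype.val hc
    have hun := norm_eq_of_mem_sphere u
    rw [← hc', norm_smul, Real.norm_eq_abs] at hun
    rcases abs_cases c with ⟨h1, -⟩ | ⟨h1, -⟩
    · left
      apply Subtype.ext
      rw [h1] at hun
      have : c = ‖(w : E n)‖⁻¹ := eq_inv_of_mul_eq_one_left hun
      rw [← hc', this]
    · right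
      apply Subtype.ext
      rw [h1] at hun
      have : -c = ‖(w : E n)‖⁻¹ := eq_inv_of_mul_eq_one_left hun
      change (u : E n) = -(‖(w : E n)‖⁻¹ • (w : E n))
      rw [← hc', ← this, neg_smul, neg_neg]
  · rintro (h | h)
    · rw [h]
      exact L.smul_mem _ w.2
    · rw [h]
      exact L.neg_mem (L.smul_mem _ w.2)

end Pool.Agent.H810.Dual
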