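import Pool.Agent.H810.Dual.Final

/-!
# Assembly: three pairs of directions in the plane
-/

set_option autoImplicit false

namespace Pool.Agent.H810.Dual

open MeasureTheory Set Metric
open scoped ENNReal InnerProductSpace

/-- The direction `(1, 0)`. -/
noncomputable def vA : Sph 2 :=
  ⟨EuclideanSpace.single 0 (1 : ℝ), by simp⟩

/-- The direction `(0, 1)`. -/
noncomputable def vB : Sph 2 :=
  ⟨EuclideanSpace.single 1 (1 : ℝ), by simp⟩

/-- The direction `(1, -1)/√2`. -/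
noncomputable def vC : Sph 2 :=
  ⟨!₂[(√2)⁻¹, -(√2)⁻¹], by
    rw [mem_sphere_zero_iff_norm, EuclideanSpace.norm_eq, Fin.sum_univ_two]
    simp only [Matrix.cons_val_zero, Matrix.cons_val_one, Real.norm_eq_abs, abs_neg, sq_abs]
    rw [inv_pow, Real.sq_sqrt (by norm_num : (0 : ℝ) ≤ 2)]
    norm_num⟩

theorem inner_vA (x : E2) : ⟪(vA : E 2), x⟫_ℝ = x 0 := by
  change ⟪(EuclideanSpace.single 0 (1 : ℝ) : E2), x⟫_ℝ = x 0
  rw [EuclideanSpace.inner_single_left]; simp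

theorem inner_vB (x : E2) : ⟪(vB : E 2), x⟫_ℝ = x 1 := by
  change ⟪(EuclideanSpace.single 1 (1 : ℝ) : E2), x⟫_ℝ = x 1
  rw [EuclideanSpace.inner_single_left]; simp

theorem inner_vC (x : E2) : ⟪(vC : E 2), x⟫_ℝ = (√2)⁻¹ * (x 0 - x 1) := by
  change ⟪(!₂[(√2)⁻¹, -(√2)⁻¹] : E2), x⟫_ℝ = _
  rw [PiLp.inner_apply, Fin.sum_univ_two]
  simp
  ring

theorem mem_of_forall {n : ℕ} {K : Set (E n)} (hK : IsSymBody K) (ω : Finset (Sph n))
    (hall : ∀ u : Sph n, ∃ v ∈ ω, IsNormal K (radial K u • (u : E n)) v) {x : E n}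
    (hx : ∀ v ∈ ω, ∃ y ∈ K, ⟪(v : E n), x⟫_ℝ ≤ ⟪(v : E n), y⟫_ℝ) : x ∈ K := by
  by_cases hx0 : x = 0
  · rw [hx0]; exact hK.zero_mem
  have hxn : 0 < ‖x‖ := norm_pos_iff.2 hx0
  set u : Sph n := ⟨‖x‖⁻¹ • x, by
    rw [mem_sphere_zero_iff_norm, norm_smul, norm_inv, norm_norm, inv_mul_cancel₀ hxn.ne']⟩ with hu
  have hxu : x = ‖x‖ • (u : E n) := by
    rw [hu]
    simp only
    rw [smul_smul, mul_inv_cancel₀ hxn.ne', one_smul]
  obtain ⟨v, hv, hnorm⟩ := hall u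
  obtain ⟨y, hy, hxy⟩ := hx v hv
  have h1 := hnorm y hy
  rw [inner_smul_right] at h1
  have h2 : 0 < ⟪(v : E n), (u : E n)⟫_ℝ := by
    have h3 := hnorm _ (radial_mem hK v)
    rw [inner_smul_right, inner_smul_right, real_inner_self_eq_norm_sq, norm_eq_of_mem_sphere]
      at h3
    have h4 := radial_pos hK v
    have h5 := radial_pos hK u
    by_contra hcon
    push Not at hcon
    have := mul_nonpos_of_nonneg_of_nonpos h5.le hcon
    linarith
  have h3 : ‖x‖ ≤ radial K u := by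
    rw [hxu, inner_smul_right] at hxy
    exact le_of_mul_le_mul_right (hxy.trans h1) h2
  rw [hxu]
  exact mem_of_le_radial hK hxn.le h3

/-- The contradiction for the three pairs. -/
theorem no_body {p : ℝ} (hp : 0 < p) {M s c0 : ℝ} (hc0 : 0 ≤ c0) (hc1 : c0 < 1)
    (hcp : c0 ^ p = 2 / (p + 2)) (hs0 : 0 < s)
    (hsM : 4 * s + M = 1) (hM : M < (p + 1) / (p + 2)) (hM1 : (p + 2) / (p + 4) < M)
    (hM2 : (p + 1) / (p + 2) * (1 - (1 - c0) / (256 * 4 ^ p * (p + 2))) < M)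
    {μ : Measure (Sph 2)} (htot : μ univ = 1)
    (hμA : ENNReal.ofReal (2 * s) ≤ μ {vA, -vA}) (hμB : ENNReal.ofReal (2 * s) ≤ μ {vB, -vB})
    (hμC : ENNReal.ofReal M ≤ μ {vC, -vC})
    (hμ0 : μ ({vA, -vA, vB, -vB, vC, -vC} : Set (Sph 2))ᶜ = 0) :
    ¬ ∃ K : Set (E 2), IsSymBody K ∧ IsDualCurv (p + 2) K μ := by
  classical
  rintro ⟨K, hK, hdc⟩
  have hq : ((1 : ℕ) : ℝ) + 1 + p = p + 2 := by push_cast; ring
  have hfinm : ∀ ω : Set (Sph 2), ω.Finite → MeasurableSet ω := fun ω h => h.measurableSet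
  -- supports
  obtain ⟨H1, hH1, hle1, hex1⟩ := exists_support hK vA
  obtain ⟨H2, hH2, hle2, hex2⟩ := exists_support hK vB
  obtain ⟨h3, hh3, hle3, hex3⟩ := exists_support hK vC
  have hs2 : 0 < √2 := by positivity
  set w : ℝ := √2 * h3 with hw
  have hw0 : 0 < w := by positivity
  have hle1' : ∀ y ∈ K, |y 0| ≤ H1 := by
    intro y hy
    rw [abs_le]
    have a1 := hle1 y hy
    have a2 := hle1 (-y) (hK.symm y hy)
    rw [inner_neg_right] at a2
    rw [inner_vA] at a1 a2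
    exact ⟨by linarith, a1⟩
  have hle2' : ∀ y ∈ K, |y 1| ≤ H2 := by
    intro y hy
    rw [abs_le]
    have a1 := hle2 y hy
    have a2 := hle2 (-y) (hK.symm y hy)
    rw [inner_neg_right] at a2
    rw [inner_vB] at a1 a2
    exact ⟨by linarith, a1⟩
  have hle3' : ∀ y ∈ K, |y 0 - y 1| ≤ w := by
    intro y hy
    rw [abs_le]
    have a1 := hle3 y hy
    have a2 := hle3 (-y) (hK.symm y hy)
    rw [inner_neg_right] at a2
    rw [inner_vC] at a1 a2
    rw [inv_mul_le_iff₀ hs2] at a1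
    have a3 : -(y 0 - y 1) ≤ w := by
      have : (√2)⁻¹ * (-(y 0 - y 1)) ≤ h3 := by linarith
      rwa [inv_mul_le_iff₀ hs2] at this
    exact ⟨by linarith, a1⟩
  -- `K` is the hexagon
  set ω : Finset (Sph 2) := {vA, -vA, vB, -vB, vC, -vC} with hω
  have hωs : (ω : Set (Sph 2)) = ({vA, -vA, vB, -vB, vC, -vC} : Set (Sph 2)) := by
    rw [hω]; push_cast; rfl
  have hall : ∀ u : Sph 2, ∃ v ∈ ω, IsNormal K (radial K u • (u : E 2)) v := by
    apply radial_all (n := 1) (q := p + 2) hK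
    have h1 := hdc ((ω : Set (Sph 2))ᶜ) ω.measurableSet.compl
    rw [hωs, hμ0, ← hωs] at h1
    unfold dualCurv at h1
    have h2 := (mul_eq_zero.1 h1.symm).resolve_left
      (ENNReal.inv_ne_zero.2 (ENNReal.natCast_ne_top _))
    exact h2
  have hneg : ∀ v : Sph 2, ((-v : Sph 2) : E 2) = -(v : E 2) := fun v => rfl
  have hKhex : K = hex H1 H2 w := by
    apply Set.Subset.antisymm
    · intro y hy
      exact ⟨hle1' y hy, hle2' y hy, hle3' y hy⟩
    · intro x hx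
      obtain ⟨y1, hy1, hy1h⟩ := hex1
      obtain ⟨y2, hy2, hy2h⟩ := hex2
      obtain ⟨y3, hy3, hy3h⟩ := hex3
      have b1 := abs_le.1 hx.1
      have b2 := abs_le.1 hx.2.1
      have b3 := abs_le.1 hx.2.2
      have b4 : (√2)⁻¹ * (x 0 - x 1) ≤ h3 := by
        rw [inv_mul_le_iff₀ hs2]; exact b3.2
      have b5 : -((√2)⁻¹ * (x 0 - x 1)) ≤ h3 := by
        have : (√2)⁻¹ * (-(x 0 - x 1)) ≤ h3 := by
          rw [inv_mul_le_iff₀ hs2]; linarith [b3.1]
        linarith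
      refine mem_of_forall hK ω hall ?_
      intro v hv
      simp only [hω, Finset.mem_insert, Finset.mem_singleton] at hv
      rcases hv with rfl | rfl | rfl | rfl | rfl | rfl
      · exact ⟨y1, hy1, by rw [hy1h, inner_vA]; exact b1.2⟩
      · refine ⟨-y1, hK.symm _ hy1, ?_⟩
        rw [hneg, inner_neg_left, inner_neg_left, inner_neg_right, hy1h, inner_vA]
        linarith [b1.1]
      · exact ⟨y2, hy2, by rw [hy2h, inner_vB]; exact b2.2⟩
      · refine ⟨-y2, hK.symm _ hy2, ?_⟩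
        rw [hneg, inner_neg_left, inner_neg_left, inner_neg_right, hy2h, inner_vB]
        linarith [b2.1]
      · exact ⟨y3, hy3, by rw [hy3h, inner_vC]; exact b4⟩
      · refine ⟨-y3, hK.symm _ hy3, ?_⟩
        rw [hneg, inner_neg_left, inner_neg_left, inner_neg_right, hy3h, inner_vC]
        linarith
  have hw12 : w ≤ H1 + H2 := by
    obtain ⟨y3, hy3, hy3h⟩ := hex3
    rw [inner_vC, inv_mul_eq_iff_eq_mul₀ hs2.ne'] at hy3h
    have c1 := abs_le.1 (hle1' y3 hy3)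
    have c2 := abs_le.1 (hle2' y3 hy3)
    rw [hw, ← hy3h]
    linarith [c1.2, c2.1]
  -- the measures in terms of integrals
  have hcurv : ∀ v : Sph 2, ∀ h : ℝ, 0 < h → (∀ y ∈ K, ⟪(v : E 2), y⟫_ℝ ≤ h) →
      (∃ y ∈ K, ⟪(v : E 2), y⟫_ℝ = h) →
      μ {v, -v} ≤ ENNReal.ofReal (p + 2) * In p (coneE K (h⁻¹ • (v : E 2))) := by
    intro v h hh hle hex
    rw [hdc _ (hfinm _ (Set.toFinite _))]
    unfold dualCurv
    have h1 := face_cone (m := 1) hp hK v hh hle hex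
    rw [hq] at h1
    calc ((2 : ℕ) : ℝ≥0∞)⁻¹ * _ ≤ ((2 : ℕ) : ℝ≥0∞)⁻¹ * (2 * (ENNReal.ofReal (p + 2) *
          In p (coneE K (h⁻¹ • (v : E 2))))) := mul_le_mul' le_rfl h1
      _ = _ := by
          rw [← mul_assoc, Nat.cast_ofNat, ENNReal.inv_mul_cancel (by norm_num) (by norm_num),
            one_mul]
  have hA' := hμA.trans (hcurv vA H1 hH1 hle1 hex1)
  have hB' := hμB.trans (hcurv vB H2 hH2 hle2 hex2)
  have hC' := hμC.trans (hcurv vC h3 hh3 hle3 hex3)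
  have hdv : h3⁻¹ • (vC : E 2) = dvec w := by
    change h3⁻¹ • (!₂[(√2)⁻¹, -(√2)⁻¹] : E2) = dvec w
    unfold dvec
    rw [hw, mul_inv]
    ext i
    fin_cases i <;> simp <;> ring
  rw [hdv] at hC'
  rw [hKhex] at hA' hB' hC'
  have hcA : ∀ x ∈ coneE (hex H1 H2 w) (H1⁻¹ • (vA : E 2)), x ∈ hex H1 H2 w ∧ 0 < x 0 ∧
      x 0 ≤ H1 ∧ (H1 / x 0) • x ∈ hex H1 H2 w := by
    intro x hx
    have hxK := coneE_subset (convex_hex H1 H2 w) (fun y hy => hex_neg hy) _ hx
    obtain ⟨g1, g2, g3⟩ := hx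
    have e : ⟪H1⁻¹ • (vA : E 2), x⟫_ℝ = H1⁻¹ * x 0 := by
      rw [inner_smul_left, inner_vA]; rfl
    rw [e] at g1 g2 g3
    refine ⟨hxK, (mul_pos_iff_of_pos_left (inv_pos.2 hH1)).1 g1, ?_, ?_⟩
    · rwa [inv_mul_le_iff₀ hH1, mul_one] at g2
    · rwa [mul_inv, inv_inv, ← div_eq_mul_inv] at g3
  have hcB : ∀ x ∈ coneE (hex H1 H2 w) (H2⁻¹ • (vB : E 2)), x ∈ hex H1 H2 w ∧ 0 < x 1 ∧
      x 1 ≤ H2 ∧ (H2 / x 1) • x ∈ hex H1 H2 w := by
    intro x hx
    have hxK := coneE_subset (convex_hex H1 H2 w) (fun y hy => hex_neg hy) _ hx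
    obtain ⟨g1, g2, g3⟩ := hx
    have e : ⟪H2⁻¹ • (vB : E 2), x⟫_ℝ = H2⁻¹ * x 1 := by
      rw [inner_smul_left, inner_vB]; rfl
    rw [e] at g1 g2 g3
    refine ⟨hxK, (mul_pos_iff_of_pos_left (inv_pos.2 hH2)).1 g1, ?_, ?_⟩
    · rwa [inv_mul_le_iff₀ hH2, mul_one] at g2
    · rwa [mul_inv, inv_inv, ← div_eq_mul_inv] at g3
  have hA2 := hA'.trans (mul_le_mul' le_rfl (cone1_le hp hH1 _ hcA))
  have hB2 := hB'.trans (mul_le_mul' le_rfl (cone2_le hp hH2 _ hcB))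
  have h2s : 0 < ENNReal.ofReal (2 * s) := ENNReal.ofReal_pos.2 (by linarith)
  have hBpos : 0 < w + H2 - H1 := by
    by_contra hcon
    push Not at hcon
    rw [max_eq_right hcon, mul_zero, ENNReal.ofReal_zero, zero_mul, mul_zero, mul_zero] at hA2
    exact absurd h2s (not_lt.2 hA2)
  have hApos : 0 < w + H1 - H2 := by
    by_contra hcon
    push Not at hcon
    rw [max_eq_right hcon, mul_zero, ENNReal.ofReal_zero, zero_mul, mul_zero, mul_zero] at hB2
    exact absurd h2s (not_lt.2 hB2)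
  rw [max_eq_left hBpos.le] at hA2
  rw [max_eq_left hApos.le] at hB2
  have hHm : 0 < max H1 H2 := hH1.trans_le (le_max_left _ _)
  -- finiteness
  have hIKf : In p (hex H1 H2 w) ≠ ∞ := (norm_int_lt_top hp (isCompact_hex H1 H2 w)).ne
  have hDf : In p (coneE (hex H1 H2 w) (dvec w)) ≠ ∞ :=
    ne_top_of_le_ne_top hIKf (lintegral_mono_set
      (coneE_subset (convex_hex H1 H2 w) (fun y hy => hex_neg hy) _))
  have hCf : In p (corner H1 H2 w) ≠ ∞ :=
    ne_top_of_le_ne_top hIKf (lintegral_mono_set (corner_sub hApos hBpos hw12))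
  have hV : volume box ≠ ∞ := box_lt_top.ne
  -- the total mass
  have htotal : ENNReal.ofReal (p + 2) * In p (hex H1 H2 w) ≤ 2 := by
    have h1 := total_ge (m := 1) hp hK
    have h2 := hdc univ MeasurableSet.univ
    unfold dualCurv at h2
    rw [htot, revGauss_univ hK, Measure.restrict_univ] at h2
    rw [hq] at h1
    rw [← hKhex]
    refine h1.trans (le_of_eq ?_)
    have h4 : (2 : ℝ≥0∞) * 1 = 2 * (((2 : ℕ) : ℝ≥0∞)⁻¹ *
      ∫⁻ u, ENNReal.ofReal (radial K u ^ (p + 2)) ∂(surf 2)) := by rw [← h2]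
    rw [mul_one, ← mul_assoc, Nat.cast_ofNat, ENNReal.mul_inv_cancel (by norm_num) (by norm_num),
      one_mul] at h4
    exact h4.symm
  -- real numbers
  set ik := (In p (hex H1 H2 w)).toReal with hik
  set d := (In p (coneE (hex H1 H2 w) (dvec w))).toReal with hd
  set ic := (In p (corner H1 H2 w)).toReal with hic
  set v0 := (volume box).toReal with hv0
  have eik : In p (hex H1 H2 w) = ENNReal.ofReal ik := (ENNReal.ofReal_toReal hIKf).symm
  have ed : In p (coneE (hex H1 H2 w) (dvec w)) = ENNReal.ofReal d :=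
    (ENNReal.ofReal_toReal hDf).symm
  have eic : In p (corner H1 H2 w) = ENNReal.ofReal ic := (ENNReal.ofReal_toReal hCf).symm
  have ev : volume box = ENNReal.ofReal v0 := (ENNReal.ofReal_toReal hV).symm
  have hv00 : 0 ≤ v0 := ENNReal.toReal_nonneg
  have hd0 : 0 ≤ d := ENNReal.toReal_nonneg
  have hic0 : 0 ≤ ic := ENNReal.toReal_nonneg
  have hik0 : 0 ≤ ik := ENNReal.toReal_nonneg
  have e2 : (2 : ℝ≥0∞) = ENNReal.ofReal 2 := by simp
  have hp1 : 0 ≤ p + 1 := by linarith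
  have hp2 : 0 ≤ p + 2 := by linarith
  -- translate
  have ra : (p + 2) * ik ≤ 2 := by
    rw [eik, e2, ← ENNReal.ofReal_mul hp2] at htotal
    exact (ENNReal.ofReal_le_ofReal_iff (by norm_num)).1 htotal
  have rb : M ≤ (p + 2) * d := by
    rw [ed, ← ENNReal.ofReal_mul hp2] at hC'
    exact (ENNReal.ofReal_le_ofReal_iff (by positivity)).1 hC'
  have r1 : 2 * s ≤ (p + 2) * ((2 * max H1 H2) ^ p * (H1 * (w + H2 - H1) * v0)) := by
    rw [ev, ← ENNReal.ofReal_mul (by positivity), ← ENNReal.ofReal_mul (by positivity),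
      ← ENNReal.ofReal_mul hp2] at hA2
    exact (ENNReal.ofReal_le_ofReal_iff (by positivity)).1 hA2
  have r2 : 2 * s ≤ (p + 2) * ((2 * max H1 H2) ^ p * (H2 * (w + H1 - H2) * v0)) := by
    rw [ev, ← ENNReal.ofReal_mul (by positivity), ← ENNReal.ofReal_mul (by positivity),
      ← ENNReal.ofReal_mul hp2] at hB2
    exact (ENNReal.ofReal_le_ofReal_iff (by positivity)).1 hB2
  have rcor : (max H1 H2 / 2) ^ p * ((w + H1 - H2) * (w + H2 - H1) / 64 * v0) ≤ ic := by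
    have h1 := corner_int hp hApos hBpos hw12
    rw [ev, eic, ← ENNReal.ofReal_mul (by positivity), ← ENNReal.ofReal_mul (by positivity)] at h1
    exact (ENNReal.ofReal_le_ofReal_iff hic0).1 h1
  have rA : (p + 2) * (2 * d) + (p + 1) * (2 * ic) ≤ (p + 1) * ik := by
    have h1 := caseA hp hw0 hApos hBpos hw12
    rw [eik, ed, eic, e2, ← ENNReal.ofReal_mul (by norm_num), ← ENNReal.ofReal_mul hp2,
      ← ENNReal.ofReal_mul (by norm_num), ← ENNReal.ofReal_mul hp1,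
      ← ENNReal.ofReal_add (by positivity) (by positivity), ← ENNReal.ofReal_mul hp1] at h1
    exact (ENNReal.ofReal_le_ofReal_iff (by positivity)).1 h1
  have rnf : (H1 + H2 - w) / 2 ≤ ‖fd H1 H2 w‖ :=
    (le_abs_self _).trans (abs_le_norm (fd H1 H2 w) 0)
  have rB : c0 * (w + ‖fd H1 H2 w‖) ≤ ‖fd H1 H2 w‖ - w → 2 * ((1 + c0 ^ p) * d) ≤ ik := by
    intro hc
    have hl : 0 < H1 + H2 - w := by
      by_contra hcon
      push Not at hcon
      have h0 : H1 + H2 - w = 0 := by linarith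
      have hfd0 : fd H1 H2 w = 0 := by
        unfold fd
        rw [h0]
        ext i
        fin_cases i <;> simp
      rw [hfd0, norm_zero, add_zero, zero_sub] at hc
      have := mul_nonneg hc0 hw0.le
      linarith
    have h1 := caseB hp hw0 hl hApos hBpos hc0 hc
    have hcp0 : 0 ≤ c0 ^ p := Real.rpow_nonneg hc0 p
    rw [eik, ed, e2, ← ENNReal.ofReal_one, ← ENNReal.ofReal_add (by norm_num) hcp0,
      ← ENNReal.ofReal_mul (by positivity), ← ENNReal.ofReal_mul (by norm_num)] at h1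
    exact (ENNReal.ofReal_le_ofReal_iff hik0).1 h1
  exact real_contra hp hw0 hApos hBpos hw12 hv00 hc0 hc1 hcp hd0 hsM hM hM1 hM2 ra rb r1 r2 rcor rA
    rnf rB

end Pool.Agent.H810.Dual
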