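import Mathlib

/-!
# The scalar inequality behind the dual curvature bound
-/

set_option autoImplicit false

namespace Pool.Agent.H810.Dual

open MeasureTheory Set

/-- The antiderivative `x|x|^p/(p+1)` of `|x|^p`. -/
noncomputable def psi (p x : ℝ) : ℝ := x * |x| ^ p / (p + 1)

/-- The second antiderivative `|x|^(p+2)/((p+1)(p+2))` of `|x|^p`. -/
noncomputable def Psi (p x : ℝ) : ℝ := |x| ^ (p + 2) / ((p + 1) * (p + 2))

theorem continuous_abs_rpow {p : ℝ} (hp : 0 < p) : Continuous (fun x : ℝ => |x| ^ p) :=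
  continuous_abs.rpow_const fun _ => Or.inr hp.le

theorem continuous_psi {p : ℝ} (hp : 0 < p) : Continuous (psi p) := by
  unfold psi
  exact (continuous_id.mul (continuous_abs_rpow hp)).div_const _

theorem hasDerivAt_psi {p : ℝ} (hp : 0 < p) (x : ℝ) : HasDerivAt (psi p) (|x| ^ p) x := by
  refine hasDerivAt_of_hasDerivAt_of_ne' (x := 0) (g := fun x : ℝ => |x| ^ p) ?_
    (continuous_psi hp).continuousAt (continuous_abs_rpow hp).continuousAt x
  intro y hy
  have h1 : HasDerivAt (fun x : ℝ => |x| ^ p) ((SignType.sign y : ℝ) * p * |y| ^ (p - 1)) y :=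
    (hasDerivAt_abs hy).rpow_const (Or.inl (abs_ne_zero.2 hy))
  have h2 := ((hasDerivAt_id y).mul h1).div_const (p + 1)
  refine HasDerivAt.congr_deriv (f := psi p) h2 ?_
  have h3 : y * (SignType.sign y : ℝ) = |y| := by
    rw [mul_comm]; exact sign_mul_self y
  have h4 : |y| ^ p = |y| * |y| ^ (p - 1) := by
    rw [Real.rpow_sub_one (abs_ne_zero.2 hy)]
    field_simp
  have h5 : (p + 1) ≠ 0 := by positivity
  rw [div_eq_iff h5]
  symm
  calc |y| ^ p * (p + 1) = |y| ^ p + p * |y| ^ p := by ring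
    _ = |y| ^ p + p * (|y| * |y| ^ (p - 1)) := by rw [← h4]
    _ = |y| ^ p + p * ((y * (SignType.sign y : ℝ)) * |y| ^ (p - 1)) := by rw [h3]
    _ = _ := by simp only [id]; ring

theorem hasDerivAt_Psi {p : ℝ} (hp : 0 < p) (x : ℝ) : HasDerivAt (Psi p) (psi p x) x := by
  have h := (hasDerivAt_abs_rpow x (p := p + 2) (by linarith)).div_const ((p + 1) * (p + 2))
  refine HasDerivAt.congr_deriv (f := Psi p) h ?_
  unfold psi
  rw [show p + 2 - 2 = p by ring]
  have h1 : (p + 1) ≠ 0 := by positivity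
  have h2 : (p + 2) ≠ 0 := by positivity
  field_simp

theorem psi_neg (p x : ℝ) : psi p (-x) = - psi p x := by
  unfold psi; rw [abs_neg]; ring

theorem Psi_neg (p x : ℝ) : Psi p (-x) = Psi p x := by
  unfold Psi; rw [abs_neg]

theorem psi_mono {p : ℝ} (hp : 0 < p) : Monotone (psi p) :=
  monotone_of_deriv_nonneg (fun x => (hasDerivAt_psi hp x).differentiableAt) fun x => by
    rw [(hasDerivAt_psi hp x).deriv]; positivity

theorem key0 {P : ℝ} (hP : 1 < P) {x : ℝ} (hx0 : 0 ≤ x) (hx1 : x < 1) :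
    (P + 1) * (1 - x) * (1 + x ^ P) < 2 * P * (1 - x ^ P * x) := by
  have h1 : x ^ P ≤ x := by
    calc x ^ P ≤ x ^ (1 : ℝ) := Real.rpow_le_rpow_of_exponent_ge' hx0 hx1.le (by norm_num) hP.le
      _ = x := Real.rpow_one x
  have h0 : 0 ≤ x ^ P := Real.rpow_nonneg hx0 P
  have h2 : x ^ P * x < 1 := by nlinarith
  nlinarith [mul_pos (sub_pos.2 hP) (sub_pos.2 h2),
    mul_nonneg (by linarith : (0 : ℝ) ≤ P + 1) (sub_nonneg.2 h1)]

theorem amgm {P : ℝ} (hP : 1 < P) {x : ℝ} (hx0 : 0 < x) (hx1 : x < 1) :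
    P * x ^ (P - 1) < 1 + (P - 1) * x ^ P := by
  have h := one_add_mul_self_lt_rpow_one_add (s := x⁻¹ - 1) (by have := inv_pos.2 hx0; linarith)
    (by
      have : 1 < x⁻¹ := (one_lt_inv₀ hx0).2 hx1
      linarith) hP
  rw [show 1 + (x⁻¹ - 1) = x⁻¹ by ring, Real.inv_rpow hx0.le] at h
  have hxP : 0 < x ^ P := Real.rpow_pos_of_pos hx0 P
  have h2 := mul_lt_mul_of_pos_left h hxP
  rw [mul_inv_cancel₀ hxP.ne'] at h2
  rw [Real.rpow_sub_one hx0.ne']
  have e : x ^ P * (1 + P * (x⁻¹ - 1)) = P * (x ^ P / x) - (P - 1) * x ^ P := by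
    field_simp
    ring
  linarith

theorem key1 {P : ℝ} (hP : 1 < P) {x : ℝ} (hx0 : 0 ≤ x) (hx1 : x < 1) :
    (P + 1) * (1 + x) * (1 - x ^ P) < 2 * P * (1 - x ^ P * x) := by
  set f : ℝ → ℝ := fun x => (P - 1) - (P + 1) * x + (P + 1) * x ^ P - (P - 1) * x ^ (P + 1)
    with hf
  have hanti : StrictAntiOn f (Icc 0 1) := by
    apply strictAntiOn_of_deriv_neg (convex_Icc 0 1)
    · apply Continuous.continuousOn
      have c1 : Continuous fun x : ℝ => x ^ P :=
        Real.continuous_rpow_const (by linarith)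
      have c2 : Continuous fun x : ℝ => x ^ (P + 1) :=
        Real.continuous_rpow_const (by linarith)
      fun_prop
    · intro y hy
      rw [interior_Icc] at hy
      have d1 := Real.hasDerivAt_rpow_const (x := y) (p := P) (Or.inl hy.1.ne')
      have d2 := Real.hasDerivAt_rpow_const (x := y) (p := P + 1) (Or.inl hy.1.ne')
      have d := ((((hasDerivAt_const y (P - 1)).sub ((hasDerivAt_id y).const_mul (P + 1))).add
        (d1.const_mul (P + 1))).sub (d2.const_mul (P - 1)))
      have e : deriv f y = _ := d.deriv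
      rw [e]
      have h := amgm hP hy.1 hy.2
      rw [show P + 1 - 1 = P by ring]
      nlinarith [mul_lt_mul_of_pos_left h (by linarith : (0 : ℝ) < P + 1)]
  have h1 := hanti ⟨hx0, hx1.le⟩ ⟨zero_le_one, le_refl 1⟩ hx1
  simp only [hf, Real.one_rpow] at h1
  rw [Real.rpow_add_one' hx0 (by linarith)] at h1
  nlinarith

theorem key0' {P : ℝ} (hP : 1 < P) {a b : ℝ} (ha : 0 < a) (hb : 0 ≤ b) (hab : b < a) :
    (P + 1) * (a - b) * (a ^ P + b ^ P) < 2 * P * (a ^ P * a - b ^ P * b) := by
  have h := key0 hP (x := b / a) (by positivity) ((div_lt_one ha).2 hab)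
  have e : b ^ P = (b / a) ^ P * a ^ P := by
    rw [← Real.mul_rpow (by positivity) ha.le, div_mul_cancel₀ _ ha.ne']
  have e1 : b = (b / a) * a := by rw [div_mul_cancel₀ _ ha.ne']
  have h2 := mul_lt_mul_of_pos_right h (by positivity : 0 < a ^ P * a)
  rw [e]
  calc (P + 1) * (a - b) * (a ^ P + (b / a) ^ P * a ^ P)
      = (P + 1) * (a - (b / a) * a) * (a ^ P + (b / a) ^ P * a ^ P) := by rw [← e1]
    _ = (P + 1) * (1 - b / a) * (1 + (b / a) ^ P) * (a ^ P * a) := by ring
    _ < _ := h2
    _ = 2 * P * (a ^ P * a - (b / a) ^ P * a ^ P * ((b / a) * a)) := by ring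
    _ = _ := by rw [← e1]

theorem key1' {P : ℝ} (hP : 1 < P) {a b : ℝ} (ha : 0 < a) (hb : 0 ≤ b) (hab : b < a) :
    (P + 1) * (a + b) * (a ^ P - b ^ P) < 2 * P * (a ^ P * a - b ^ P * b) := by
  have h := key1 hP (x := b / a) (by positivity) ((div_lt_one ha).2 hab)
  have e : b ^ P = (b / a) ^ P * a ^ P := by
    rw [← Real.mul_rpow (by positivity) ha.le, div_mul_cancel₀ _ ha.ne']
  have e1 : b = (b / a) * a := by rw [div_mul_cancel₀ _ ha.ne']
  have h2 := mul_lt_mul_of_pos_right h (by positivity : 0 < a ^ P * a)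
  rw [e]
  calc (P + 1) * (a + b) * (a ^ P - (b / a) ^ P * a ^ P)
      = (P + 1) * (a + (b / a) * a) * (a ^ P - (b / a) ^ P * a ^ P) := by rw [← e1]
    _ = (P + 1) * (1 + b / a) * (1 - (b / a) ^ P) * (a ^ P * a) := by ring
    _ < _ := h2
    _ = 2 * P * (a ^ P * a - (b / a) ^ P * a ^ P * ((b / a) * a)) := by ring
    _ = _ := by rw [← e1]

theorem rpow_p2 {p x : ℝ} (hp : 0 < p) (hx : 0 ≤ x) : x ^ (p + 2) = x ^ (p + 1) * x := by
  rw [show p + 2 = (p + 1) + 1 by ring, Real.rpow_add_one' hx (by linarith)]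

theorem scalar_pos {p : ℝ} (hp : 0 < p) {c l : ℝ} (hc : 0 < c) (hl : 0 < l) :
    c * (psi p (c + l) - psi p (c - l)) < (p + 1) * (Psi p (c + l) - Psi p (c - l)) := by
  have ha : 0 < c + l := by linarith
  have hp1 : (p + 1) ≠ 0 := by positivity
  have hp2 : (p + 2) ≠ 0 := by positivity
  have ea : (c + l) * (c + l) ^ p = (c + l) ^ (p + 1) := by
    rw [Real.rpow_add_one' ha.le hp1, mul_comm]
  rcases le_total c l with h | h
  · -- `b = l - c ≥ 0`
    have hb : 0 ≤ l - c := by linarith
    have k := key0' (P := p + 1) (by linarith) ha hb (by linarith)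
    have eb : (l - c) * (l - c) ^ p = (l - c) ^ (p + 1) := by
      rw [Real.rpow_add_one' hb hp1, mul_comm]
    rw [show c - l = -(l - c) by ring, psi_neg, Psi_neg]
    unfold psi Psi
    rw [abs_of_pos ha, abs_of_nonneg hb, ea, eb, rpow_p2 hp ha.le, rpow_p2 hp hb]
    have : (p + 1) * ((c + l) ^ (p + 1) * (c + l) / ((p + 1) * (p + 2)) -
        (l - c) ^ (p + 1) * (l - c) / ((p + 1) * (p + 2))) =
        ((c + l) ^ (p + 1) * (c + l) - (l - c) ^ (p + 1) * (l - c)) / (p + 2) := by
      field_simp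
    rw [this, sub_neg_eq_add, ← add_div, mul_div_assoc', div_lt_div_iff₀ (by positivity)
      (by positivity)]
    nlinarith
  · have hb : 0 ≤ c - l := by linarith
    have k := key1' (P := p + 1) (by linarith) ha hb (by linarith)
    have eb : (c - l) * (c - l) ^ p = (c - l) ^ (p + 1) := by
      rw [Real.rpow_add_one' hb hp1, mul_comm]
    unfold psi Psi
    rw [abs_of_pos ha, abs_of_nonneg hb, ea, eb, rpow_p2 hp ha.le, rpow_p2 hp hb]
    have : (p + 1) * ((c + l) ^ (p + 1) * (c + l) / ((p + 1) * (p + 2)) -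
        (c - l) ^ (p + 1) * (c - l) / ((p + 1) * (p + 2))) =
        ((c + l) ^ (p + 1) * (c + l) - (c - l) ^ (p + 1) * (c - l)) / (p + 2) := by
      field_simp
    rw [this, ← sub_div, mul_div_assoc', div_lt_div_iff₀ (by positivity)
      (by positivity)]
    nlinarith

/-- The scalar inequality, integrated form. -/
theorem scalar {p : ℝ} (hp : 0 < p) (c : ℝ) {l : ℝ} (hl : 0 < l) :
    psi p (c + l) - psi p (c - l) <
      (p + 1) * ∫ t in (0 : ℝ)..1, (psi p (t * c + l) - psi p (t * c - l)) := by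
  have hcont : Continuous fun t : ℝ => psi p (t * c + l) - psi p (t * c - l) := by
    have := continuous_psi hp
    fun_prop
  -- the case `c > 0`
  have main : ∀ c : ℝ, 0 < c → psi p (c + l) - psi p (c - l) <
      (p + 1) * ∫ t in (0 : ℝ)..1, (psi p (t * c + l) - psi p (t * c - l)) := by
    intro c hc
    have hcont : Continuous fun t : ℝ => psi p (t * c + l) - psi p (t * c - l) := by
      have := continuous_psi hp
      fun_prop
    have hd : ∀ t ∈ uIcc (0 : ℝ) 1, HasDerivAt
        (fun t : ℝ => (Psi p (t * c + l) - Psi p (t * c - l)) / c)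
        (psi p (t * c + l) - psi p (t * c - l)) t := by
      intro t _
      have g1 : HasDerivAt (fun t : ℝ => t * c + l) c t := by
        simpa using ((hasDerivAt_id t).mul_const c).add_const l
      have g2 : HasDerivAt (fun t : ℝ => t * c - l) c t := by
        simpa using ((hasDerivAt_id t).mul_const c).sub_const l
      have h1 := (hasDerivAt_Psi hp (t * c + l)).comp t g1
      have h2 := (hasDerivAt_Psi hp (t * c - l)).comp t g2
      have h3 := (h1.sub h2).div_const c
      refine h3.congr_deriv ?_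
      rw [← sub_mul, mul_div_cancel_right₀ _ hc.ne']
    rw [intervalIntegral.integral_eq_sub_of_hasDerivAt hd (hcont.intervalIntegrable _ _)]
    have e0 : (Psi p (0 * c + l) - Psi p (0 * c - l)) / c = 0 := by
      rw [zero_mul, zero_add, zero_sub, Psi_neg, sub_self, zero_div]
    rw [e0, sub_zero, one_mul, mul_div_assoc', lt_div_iff₀ hc, mul_comm]
    exact scalar_pos hp hc hl
  rcases lt_trichotomy c 0 with h | h | h
  · have h1 := main (-c) (by linarith)
    have e1 : ∀ t : ℝ, psi p (t * -c + l) - psi p (t * -c - l) =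
        psi p (t * c + l) - psi p (t * c - l) := by
      intro t
      rw [show t * -c + l = -(t * c - l) by ring, show t * -c - l = -(t * c + l) by ring,
        psi_neg, psi_neg]
      ring
    have e2 : psi p (-c + l) - psi p (-c - l) = psi p (c + l) - psi p (c - l) := by
      have := e1 1
      simpa using this
    rw [e2] at h1
    simpa only [e1] using h1
  · subst h
    simp only [mul_zero, intervalIntegral.integral_const, smul_eq_mul, sub_zero, one_mul, zero_add,
      zero_sub]
    rw [psi_neg]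
    have : 0 < psi p l := by
      unfold psi
      rw [abs_of_pos hl]
      positivity
    nlinarith
  · exact main c h

end Pool.Agent.H810.Dual
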