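import Pool.Agent.H810.Dual.Scalar
import Pool.Graph.R_pool_sql_team_ae5b0c61.H26.PL

/-!
# The slice inequality in the model space `ℝ × (ℝ × W)`
-/

set_option autoImplicit false

namespace Pool.Agent.H810.Dual

open MeasureTheory Set
open scoped ENNReal

/-- The measure `|r|^p dr` on the line. -/
noncomputable def nu (p : ℝ) : Measure ℝ :=
  volume.withDensity fun r => ENNReal.ofReal (|r| ^ p)

instance (p : ℝ) : SFinite (nu p) := by unfold nu; infer_instance

theorem nu_Ioc {p : ℝ} (hp : 0 < p) {a b : ℝ} (hab : a ≤ b) :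
    nu p (Ioc a b) = ENNReal.ofReal (psi p b - psi p a) := by
  unfold nu
  rw [withDensity_apply _ measurableSet_Ioc,
    ← ofReal_integral_eq_lintegral_ofReal, ← intervalIntegral.integral_of_le hab,
    intervalIntegral.integral_eq_sub_of_hasDerivAt (fun t _ => hasDerivAt_psi hp t)
      ((continuous_abs_rpow hp).intervalIntegrable _ _)]
  · exact ((continuous_abs_rpow hp).integrableOn_Icc).mono_set Ioc_subset_Icc_self
  · exact Filter.Eventually.of_forall fun t => by positivity

theorem nu_Ioo {p : ℝ} (hp : 0 < p) {a b : ℝ} (hab : a ≤ b) :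
    nu p (Ioo a b) = ENNReal.ofReal (psi p b - psi p a) := by
  rw [← nu_Ioc hp hab]
  unfold nu
  rw [withDensity_apply _ measurableSet_Ioc, withDensity_apply _ measurableSet_Ioo]
  exact setLIntegral_congr Ioo_ae_eq_Ioc

theorem nu_Icc {p : ℝ} (hp : 0 < p) {a b : ℝ} (hab : a ≤ b) :
    nu p (Icc a b) = ENNReal.ofReal (psi p b - psi p a) := by
  rw [← nu_Ioc hp hab]
  unfold nu
  rw [withDensity_apply _ measurableSet_Ioc, withDensity_apply _ measurableSet_Icc]
  exact setLIntegral_congr Ioc_ae_eq_Icc.symm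

/-- Scalar inequality for `nu`. -/
theorem nu_scalar {p : ℝ} (hp : 0 < p) {α β : ℝ} (hab : α < β) :
    nu p (Icc α β) < ENNReal.ofReal (p + 1) * ∫⁻ t in Ioo (0 : ℝ) 1,
      nu p (Ioo (t * ((α + β) / 2) - (β - α) / 2) (t * ((α + β) / 2) + (β - α) / 2)) := by
  have hl : 0 < (β - α) / 2 := by linarith
  rw [nu_Icc hp hab.le]
  have e : ∀ t : ℝ, nu p (Ioo (t * ((α + β) / 2) - (β - α) / 2)
      (t * ((α + β) / 2) + (β - α) / 2)) = ENNReal.ofReal
      (psi p (t * ((α + β) / 2) + (β - α) / 2) - psi p (t * ((α + β) / 2) - (β - α) / 2)) :=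
    fun t => nu_Ioo hp (by linarith)
  simp only [e]
  have hcont : Continuous fun t : ℝ => psi p (t * ((α + β) / 2) + (β - α) / 2) -
      psi p (t * ((α + β) / 2) - (β - α) / 2) := by
    have := continuous_psi hp
    fun_prop
  rw [setLIntegral_congr (Ioo_ae_eq_Ioc (a := (0 : ℝ)) (b := 1)),
    ← ofReal_integral_eq_lintegral_ofReal (hcont.integrableOn_Icc.mono_set Ioc_subset_Icc_self)
    (Filter.Eventually.of_forall fun t => sub_nonneg.2 (psi_mono hp (by linarith))),
    ← ENNReal.ofReal_mul (by linarith), ← intervalIntegral.integral_of_le zero_le_one]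
  have h := scalar hp ((α + β) / 2) hl
  rw [show (α + β) / 2 + (β - α) / 2 = β by ring, show (α + β) / 2 - (β - α) / 2 = α by ring]
    at h
  exact (ENNReal.ofReal_lt_ofReal_iff_of_nonneg (sub_nonneg.2 (psi_mono hp hab.le))).2 h

variable {W : Type*} [NormedAddCommGroup W] [InnerProductSpace ℝ W] [FiniteDimensional ℝ W]
  [MeasurableSpace W] [BorelSpace W]

/-- The slice volume. -/
noncomputable def slice (K : Set (ℝ × (ℝ × W))) (t r : ℝ) : ℝ≥0∞ :=
  volume {w : W | (t, (r, w)) ∈ K}

theorem slice_measurable {K : Set (ℝ × (ℝ × W))} (hK : MeasurableSet K) :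
    Measurable fun x : ℝ × ℝ => slice K x.1 x.2 := by
  have h : MeasurableSet {y : (ℝ × ℝ) × W | (y.1.1, (y.1.2, y.2)) ∈ K} :=
    measurableSet_preimage (by fun_prop) hK
  exact measurable_measure_prodMk_left h

theorem slice_lt_top {K : Set (ℝ × (ℝ × W))} (hK : IsCompact K) (t r : ℝ) :
    slice K t r < ∞ := by
  refine (measure_mono (t := (fun x : ℝ × (ℝ × W) => x.2.2) '' K) ?_).trans_lt
    (hK.image (by fun_prop)).measure_lt_top
  intro w hw
  exact ⟨_, hw, rfl⟩

theorem slice_neg {K : Set (ℝ × (ℝ × W))} (hs : ∀ x ∈ K, -x ∈ K) (t r : ℝ) :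
    slice K (-t) (-r) = slice K t r := by
  unfold slice
  rw [← Measure.measure_neg (volume : Measure W) {w : W | (t, (r, w)) ∈ K}]
  congr 1
  ext w
  simp only [mem_ofPred_eq, Set.mem_neg]
  constructor
  · intro h; simpa using hs _ h
  · intro h; simpa using hs _ h

theorem slice_conc {K : Set (ℝ × (ℝ × W))} (hc : Convex ℝ K) (hK : IsCompact K)
    {a b : ℝ} (ha : 0 < a) (hb : 0 < b) (hab : a + b = 1) {t t' r r' : ℝ} {s : ℝ≥0∞}
    (h1 : s < slice K t r) (h2 : s < slice K t' r') :
    s < slice K (a * t + b * t') (a * r + b * r') := by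
  have hm : ∀ t r : ℝ, MeasurableSet {w : W | (t, (r, w)) ∈ K} := fun t r =>
    measurableSet_preimage (by fun_prop) hK.measurableSet
  have h := (Pool.Agent.H26.PL.hasPL_volume ha hb hab W).bm ha hb (hm t r) (hm t' r')
    (hm (a * t + b * t') (a * r + b * r')) (fun x hx y hy => by
      have := hc hx hy ha.le hb.le hab
      simpa using this)
  refine lt_of_lt_of_le (lt_min h1 h2) (le_trans ?_ h)
  set m := min (slice K t r) (slice K t' r')
  calc m = m ^ (a + b) := by rw [hab, ENNReal.rpow_one]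
    _ = m ^ a * m ^ b := ENNReal.rpow_add_of_nonneg _ _ ha.le hb.le
    _ ≤ _ := by
      gcongr
      · exact min_le_left _ _
      · exact min_le_right _ _

theorem level_ineq {p : ℝ} (hp : 0 < p) {K : Set (ℝ × (ℝ × W))} (hc : Convex ℝ K)
    (hK : IsCompact K) (hs : ∀ x ∈ K, -x ∈ K) (s : ℝ≥0∞) (hpos : nu p {r | s < slice K 1 r} ≠ 0) :
    nu p {r | s < slice K 1 r} < ENNReal.ofReal (p + 1) *
      ∫⁻ t in Ioo (0 : ℝ) 1, nu p {r | s < slice K t r} := by
  set U : Set ℝ := {r | s < slice K 1 r} with hU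
  have hne : U.Nonempty := nonempty_of_measure_ne_zero hpos
  have hsub : U ⊆ (fun x : ℝ × (ℝ × W) => x.2.1) '' K := by
    intro r hr
    have : (slice K 1 r) ≠ 0 := (lt_of_le_of_lt zero_le hr).ne'
    obtain ⟨w, hw⟩ := nonempty_of_measure_ne_zero this
    exact ⟨_, hw, rfl⟩
  have hbd := (hK.image (f := fun x : ℝ × (ℝ × W) => x.2.1) (by fun_prop)).isBounded.subset hsub
  have hU1 : U ⊆ Icc (sInf U) (sSup U) := fun r hr =>
    ⟨csInf_le hbd.bddBelow hr, le_csSup hbd.bddAbove hr⟩
  have hconv : Convex ℝ U := by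
    rw [convex_iff_forall_pos]
    intro x hx y hy a b ha hb hab
    have := slice_conc hc hK ha hb hab hx hy
    rwa [show a * 1 + b * 1 = 1 by linarith] at this
  have hU2 : Ioo (sInf U) (sSup U) ⊆ U := by
    intro r hr
    obtain ⟨r1, hr1, h1⟩ := exists_lt_of_csInf_lt hne hr.1
    obtain ⟨r2, hr2, h2⟩ := exists_lt_of_lt_csSup hne hr.2
    exact hconv.ordConnected.out hr1 hr2 ⟨h1.le, h2.le⟩
  have hle : sInf U < sSup U := by
    by_contra hcon
    apply hpos
    rw [← nonpos_iff_eq_zero]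
    refine (measure_mono hU1).trans ?_
    rcases lt_or_eq_of_le (not_lt.1 hcon) with h | h
    · rw [Icc_eq_empty (not_le.2 h), measure_empty]
    · rw [h, nu_Icc hp le_rfl, sub_self, ENNReal.ofReal_zero]
  refine (measure_mono hU1).trans_lt ((nu_scalar hp hle).trans_le ?_)
  refine mul_le_mul' le_rfl ?_
  refine setLIntegral_mono' measurableSet_Ioo fun t ht => measure_mono ?_
  intro r hr
  set c := (sInf U + sSup U) / 2 with hc'
  set l := (sSup U - sInf U) / 2 with hl'
  have h1 : c + (r - t * c) ∈ U := hU2 ⟨by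
    have := hr.1
    have e : sInf U = c - l := by rw [hc', hl']; ring
    rw [e]; linarith, by
    have := hr.2
    have e : sSup U = c + l := by rw [hc', hl']; ring
    rw [e]; linarith⟩
  have h2 : c - (r - t * c) ∈ U := hU2 ⟨by
    have := hr.2
    have e : sInf U = c - l := by rw [hc', hl']; ring
    rw [e]; linarith, by
    have := hr.1
    have e : sSup U = c + l := by rw [hc', hl']; ring
    rw [e]; linarith⟩
  have h3 : s < slice K (-1) (-(c - (r - t * c))) := by
    rw [slice_neg hs]; exact h2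
  have h4 := slice_conc hc hK (a := (1 + t) / 2) (b := (1 - t) / 2) (by linarith [ht.1])
    (by linarith [ht.2]) (by ring) h1 h3
  rwa [show (1 + t) / 2 * 1 + (1 - t) / 2 * -1 = t by ring,
    show (1 + t) / 2 * (c + (r - t * c)) + (1 - t) / 2 * -(c - (r - t * c)) = r by ring] at h4

theorem slice_int {p : ℝ} {K : Set (ℝ × (ℝ × W))} (hK : MeasurableSet K) (hp : 0 < p) (t : ℝ) :
    ∫⁻ x in {x : ℝ × W | (t, x) ∈ K}, ENNReal.ofReal (|x.1| ^ p) = ∫⁻ r, slice K t r ∂(nu p) := by
  have hS : MeasurableSet {x : ℝ × W | (t, x) ∈ K} := measurableSet_preimage (by fun_prop) hK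
  have hm : Measurable fun r : ℝ => ENNReal.ofReal (|r| ^ p) :=
    (continuous_abs_rpow hp).measurable.ennreal_ofReal
  have hsl : Measurable fun r : ℝ => slice K t r :=
    (slice_measurable hK).comp (measurable_const.prodMk measurable_id)
  unfold nu
  have hm2 : Measurable ({x : ℝ × W | (t, x) ∈ K}.indicator
      (fun x : ℝ × W => ENNReal.ofReal (|x.1| ^ p))) := (hm.comp measurable_fst).indicator hS
  rw [lintegral_withDensity_eq_lintegral_mul _ hm hsl, ← lintegral_indicator hS,
    Measure.volume_eq_prod, lintegral_prod _ hm2.aemeasurable]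
  apply lintegral_congr
  intro r
  have hSr : MeasurableSet {w : W | (t, (r, w)) ∈ K} := measurableSet_preimage (by fun_prop) hK
  have e : (fun w : W => ({x : ℝ × W | (t, x) ∈ K}.indicator
      (fun x : ℝ × W => ENNReal.ofReal (|x.1| ^ p))) (r, w)) =
      {w : W | (t, (r, w)) ∈ K}.indicator (fun _ => ENNReal.ofReal (|r| ^ p)) := by
    ext w
    by_cases h : (t, (r, w)) ∈ K
    · rw [indicator_of_mem (show (r, w) ∈ {x : ℝ × W | (t, x) ∈ K} from h),
        indicator_of_mem (show w ∈ {w : W | (t, (r, w)) ∈ K} from h)]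
    · rw [indicator_of_notMem (show (r, w) ∉ {x : ℝ × W | (t, x) ∈ K} from h),
        indicator_of_notMem (show w ∉ {w : W | (t, (r, w)) ∈ K} from h)]
  rw [e, lintegral_indicator hSr, setLIntegral_const]
  rfl

/-- The slice inequality, strict unless the left side vanishes. -/
theorem slice_ineq {p : ℝ} (hp : 0 < p) {K : Set (ℝ × (ℝ × W))} (hc : Convex ℝ K)
    (hK : IsCompact K) (hs : ∀ x ∈ K, -x ∈ K)
    (hpos : ∫⁻ x in {x : ℝ × W | ((1 : ℝ), x) ∈ K}, ENNReal.ofReal (|x.1| ^ p) ≠ 0)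
    (hfin : ∫⁻ x in {x : ℝ × W | ((1 : ℝ), x) ∈ K}, ENNReal.ofReal (|x.1| ^ p) ≠ ∞) :
    ∫⁻ x in {x : ℝ × W | ((1 : ℝ), x) ∈ K}, ENNReal.ofReal (|x.1| ^ p) <
      ENNReal.ofReal (p + 1) * ∫⁻ t in Ioo (0 : ℝ) 1,
        ∫⁻ x in {x : ℝ × W | (t, x) ∈ K}, ENNReal.ofReal (|x.1| ^ p) := by
  have hKm := hK.measurableSet
  simp only [slice_int hKm hp] at hpos hfin ⊢
  have hA := slice_measurable hKm
  -- layer cake on the line
  have e1 : ∫⁻ r, slice K 1 r ∂(nu p) =
      ∫⁻ s in Ioi (0 : ℝ), nu p {r | ENNReal.ofReal s < slice K 1 r} := by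
    have h := lintegral_eq_lintegral_meas_lt (nu p) (f := fun r => (slice K 1 r).toReal)
      (Filter.Eventually.of_forall fun r => ENNReal.toReal_nonneg)
      (hA.comp (measurable_const.prodMk measurable_id)).ennreal_toReal.aemeasurable
    simp only [ENNReal.ofReal_toReal (slice_lt_top hK _ _).ne] at h
    rw [h]
    refine setLIntegral_congr_fun measurableSet_Ioi fun s hs' => ?_
    congr 1
    ext r
    exact (ENNReal.ofReal_lt_iff_lt_toReal (le_of_lt hs') (slice_lt_top hK _ _).ne).symm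
  have e2 : ∫⁻ t in Ioo (0 : ℝ) 1, ∫⁻ r, slice K t r ∂(nu p) =
      ∫⁻ s in Ioi (0 : ℝ), ∫⁻ t in Ioo (0 : ℝ) 1, nu p {r | ENNReal.ofReal s < slice K t r} := by
    rw [← lintegral_prod (μ := volume.restrict (Ioo (0 : ℝ) 1)) (ν := nu p)
      (fun x : ℝ × ℝ => slice K x.1 x.2) hA.aemeasurable]
    have h := lintegral_eq_lintegral_meas_lt ((volume.restrict (Ioo (0 : ℝ) 1)).prod (nu p))
      (f := fun x : ℝ × ℝ => (slice K x.1 x.2).toReal)
      (Filter.Eventually.of_forall fun r => ENNReal.toReal_nonneg)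
      hA.ennreal_toReal.aemeasurable
    simp only [ENNReal.ofReal_toReal (slice_lt_top hK _ _).ne] at h
    rw [h]
    refine setLIntegral_congr_fun measurableSet_Ioi fun s hs' => ?_
    have hme : MeasurableSet {x : ℝ × ℝ | s < (slice K x.1 x.2).toReal} :=
      measurableSet_lt measurable_const hA.ennreal_toReal
    rw [Measure.prod_apply hme]
    refine lintegral_congr fun t => ?_
    congr 1
    ext r
    exact (ENNReal.ofReal_lt_iff_lt_toReal (le_of_lt hs') (slice_lt_top hK _ _).ne).symm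
  rw [e2, ← lintegral_const_mul' _ _ ENNReal.ofReal_ne_top]
  rw [e1] at hpos hfin ⊢
  have hanti : Antitone fun s : ℝ => ENNReal.ofReal (p + 1) *
      ∫⁻ t in Ioo (0 : ℝ) 1, nu p {r | ENNReal.ofReal s < slice K t r} := by
    intro s s' hss
    refine mul_le_mul' le_rfl (lintegral_mono fun t => measure_mono fun r hr => ?_)
    exact lt_of_le_of_lt (ENNReal.ofReal_le_ofReal hss) hr
  have hle : ∀ s : ℝ, nu p {r | ENNReal.ofReal s < slice K 1 r} ≤ ENNReal.ofReal (p + 1) *
      ∫⁻ t in Ioo (0 : ℝ) 1, nu p {r | ENNReal.ofReal s < slice K t r} := by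
    intro s
    by_cases h0 : nu p {r | ENNReal.ofReal s < slice K 1 r} = 0
    · rw [h0]; exact zero_le
    · exact (level_ineq hp hc hK hs _ h0).le
  refine lintegral_strict_mono_of_ae_le_of_frequently_ae_lt hanti.measurable.aemeasurable hfin
    (Filter.Eventually.of_forall hle) ?_
  intro hcon
  apply hpos
  rw [lintegral_congr_ae (g := fun _ => 0), lintegral_zero]
  filter_upwards [hcon] with s hs'
  by_contra h0
  exact hs' (level_ineq hp hc hK hs _ h0).ne

end Pool.Agent.H810.Dual
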