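import Pool.Agent.H810.Dual.NonSuff

/-!
# The measure on three pairs of directions
-/

set_option autoImplicit false

namespace Pool.Agent.H810.Dual

open MeasureTheory Set Metric
open scoped ENNReal InnerProductSpace

/-- Mass `s` at each of `±(1,0)`, `±(0,1)` and mass `M/2` at each of `±(1,-1)/√2`. -/
noncomputable def three (s M : ℝ) : Measure (Sph 2) :=
  ENNReal.ofReal s • (Measure.dirac vA + Measure.dirac (-vA) + Measure.dirac vB +
    Measure.dirac (-vB)) + ENNReal.ofReal (M / 2) • (Measure.dirac vC + Measure.dirac (-vC))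

theorem three_apply (s M : ℝ) {ω : Set (Sph 2)} (hω : MeasurableSet ω) :
    three s M ω = ENNReal.ofReal s * (ω.indicator 1 vA + ω.indicator 1 (-vA) + ω.indicator 1 vB +
      ω.indicator 1 (-vB)) + ENNReal.ofReal (M / 2) * (ω.indicator 1 vC + ω.indicator 1 (-vC)) := by
  unfold three
  simp only [Measure.add_apply, Measure.smul_apply, smul_eq_mul, Measure.dirac_apply' _ hω]

theorem three_univ {s M : ℝ} (hs : 0 ≤ s) (hM : 0 ≤ M) (h : 4 * s + M = 1) :
    three s M univ = 1 := by
  rw [three_apply s M MeasurableSet.univ]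
  simp only [indicator_univ, Pi.one_apply]
  have e4 : (1 : ℝ≥0∞) + 1 + 1 + 1 = ENNReal.ofReal 4 := by
    rw [ENNReal.ofReal_ofNat]; norm_num
  have e2 : (1 : ℝ≥0∞) + 1 = ENNReal.ofReal 2 := by
    rw [ENNReal.ofReal_ofNat]; norm_num
  rw [e4, e2, ← ENNReal.ofReal_mul hs, ← ENNReal.ofReal_mul (by positivity),
    ← ENNReal.ofReal_add (by positivity) (by positivity)]
  rw [show s * 4 + M / 2 * 2 = 1 by linarith, ENNReal.ofReal_one]

theorem two_ofReal {a : ℝ} (ha : 0 ≤ a) : ENNReal.ofReal a * (1 + 1) = ENNReal.ofReal (2 * a) := by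
  rw [one_add_one_eq_two, mul_comm 2 a, ENNReal.ofReal_mul ha, ENNReal.ofReal_ofNat]

theorem three_pairA {s M : ℝ} (hs : 0 ≤ s) : ENNReal.ofReal (2 * s) ≤ three s M {vA, -vA} := by
  rw [three_apply s M (Set.toFinite _).measurableSet, ← two_ofReal hs]
  refine le_trans ?_ le_self_add
  refine mul_le_mul' le_rfl ?_
  rw [indicator_of_mem (show vA ∈ ({vA, -vA} : Set (Sph 2)) by simp),
    indicator_of_mem (show -vA ∈ ({vA, -vA} : Set (Sph 2)) by simp)]
  simp only [Pi.one_apply]
  exact le_trans le_self_add le_self_add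

theorem three_pairB {s M : ℝ} (hs : 0 ≤ s) : ENNReal.ofReal (2 * s) ≤ three s M {vB, -vB} := by
  rw [three_apply s M (Set.toFinite _).measurableSet, ← two_ofReal hs]
  refine le_trans ?_ le_self_add
  refine mul_le_mul' le_rfl ?_
  rw [indicator_of_mem (show vB ∈ ({vB, -vB} : Set (Sph 2)) by simp),
    indicator_of_mem (show -vB ∈ ({vB, -vB} : Set (Sph 2)) by simp)]
  simp only [Pi.one_apply]
  gcongr
  exact le_add_self

theorem three_pairC {s M : ℝ} (hM : 0 ≤ M) : ENNReal.ofReal M ≤ three s M {vC, -vC} := by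
  have h := two_ofReal (a := M / 2) (by positivity)
  rw [show 2 * (M / 2) = M by ring] at h
  rw [three_apply s M (Set.toFinite _).measurableSet, ← h]
  refine le_trans ?_ le_add_self
  refine mul_le_mul' le_rfl ?_
  rw [indicator_of_mem (show vC ∈ ({vC, -vC} : Set (Sph 2)) by simp),
    indicator_of_mem (show -vC ∈ ({vC, -vC} : Set (Sph 2)) by simp)]
  simp only [Pi.one_apply]
  exact le_rfl

theorem three_compl (s M : ℝ) :
    three s M ({vA, -vA, vB, -vB, vC, -vC} : Set (Sph 2))ᶜ = 0 := by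
  rw [three_apply s M (Set.toFinite _).measurableSet.compl]
  simp

theorem three_even (s M : ℝ) {ω : Set (Sph 2)} (hω : MeasurableSet ω) :
    three s M ((fun u : Sph 2 => -u) ⁻¹' ω) = three s M ω := by
  have hm : MeasurableSet ((fun u : Sph 2 => -u) ⁻¹' ω) := hω.preimage (by fun_prop)
  rw [three_apply s M hm, three_apply s M hω]
  have e : ∀ v : Sph 2, ((fun u : Sph 2 => -u) ⁻¹' ω).indicator (1 : Sph 2 → ℝ≥0∞) v =
      ω.indicator 1 (-v) := by
    intro v
    by_cases h : -v ∈ ω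
    · rw [indicator_of_mem h, indicator_of_mem (show v ∈ (fun u : Sph 2 => -u) ⁻¹' ω from h)]
      rfl
    · rw [indicator_of_notMem h,
        indicator_of_notMem (show v ∉ (fun u : Sph 2 => -u) ⁻¹' ω from h)]
  simp only [e, neg_neg]
  ring

theorem span_AB {L : Submodule ℝ (E 2)} (hA : (vA : E 2) ∈ L) (hB : (vB : E 2) ∈ L) : L = ⊤ := by
  rw [eq_top_iff]
  intro x _
  have : x = x 0 • (vA : E 2) + x 1 • (vB : E 2) := by
    change x = x 0 • (EuclideanSpace.single 0 (1 : ℝ) : E2) +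
      x 1 • (EuclideanSpace.single 1 (1 : ℝ) : E2)
    ext i
    fin_cases i <;> simp
  rw [this]
  exact L.add_mem (L.smul_mem _ hA) (L.smul_mem _ hB)

theorem vC_rel : √2 • (vC : E 2) = (vA : E 2) - (vB : E 2) := by
  have hs2 : √2 ≠ 0 := by positivity
  change √2 • (!₂[(√2)⁻¹, -(√2)⁻¹] : E2) = (EuclideanSpace.single 0 (1 : ℝ) : E2) -
      (EuclideanSpace.single 1 (1 : ℝ) : E2)
  ext i
  fin_cases i <;> simp

theorem span_AC {L : Submodule ℝ (E 2)} (hA : (vA : E 2) ∈ L) (hC : (vC : E 2) ∈ L) : L = ⊤ := by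
  apply span_AB hA
  have h := L.sub_mem hA (L.smul_mem √2 hC)
  rwa [vC_rel, sub_sub_cancel] at h

theorem span_BC {L : Submodule ℝ (E 2)} (hB : (vB : E 2) ∈ L) (hC : (vC : E 2) ∈ L) : L = ⊤ := by
  refine span_AB ?_ hB
  have h := L.add_mem hB (L.smul_mem √2 hC)
  rwa [vC_rel, add_sub_cancel] at h

theorem three_line {q s M : ℝ} (hq : 2 < q) (hs : 0 < s) (hM0 : 0 ≤ M) (h : 4 * s + M = 1)
    (hM : M < (q - 1) / q) (L : Submodule ℝ (E 2)) (hL : L ≠ ⊤) :
    three s M {u : Sph 2 | (u : E 2) ∈ L} <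
      ENNReal.ofReal ((q - 2 + Module.finrank ℝ L) / q) * three s M univ := by
  have hq0 : 0 < q := by linarith
  have hclosed : IsClosed {u : Sph 2 | (u : E 2) ∈ L} :=
    L.closed_of_finiteDimensional.preimage continuous_subtype_val
  rw [three_univ hs.le hM0 h, mul_one, three_apply s M hclosed.measurableSet]
  have hneg : ∀ v : Sph 2, ({u : Sph 2 | (u : E 2) ∈ L}).indicator (1 : Sph 2 → ℝ≥0∞) (-v) =
      ({u : Sph 2 | (u : E 2) ∈ L}).indicator 1 v := by
    intro v
    by_cases hv : (v : E 2) ∈ L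
    · rw [indicator_of_mem (show v ∈ {u : Sph 2 | (u : E 2) ∈ L} from hv),
        indicator_of_mem (show -v ∈ {u : Sph 2 | (u : E 2) ∈ L} from L.neg_mem hv)]
      rfl
    · rw [indicator_of_notMem (show v ∉ {u : Sph 2 | (u : E 2) ∈ L} from hv),
        indicator_of_notMem (show -v ∉ {u : Sph 2 | (u : E 2) ∈ L} from
          fun hc => hv (by have := L.neg_mem hc; simpa using this))]
  have hin : ∀ v : Sph 2, (v : E 2) ∈ L →
      ({u : Sph 2 | (u : E 2) ∈ L}).indicator (1 : Sph 2 → ℝ≥0∞) v = 1 := fun v hv =>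
    indicator_of_mem (show v ∈ {u : Sph 2 | (u : E 2) ∈ L} from hv) _
  have hout : ∀ v : Sph 2, (v : E 2) ∉ L →
      ({u : Sph 2 | (u : E 2) ∈ L}).indicator (1 : Sph 2 → ℝ≥0∞) v = 0 := fun v hv =>
    indicator_of_notMem (show v ∉ {u : Sph 2 | (u : E 2) ∈ L} from hv) _
  have hfin : ∀ v : Sph 2, (v : E 2) ∈ L → (1 : ℝ) ≤ Module.finrank ℝ L := by
    intro v hv
    have : 1 ≤ Module.finrank ℝ L := by
      rw [Submodule.one_le_finrank_iff]
      intro hbot
      rw [hbot, Submodule.mem_bot] at hv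
      exact sph_ne v hv
    exact_mod_cast this
  have hbig : ∀ v : Sph 2, (v : E 2) ∈ L → ∀ a : ℝ, a < (q - 1) / q →
      ENNReal.ofReal a < ENNReal.ofReal ((q - 2 + Module.finrank ℝ L) / q) := by
    intro v hv a ha
    have h1 : (q - 1) / q ≤ (q - 2 + Module.finrank ℝ L) / q := by
      have := hfin v hv
      gcongr
      linarith
    have h2 : 0 < (q - 1) / q := div_pos (by linarith) hq0
    exact (ENNReal.ofReal_lt_ofReal_iff (h2.trans_le h1)).2 (ha.trans_le h1)
  have hs2 : 2 * s < (q - 1) / q := by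
    rw [lt_div_iff₀ hq0]
    nlinarith
  simp only [hneg]
  by_cases hA : (vA : E 2) ∈ L
  · have hB : (vB : E 2) ∉ L := fun hB => hL (span_AB hA hB)
    have hC : (vC : E 2) ∉ L := fun hC => hL (span_AC hA hC)
    rw [hin _ hA, hout _ hB, hout _ hC, add_zero, add_zero, add_zero, mul_zero, add_zero,
      two_ofReal hs.le]
    exact hbig _ hA _ hs2
  · by_cases hB : (vB : E 2) ∈ L
    · have hC : (vC : E 2) ∉ L := fun hC => hL (span_BC hB hC)
      rw [hout _ hA, hin _ hB, hout _ hC, add_zero, zero_add, mul_zero, add_zero,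
        two_ofReal hs.le]
      exact hbig _ hB _ hs2
    · by_cases hC : (vC : E 2) ∈ L
      · rw [hout _ hA, hout _ hB, hin _ hC, add_zero, add_zero, add_zero, mul_zero, zero_add,
          two_ofReal (by positivity), show 2 * (M / 2) = M by ring]
        exact hbig _ hC _ hM
      · rw [hout _ hA, hout _ hB, hout _ hC, add_zero, add_zero, add_zero, mul_zero, mul_zero,
          add_zero]
        have : (0 : ℝ) ≤ Module.finrank ℝ L := by positivity
        exact ENNReal.ofReal_pos.2 (div_pos (by linarith) hq0)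

end Pool.Agent.H810.Dual
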